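import Pool.Agent.TH987.AN.Embed
import Pool.Agent.TH967.VT.UpB

/-!
The lower bound for the percolation probability of the anisotropic model.
-/

set_option autoImplicit false

open MeasureTheory

namespace Pool.Agent.TH987.AN.Lay

open Finset H974 Pool.Agent.H160R2.CV H362P
open Pool.Agent.H160R2.CV.Quad Pool.Agent.TH967.VT

theorem CF_ge {K0 : ℝ} (hK : 1 ≤ K0) : 2 ≤ CF K0 := by
  unfold CF
  have h1 : (1:ℝ) ≤ K0 ^ 4 := one_le_pow₀ hK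
  have h2 : (1:ℝ) ≤ (2 ^ 188) ^ 2 := one_le_pow₀ (one_le_pow₀ (by norm_num))
  have h3 : (1:ℝ) ≤ (2 ^ 188) ^ 2 * K0 ^ 4 := by
    calc (1:ℝ) = 1 * 1 := by norm_num
      _ ≤ _ := mul_le_mul h2 h1 (by norm_num) (by linarith)
  calc (2:ℝ) ≤ 52488 * 1 := by norm_num
    _ ≤ 52488 * ((2 ^ 188) ^ 2 * K0 ^ 4) := mul_le_mul_of_nonneg_left h3 (by norm_num)
    _ = _ := by rw [mul_assoc]

theorem choose_K {κ a K0 : ℝ} (hκ : 0 < κ) (hκ1 : κ ≤ 1 / 2) (ha : 0 < a) (ha1 : a ≤ 1)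
    (hK : 1 ≤ K0) : ∃ K n : ℕ, 81 * (2 * 17 * bnd κ a K0 K n) ≤ 1 / 4 := by
  have hCF := CF_ge hK
  obtain ⟨d, hd⟩ : ∃ d : ℝ, d = dl a K0 := ⟨_, rfl⟩
  have hd0 : 0 < d := by rw [hd]; exact dl_pos ha hK
  have ha4 : a ^ 4 ≤ 1 := pow_le_one₀ ha.le ha1
  have hd1 : d ≤ 1 := by
    rw [hd]
    unfold dl
    rw [div_le_one (by linarith)]
    linarith
  have hκ4 : κ ^ 4 ≤ 1 := pow_le_one₀ hκ.le (by linarith)
  have hκ40 : 0 < κ ^ 4 := by positivity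
  obtain ⟨r, hr⟩ : ∃ r : ℝ, r = 1 - κ ^ 4 * d * d := ⟨_, rfl⟩
  have hx0 : 0 < κ ^ 4 * d * d := by positivity
  have hx1 : κ ^ 4 * d ≤ 1 := by nlinarith
  have hx2 : κ ^ 4 * d * d ≤ 1 := by nlinarith
  have hr0 : 0 ≤ r := by rw [hr]; linarith
  have hr1 : r < 1 := by rw [hr]; linarith
  have hlim := tendsto_pow_const_mul_const_pow_of_abs_lt_one 2 (r := r)
    (by rw [abs_of_nonneg hr0]; exact hr1)
  have hev : ∀ᶠ m : ℕ in Filter.atTop, (m : ℝ) ^ 2 * r ^ m < 1 / 330000 :=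
    hlim.eventually (gt_mem_nhds (by norm_num))
  obtain ⟨m, hm1, hm2⟩ := (hev.and (Filter.eventually_ge_atTop 1)).exists
  have hm1' : (1:ℝ) ≤ m := by exact_mod_cast hm2
  have hT0 := dT_pos hκ ha hK
  obtain ⟨t, ht⟩ : ∃ t : ℝ, t = dT κ a K0 ^ (m + 1) := ⟨_, rfl⟩
  have ht0 : 0 < t := by rw [ht]; positivity
  have ht1 : t ≤ 1 := by
    rw [ht]
    apply pow_le_one₀ hT0.le
    unfold dT
    have e1 : κ ^ 9 ≤ 1 := pow_le_one₀ hκ.le (by linarith)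
    have e10 : 0 ≤ κ ^ 9 := by positivity
    have e2 : 2 * a ^ 4 / (CF K0 + 9 * K0 ^ 2) ≤ 1 := by
      rw [div_le_one (by positivity)]
      have : 0 ≤ 9 * K0 ^ 2 := by positivity
      linarith
    have e20 : 0 ≤ 2 * a ^ 4 / (CF K0 + 9 * K0 ^ 2) := by positivity
    have e3 : κ ^ 9 * κ ^ 9 ≤ 1 := by nlinarith
    nlinarith
  obtain ⟨G, hG⟩ : ∃ G : ℝ, G = (m + 2) * ((m + 2) * (2 * (9 * K0 ^ 2 / a ^ 2))) := ⟨_, rfl⟩
  have hG0 : 0 < G := by rw [hG]; positivity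
  obtain ⟨n, hn⟩ := exists_pow_lt_of_lt_one (show 0 < 1 / (30000 * G) by positivity)
    (show 1 - t < 1 by linarith)
  refine ⟨m + 1, n, ?_⟩
  unfold bnd
  rw [← hd, ← ht, ← hr, Nat.add_sub_cancel]
  push_cast
  have s1 : (1 - κ ^ 4 * d) ^ (m + 1 + 1) ≤ r ^ m := by
    have h1 : 1 - κ ^ 4 * d ≤ r := by
      rw [hr]
      have : κ ^ 4 * d * d ≤ κ ^ 4 * d * 1 := mul_le_mul_of_nonneg_left hd1 (by positivity)
      linarith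
    calc (1 - κ ^ 4 * d) ^ (m + 1 + 1) ≤ r ^ (m + 1 + 1) :=
          pow_le_pow_left₀ (by linarith) h1 _
      _ ≤ r ^ m := pow_le_pow_of_le_one hr0 hr1.le (by omega)
  have hrm : 0 ≤ r ^ m := pow_nonneg hr0 m
  have s2 : r ^ m ≤ (m:ℝ) ^ 2 * r ^ m := by
    have : 1 ≤ (m:ℝ) ^ 2 := one_le_pow₀ hm1'
    nlinarith
  have s3 : ((m:ℝ) + 1 + 1) * (((m:ℝ) + 1 + 1) * r ^ m) ≤ 9 * ((m:ℝ) ^ 2 * r ^ m) := by
    have : ((m:ℝ) + 1 + 1) * ((m:ℝ) + 1 + 1) ≤ 9 * (m:ℝ) ^ 2 := by nlinarith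
    nlinarith
  have s4 : ((m:ℝ) + 1 + 1) * (((m:ℝ) + 1 + 1) * (2 * (9 * K0 ^ 2 / a ^ 2 * (1 - t) ^ n))) ≤
      1 / 30000 := by
    have e : ((m:ℝ) + 1 + 1) * (((m:ℝ) + 1 + 1) * (2 * (9 * K0 ^ 2 / a ^ 2 * (1 - t) ^ n))) =
        G * (1 - t) ^ n := by
      rw [hG]; ring
    rw [e]
    calc G * (1 - t) ^ n ≤ G * (1 / (30000 * G)) := mul_le_mul_of_nonneg_left hn.le hG0.le
      _ = 1 / 30000 := by field_simp
  linarith

theorem Far_mono {M : ℕ} {x : ℕ × Vtx} {F G : Finset E3} (h : F ⊆ G) (hF : Far M x F) :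
    Far M x G := by
  obtain ⟨u, h1, h2⟩ := hF
  exact ⟨u, h1, h2.mono (by exact_mod_cast h)⟩

theorem theta_lower3 {s : ℕ} (i0 : Fin s) : ∃ c : ℝ, 0 < c ∧ ∀ p q : unitInterval, 0 < (q:ℝ) →
    1 / 2 - c * (q : ℝ) ^ (18 / 43 : ℝ) ≤ p → c * (q : ℝ) ^ (5 / 86 : ℝ) ≤ theta s p q := by
  obtain ⟨κ, a0, C, hκ, ha0, hC, hnear⟩ := Pool.Agent.W424.NC.nearG
  obtain ⟨K0, hK1, hup⟩ := crit_arm
  have hκ1 : κ ≤ 1 / 2 := by
    obtain ⟨m, -, -, h1, -, -⟩ := hnear (1 / 2) 1 (by norm_num) le_rfl le_rfl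
    exact h1.kle
  obtain ⟨a, ha⟩ : ∃ a : ℝ, a = min a0 1 / 2 := ⟨_, rfl⟩
  have hapos : 0 < a := by
    rw [ha]
    have : 0 < min a0 1 := lt_min ha0 one_pos
    linarith
  have ha1 : a ≤ 1 := by
    rw [ha]
    have : min a0 1 ≤ 1 := min_le_right _ _
    linarith
  have haa : a ≤ a0 / 2 := by
    rw [ha]
    have : min a0 1 ≤ a0 := min_le_left _ _
    linarith
  obtain ⟨K, n, hKn⟩ := choose_K hκ hκ1 hapos ha1 hK1
  obtain ⟨T, hT⟩ : ∃ T : ℝ, T = 2 * 16 ^ n := ⟨_, rfl⟩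
  have hT0 : 0 < T := by rw [hT]; positivity
  obtain ⟨A, hA⟩ : ∃ A : ℝ, A = 8 * T * C := ⟨_, rfl⟩
  have hA0 : 0 < A := by rw [hA]; positivity
  obtain ⟨c1, hc1⟩ : ∃ c1 : ℝ, c1 = min (1 / 4) ((1 / A) ^ (3 / 4 : ℝ)) := ⟨_, rfl⟩
  have hc10 : 0 < c1 := by rw [hc1]; exact lt_min (by norm_num) (by positivity)
  have hc14 : c1 ≤ 1 / 4 := by rw [hc1]; exact min_le_left _ _
  have hc1A : c1 ^ (4 / 3 : ℝ) ≤ 1 / A := by
    calc c1 ^ (4 / 3 : ℝ) ≤ ((1 / A) ^ (3 / 4 : ℝ)) ^ (4 / 3 : ℝ) :=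
          Real.rpow_le_rpow hc10.le (by rw [hc1]; exact min_le_right _ _) (by norm_num)
      _ = 1 / A := by
          rw [← Real.rpow_mul (by positivity)]
          norm_num
  obtain ⟨c2, hc2⟩ : ∃ c2 : ℝ, c2 = dl a K0 * a ^ 2 / (2 * K0) / (162 * (K + 1)) *
    T ^ (-(5 / 48 : ℝ)) := ⟨_, rfl⟩
  have hdl := dl_pos hapos hK1
  have hc20 : 0 < c2 := by rw [hc2]; positivity
  refine ⟨min c1 c2, lt_min hc10 hc20, fun p q hq hp => ?_⟩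
  have hq1 : (q:ℝ) ≤ 1 := q.2.2
  obtain ⟨y, hy⟩ : ∃ y : ℝ, y = (q:ℝ) ^ (-(24 / 43 : ℝ)) := ⟨_, rfl⟩
  have hy0 : 0 < y := by rw [hy]; positivity
  have hy1 : 1 ≤ y := by
    rw [hy]
    exact Real.one_le_rpow_of_pos_of_le_one_of_nonpos hq hq1 (by norm_num)
  obtain ⟨l, hl⟩ : ∃ l : ℕ, l = ⌈y⌉₊ := ⟨_, rfl⟩
  have hly : y ≤ l := by rw [hl]; exact Nat.le_ceil y
  have hl2 : (l:ℝ) ≤ 2 * y := by
    have : (l:ℝ) < y + 1 := by rw [hl]; exact Nat.ceil_lt_add_one hy0.le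
    linarith
  have hl1 : 1 ≤ l := by
    have : (1:ℝ) ≤ l := hy1.trans hly
    exact_mod_cast this
  obtain ⟨L, hL⟩ : ∃ L : ℕ, L = 16 ^ n * l := ⟨_, rfl⟩
  have hL1 : 1 ≤ L := by rw [hL]; exact Nat.mul_pos (by positivity) hl1
  have hL0 : (0:ℝ) < L := by exact_mod_cast hL1
  have hLy : (L:ℝ) ≤ T * y := by
    rw [hL, hT]
    push_cast
    have : (16:ℝ) ^ n * l ≤ 16 ^ n * (2 * y) := mul_le_mul_of_nonneg_left hl2 (by positivity)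
    linarith
  -- the parameter below one half
  obtain ⟨p0, hp0⟩ : ∃ p0 : ℝ, p0 = min (p:ℝ) (1 / 2) := ⟨_, rfl⟩
  have hp0p : p0 ≤ p := by rw [hp0]; exact min_le_left _ _
  have hp02 : p0 ≤ 1 / 2 := by rw [hp0]; exact min_le_right _ _
  have hq18 : 0 < (q : ℝ) ^ (18 / 43 : ℝ) := by positivity
  have hp0l : 1 / 2 - c1 * (q : ℝ) ^ (18 / 43 : ℝ) ≤ p0 := by
    rw [hp0]
    apply le_min
    · have : min c1 c2 * (q : ℝ) ^ (18 / 43 : ℝ) ≤ c1 * (q : ℝ) ^ (18 / 43 : ℝ) :=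
        mul_le_mul_of_nonneg_right (min_le_left _ _) hq18.le
      linarith
    · have : 0 ≤ c1 * (q : ℝ) ^ (18 / 43 : ℝ) := by positivity
      linarith
  have hq18' : (q : ℝ) ^ (18 / 43 : ℝ) ≤ 1 := Real.rpow_le_one hq.le hq1 (by norm_num)
  have hp04 : 1 / 4 ≤ p0 := by nlinarith
  have hgap : (1 / 2 - p0) ^ (4 / 3 : ℝ) ≤ 1 / A * y⁻¹ := by
    have h1 : 1 / 2 - p0 ≤ c1 * (q : ℝ) ^ (18 / 43 : ℝ) := by linarith
    calc (1 / 2 - p0) ^ (4 / 3 : ℝ) ≤ (c1 * (q : ℝ) ^ (18 / 43 : ℝ)) ^ (4 / 3 : ℝ) :=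
          Real.rpow_le_rpow (by linarith) h1 (by norm_num)
      _ = c1 ^ (4 / 3 : ℝ) * y⁻¹ := by
          rw [Real.mul_rpow hc10.le hq18.le, ← Real.rpow_mul hq.le, hy, ← Real.rpow_neg hq.le]
          norm_num
      _ ≤ 1 / A * y⁻¹ := mul_le_mul_of_nonneg_right hc1A (by positivity)
  obtain ⟨m, hm1, hmn, hwin, harm, halt⟩ := hnear p0 (4 * L) hp04 hp02 (by omega)
  have hm : m = 4 * L := by
    rcases halt with h | h
    · exact h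
    · exfalso
      have h1 : (m:ℝ) ≤ 4 * (T * y) := by
        have : (m:ℝ) ≤ 4 * L := by exact_mod_cast hmn
        linarith
      have h2 : C * (m * (1 / 2 - p0) ^ (4 / 3 : ℝ)) ≤ C * (4 * (T * y) * (1 / A * y⁻¹)) := by
        apply mul_le_mul_of_nonneg_left _ hC.le
        apply mul_le_mul h1 hgap _ (by positivity)
        apply Real.rpow_nonneg
        linarith
      have h3 : C * (4 * (T * y) * (1 / A * y⁻¹)) = 1 / 2 := by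
        rw [hA]
        field_simp
        norm_num
      linarith
  subst hm
  have hN : 4 * (4 * L) = 16 * L := by ring
  rw [hN] at hwin harm
  have hH : Hyp p0 (q:ℝ) κ a K0 (16 * L) := by
    refine ⟨hwin, hp02, hq.le, hq1, hapos, hK1, hup, ?_⟩
    intro m' hm'1 hm'2
    have hm'0 : (0:ℝ) < m' := by exact_mod_cast hm'1
    have h1 := harm (8 * m') (by omega) (by omega)
    refine le_trans ?_ h1
    push_cast
    rw [Real.mul_rpow (by norm_num) hm'0.le]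
    have h8 : (1:ℝ) / 2 ≤ (8:ℝ) ^ (-(5 / 48) : ℝ) := by
      calc (1:ℝ) / 2 = (8:ℝ) ^ (-(1 / 3) : ℝ) := by
            rw [show (8:ℝ) = 2 ^ (3:ℝ) by norm_num, ← Real.rpow_mul (by norm_num)]
            norm_num
        _ ≤ (8:ℝ) ^ (-(5 / 48) : ℝ) :=
            Real.rpow_le_rpow_of_exponent_le (by norm_num) (by norm_num)
    have hmm : 0 < (m':ℝ) ^ (-(5 / 48) : ℝ) := by positivity
    calc a * (m':ℝ) ^ (-(5 / 48) : ℝ) ≤ (a0 * (8:ℝ) ^ (-(5 / 48) : ℝ)) * (m':ℝ) ^ (-(5 / 48) : ℝ) := by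
          apply mul_le_mul_of_nonneg_right _ hmm.le
          nlinarith
      _ = _ := by ring
  have hqm : 1 ≤ (q:ℝ) * (l : ℝ) ^ (43 / 24 : ℝ) := by
    have h1 : (q:ℝ)⁻¹ ≤ (l : ℝ) ^ (43 / 24 : ℝ) := by
      calc (q:ℝ)⁻¹ = y ^ (43 / 24 : ℝ) := by
            rw [hy, ← Real.rpow_mul hq.le, ← Real.rpow_neg_one]
            norm_num
        _ ≤ _ := Real.rpow_le_rpow hy0.le hly (by norm_num)
    calc (1:ℝ) = q * (q:ℝ)⁻¹ := by rw [mul_inv_cancel₀ hq.ne']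
      _ ≤ _ := mul_le_mul_of_nonneg_left h1 hq.le
  have hfar := far_low hH hl1 hL le_rfl hqm hKn
  have hok : Ok (wt p0 (q:ℝ)) := hH.ok
  have hok' : Ok (wt (p:ℝ) (q:ℝ)) := ok3 p.2.1 p.2.2 hq.le hq1
  have hfin := theta_of_far i0 p q (K := K) hL1 (D := dl a K0 * a ^ 2 / (2 * K0) *
    (L : ℝ) ^ (91 / 48 : ℝ)) (fun M => by
      obtain ⟨S0, hS0⟩ := hfar M
      refine ⟨S0, (hS0 S0 subset_rfl).trans ?_⟩
      apply Finset.sum_le_sum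
      intro y _
      apply Finset.sum_le_sum
      intro i _
      apply Finset.sum_le_sum
      intro v _
      refine Pr_mono_param hok hok' ?_ (fun F G h _ hF => Far_mono h hF)
      rintro (e | e)
      · exact hp0p
      · exact le_rfl)
  obtain ⟨θ, hθ⟩ : ∃ θ : ℝ, θ = theta s p q := ⟨_, rfl⟩
  rw [← hθ] at hfin ⊢
  obtain ⟨g, hg⟩ : ∃ g : ℝ, g = dl a K0 * a ^ 2 / (2 * K0) := ⟨_, rfl⟩
  rw [← hg] at hfin hc2
  have hg0 : 0 < g := by rw [hg]; positivity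
  have hLe : (L : ℝ) ^ (91 / 48 : ℝ) = (L:ℝ) ^ 2 * (L : ℝ) ^ (-(5 / 48 : ℝ)) := by
    rw [← Real.rpow_natCast (L : ℝ) 2, ← Real.rpow_add hL0]
    norm_num
  rw [hLe] at hfin
  have h1 : g * (L : ℝ) ^ (-(5 / 48 : ℝ)) ≤ 162 * (K + 1) * θ := by
    have hL2 : 0 < (L:ℝ) ^ 2 := by positivity
    have : (L:ℝ) ^ 2 * (g * (L : ℝ) ^ (-(5 / 48 : ℝ))) ≤ (L:ℝ) ^ 2 * (162 * (K + 1) * θ) := by
      calc (L:ℝ) ^ 2 * (g * (L : ℝ) ^ (-(5 / 48 : ℝ))) =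
            g * ((L:ℝ) ^ 2 * (L : ℝ) ^ (-(5 / 48 : ℝ))) := by ring
        _ ≤ _ := hfin
        _ = _ := by ring
    exact le_of_mul_le_mul_left this hL2
  have h2 : T ^ (-(5 / 48 : ℝ)) * (q:ℝ) ^ (5 / 86 : ℝ) ≤ (L : ℝ) ^ (-(5 / 48 : ℝ)) := by
    calc T ^ (-(5 / 48 : ℝ)) * (q:ℝ) ^ (5 / 86 : ℝ) = (T * y) ^ (-(5 / 48 : ℝ)) := by
          rw [Real.mul_rpow hT0.le hy0.le, hy, ← Real.rpow_mul hq.le]
          norm_num
      _ ≤ _ := Real.rpow_le_rpow_of_nonpos hL0 hLy (by norm_num)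
  have h3 : c2 * (q:ℝ) ^ (5 / 86 : ℝ) ≤ θ := by
    have h4 : g * (T ^ (-(5 / 48 : ℝ)) * (q:ℝ) ^ (5 / 86 : ℝ)) ≤ 162 * (K + 1) * θ :=
      (mul_le_mul_of_nonneg_left h2 hg0.le).trans h1
    have h5 : c2 * (q:ℝ) ^ (5 / 86 : ℝ) =
        g * (T ^ (-(5 / 48 : ℝ)) * (q:ℝ) ^ (5 / 86 : ℝ)) / (162 * (K + 1)) := by
      rw [hc2]
      field_simp
    rw [h5, div_le_iff₀ (by positivity)]
    linarith
  have hq5 : 0 ≤ (q:ℝ) ^ (5 / 86 : ℝ) := by positivity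
  exact (mul_le_mul_of_nonneg_right (min_le_right _ _) hq5).trans h3

end Pool.Agent.TH987.AN.Lay
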