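import Pool.Agent.TH987.AN.Rec

/-!
Upper bounds for the percolation probability of the anisotropic model.
-/

set_option autoImplicit false

open MeasureTheory Set Filter
open scoped ENNReal Topology

namespace Pool.Agent.TH987.AN

open Pool.Agent.TH967.VT (tl tl_mono sup_both)

theorem sum_pow_le (δ : ℝ) (h0 : 0 < δ) (h1 : δ ≤ 1) (N : ℕ) :
    ∑ d ∈ Finset.Icc 1 N, (d : ℝ) ^ (δ - 1) ≤ (N : ℝ) ^ δ / δ := by
  induction N with
  | zero => simp; positivity
  | succ N ih =>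
    rw [Finset.sum_Icc_succ_top (by omega)]
    have hN : (0 : ℝ) < ((N + 1 : ℕ) : ℝ) := by positivity
    have hN' : ((N + 1 : ℕ) : ℝ) = (N : ℝ) + 1 := by push_cast; ring
    have hb : (1 + (-(1 / ((N : ℝ) + 1)))) ^ δ ≤ 1 + δ * (-(1 / ((N : ℝ) + 1))) := by
      apply rpow_one_add_le_one_add_mul_self
      · rw [neg_le_neg_iff, div_le_one (by positivity)]
        have : (0 : ℝ) ≤ N := Nat.cast_nonneg N
        linarith
      · exact h0.le
      · exact h1
    have e1 : (N : ℝ) = ((N : ℝ) + 1) * (1 + (-(1 / ((N : ℝ) + 1)))) := by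
      field_simp
      ring
    have e2 : (N : ℝ) ^ δ = ((N : ℝ) + 1) ^ δ * (1 + (-(1 / ((N : ℝ) + 1)))) ^ δ := by
      conv_lhs => rw [e1]
      rw [Real.mul_rpow (by positivity)]
      have : 1 / ((N : ℝ) + 1) ≤ 1 := by
        rw [div_le_one (by positivity)]
        have : (0 : ℝ) ≤ N := Nat.cast_nonneg N
        linarith
      linarith
    have e3 : ((N : ℝ) + 1) ^ (δ - 1) = ((N : ℝ) + 1) ^ δ * (1 / ((N : ℝ) + 1)) := by
      rw [Real.rpow_sub_one (by positivity), div_eq_mul_one_div]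
    have hp : 0 < ((N : ℝ) + 1) ^ δ := by positivity
    have h3 : (N : ℝ) ^ δ + δ * ((N : ℝ) + 1) ^ (δ - 1) ≤ ((N : ℝ) + 1) ^ δ := by
      rw [e2, e3]
      nlinarith
    rw [hN'] at *
    rw [le_div_iff₀ h0] at ih ⊢
    nlinarith

/-- the tail in the plane, for all parameters -/
theorem tl_up : ∃ C : ℝ, 1 ≤ C ∧ ∀ p : unitInterval, ∀ n : ℕ, 1 ≤ n →
    tl p n ≤ C * max ((n : ℝ) ^ (-(5 / 91 : ℝ))) ((max ((p : ℝ) - 1 / 2) 0) ^ (5 / 36 : ℝ)) := by
  obtain ⟨c, C, hc, hC, h⟩ := sup_both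
  refine ⟨C + 1, by linarith, fun p n hn => ?_⟩
  have hle : ∀ x : ℝ, 0 ≤ x → C * x ≤ (C + 1) * x := fun x hx => by nlinarith
  by_cases hp : (1 / 2 : ℝ) ≤ p
  · rw [max_eq_left (by linarith : (0:ℝ) ≤ (p:ℝ) - 1 / 2)]
    exact (h p hp n hn).2.trans (hle _ (le_max_of_le_left (by positivity)))
  · rw [not_le] at hp
    rw [max_eq_right (by linarith : (p:ℝ) - 1 / 2 ≤ 0)]
    have hm : p ≤ (⟨1 / 2, by norm_num, by norm_num⟩ : unitInterval) := by
      show (p:ℝ) ≤ 1 / 2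
      exact hp.le
    have h1 := (h ⟨1 / 2, by norm_num, by norm_num⟩ le_rfl n hn).2
    simp only [sub_self] at h1
    exact ((tl_mono hm n).trans h1).trans (hle _ (le_max_of_le_left (by positivity)))

/-- the upper bound for the percolation probability -/
theorem theta_up (s : ℕ) : ∃ C : ℝ, 0 < C ∧ ∀ p q : unitInterval,
    theta s p q ≤ C * max ((q : ℝ) ^ (5 / 86 : ℝ))
      ((max ((p : ℝ) - 1 / 2) 0) ^ (5 / 36 : ℝ)) := by
  obtain ⟨C1, hC1, h1⟩ := tl_up
  have hC1p : 0 < C1 := by linarith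
  obtain ⟨δ, hδ⟩ : ∃ δ : ℝ, δ = (1 / (8 * ((s:ℝ) + 1) * C1)) ^ (91 / 86 : ℝ) := ⟨_, rfl⟩
  have hb0 : 0 < 1 / (8 * ((s:ℝ) + 1) * C1) := by positivity
  have hb1 : 1 / (8 * ((s:ℝ) + 1) * C1) ≤ 1 := by
    rw [div_le_one (by positivity)]
    have : (0:ℝ) ≤ s := Nat.cast_nonneg s
    nlinarith
  have hδ0 : 0 < δ := by rw [hδ]; positivity
  have hδ1 : δ ≤ 1 := by
    rw [hδ]
    exact Real.rpow_le_one hb0.le hb1 (by norm_num)
  have hδp : δ ^ (86 / 91 : ℝ) = 1 / (8 * ((s:ℝ) + 1) * C1) := by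
    rw [hδ, ← Real.rpow_mul hb0.le]
    norm_num
  have hδ5 : 1 ≤ δ ^ (-(5 / 91 : ℝ)) := Real.one_le_rpow_of_pos_of_le_one_of_nonpos hδ0 hδ1
    (by norm_num)
  refine ⟨4 * C1 * δ ^ (-(5 / 91 : ℝ)), by positivity, fun p q => ?_⟩
  have hq0 : (0:ℝ) ≤ q := q.2.1
  have hth0 : 0 ≤ theta s p q := measureReal_nonneg
  have hth1 : theta s p q ≤ 1 := measureReal_le_one
  set t : ℝ := max ((p : ℝ) - 1 / 2) 0 with ht
  have ht0 : 0 ≤ t := le_max_right _ _
  have ht1 : t ≤ 1 := max_le (by have := p.2.2; linarith) (by norm_num)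
  rcases hq0.eq_or_lt with hq | hq
  · -- no transversal edges
    rw [← hq, Real.zero_rpow (by norm_num), max_eq_right (by positivity : (0:ℝ) ≤ t ^ (5 / 36 : ℝ))]
    have h2 : ∀ n : ℕ, 1 ≤ n → theta s p q ≤ C1 * max ((n : ℝ) ^ (-(5 / 91 : ℝ)))
        (t ^ (5 / 36 : ℝ)) := by
      intro n hn
      have h3 := rec_real (s := s) p q n
      rw [← hq] at h3
      simp only [mul_zero, zero_mul, add_zero] at h3
      exact h3.trans (h1 p n hn)
    have h4 : Tendsto (fun n : ℕ => C1 * max ((n : ℝ) ^ (-(5 / 91 : ℝ))) (t ^ (5 / 36 : ℝ)))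
        atTop (𝓝 (C1 * max 0 (t ^ (5 / 36 : ℝ)))) := by
      apply Tendsto.const_mul
      apply Tendsto.max _ tendsto_const_nhds
      exact (tendsto_rpow_neg_atTop (by norm_num : (0:ℝ) < 5 / 91)).comp
        tendsto_natCast_atTop_atTop
    have h5 := ge_of_tendsto h4 (eventually_atTop.mpr ⟨1, fun n hn => h2 n hn⟩)
    rw [max_eq_right (by positivity : (0:ℝ) ≤ t ^ (5 / 36 : ℝ))] at h5
    refine h5.trans ?_
    apply mul_le_mul_of_nonneg_right _ (by positivity)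
    nlinarith
  · set M : ℝ := max ((q : ℝ) ^ (5 / 86 : ℝ)) (t ^ (5 / 36 : ℝ)) with hM
    have hMq : (q : ℝ) ^ (5 / 86 : ℝ) ≤ M := le_max_left _ _
    have hMt : t ^ (5 / 36 : ℝ) ≤ M := le_max_right _ _
    have hM0 : 0 < M := lt_of_lt_of_le (by positivity) hMq
    -- the scale
    obtain ⟨N, hN⟩ : ∃ N : ℝ, N = δ * M ^ (-(91 / 5 : ℝ)) := ⟨_, rfl⟩
    have hN0 : 0 < N := by rw [hN]; positivity
    have hN5 : N ^ (-(5 / 91 : ℝ)) = δ ^ (-(5 / 91 : ℝ)) * M := by
      rw [hN, Real.mul_rpow hδ0.le (by positivity), ← Real.rpow_mul hM0.le]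
      norm_num
    have hN86 : (q:ℝ) * N ^ (86 / 91 : ℝ) ≤ 1 / (8 * ((s:ℝ) + 1) * C1) := by
      rw [hN, Real.mul_rpow hδ0.le (by positivity), ← Real.rpow_mul hM0.le, hδp]
      have e1 : (-(91 / 5 : ℝ)) * (86 / 91 : ℝ) = -(86 / 5 : ℝ) := by norm_num
      rw [e1]
      have h6 : M ^ (-(86 / 5 : ℝ)) ≤ (q:ℝ)⁻¹ := by
        have h7 : ((q:ℝ) ^ (5 / 86 : ℝ)) ^ (-(86 / 5 : ℝ)) = (q:ℝ)⁻¹ := by
          rw [← Real.rpow_mul hq.le, ← Real.rpow_neg_one]
          norm_num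
        rw [← h7]
        exact Real.rpow_le_rpow_of_nonpos (by positivity) hMq (by norm_num)
      calc (q:ℝ) * (1 / (8 * ((s:ℝ) + 1) * C1) * M ^ (-(86 / 5 : ℝ)))
          ≤ (q:ℝ) * (1 / (8 * ((s:ℝ) + 1) * C1) * (q:ℝ)⁻¹) := by gcongr
        _ = _ := by field_simp
    by_cases hN1 : N < 1
    · have h8 : 1 ≤ N ^ (-(5 / 91 : ℝ)) :=
        Real.one_le_rpow_of_pos_of_le_one_of_nonpos hN0 hN1.le (by norm_num)
      rw [hN5] at h8
      calc theta s p q ≤ 1 := hth1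
        _ ≤ δ ^ (-(5 / 91 : ℝ)) * M := h8
        _ ≤ 4 * C1 * δ ^ (-(5 / 91 : ℝ)) * M := by
            apply mul_le_mul_of_nonneg_right _ hM0.le
            nlinarith
    · rw [not_lt] at hN1
      obtain ⟨n, hn⟩ : ∃ n : ℕ, n = ⌊N⌋₊ := ⟨_, rfl⟩
      have hn1 : 1 ≤ n := by rw [hn]; exact Nat.le_floor (by exact_mod_cast hN1)
      have hnN : (n:ℝ) ≤ N := by rw [hn]; exact Nat.floor_le hN0.le
      have hnN2 : N / 2 ≤ n := by
        have h9 : N < (n:ℝ) + 1 := by rw [hn]; exact Nat.lt_floor_add_one N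
        have h10 : (1:ℝ) ≤ n := by exact_mod_cast hn1
        linarith
      have hnp : (0:ℝ) < n := by exact_mod_cast hn1
      -- for `k ≤ n` the first term dominates
      have hdom : ∀ k : ℕ, 1 ≤ k → k ≤ n → t ^ (5 / 36 : ℝ) ≤ (k : ℝ) ^ (-(5 / 91 : ℝ)) := by
        intro k hk hkn
        have hkp : (0:ℝ) < k := by exact_mod_cast hk
        have hkN : (k:ℝ) ≤ N := le_trans (by exact_mod_cast hkn) hnN
        calc t ^ (5 / 36 : ℝ) ≤ M := hMt
          _ ≤ δ ^ (-(5 / 91 : ℝ)) * M := by nlinarith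
          _ = N ^ (-(5 / 91 : ℝ)) := hN5.symm
          _ ≤ (k : ℝ) ^ (-(5 / 91 : ℝ)) := Real.rpow_le_rpow_of_nonpos hkp hkN (by norm_num)
      have hsum : ∑ k ∈ Finset.Ico 1 n, tl p k ≤ 2 * C1 * N ^ (86 / 91 : ℝ) := by
        calc ∑ k ∈ Finset.Ico 1 n, tl p k
            ≤ ∑ k ∈ Finset.Icc 1 n, C1 * (k:ℝ) ^ ((86 / 91 : ℝ) - 1) := by
              refine (Finset.sum_le_sum (g := fun k : ℕ => C1 * (k:ℝ) ^ ((86 / 91 : ℝ) - 1))
                fun k hk => ?_).trans ?_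
              · rw [Finset.mem_Ico] at hk
                have h11 := h1 p k hk.1
                rw [max_eq_left (hdom k hk.1 hk.2.le)] at h11
                have e2 : (86 / 91 : ℝ) - 1 = -(5 / 91 : ℝ) := by norm_num
                rw [e2]
                exact h11
              · apply Finset.sum_le_sum_of_subset_of_nonneg
                · intro k hk
                  rw [Finset.mem_Ico] at hk
                  rw [Finset.mem_Icc]
                  omega
                · intro k _ _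
                  positivity
          _ = C1 * ∑ k ∈ Finset.Icc 1 n, (k:ℝ) ^ ((86 / 91 : ℝ) - 1) := by
              rw [Finset.mul_sum]
          _ ≤ C1 * ((n:ℝ) ^ (86 / 91 : ℝ) / (86 / 91 : ℝ)) := by
              apply mul_le_mul_of_nonneg_left _ hC1p.le
              exact sum_pow_le _ (by norm_num) (by norm_num) n
          _ ≤ C1 * (2 * N ^ (86 / 91 : ℝ)) := by
              apply mul_le_mul_of_nonneg_left _ hC1p.le
              have h12 : (n:ℝ) ^ (86 / 91 : ℝ) ≤ N ^ (86 / 91 : ℝ) :=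
                Real.rpow_le_rpow hnp.le hnN (by norm_num)
              have h13 : 0 ≤ (n:ℝ) ^ (86 / 91 : ℝ) := by positivity
              rw [div_le_iff₀ (by norm_num)]
              nlinarith
          _ = _ := by ring
      have hrec := rec_real (s := s) p q n
      have hsmall : 2 * (s:ℝ) * q * (∑ k ∈ Finset.Ico 1 n, tl p k) ≤ 1 / 2 := by
        calc 2 * (s:ℝ) * q * (∑ k ∈ Finset.Ico 1 n, tl p k)
            ≤ 2 * (s:ℝ) * q * (2 * C1 * N ^ (86 / 91 : ℝ)) := by gcongr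
          _ = 4 * (s:ℝ) * C1 * ((q:ℝ) * N ^ (86 / 91 : ℝ)) := by ring
          _ ≤ 4 * (s:ℝ) * C1 * (1 / (8 * ((s:ℝ) + 1) * C1)) := by gcongr
          _ = (1 / 2) * ((s:ℝ) / ((s:ℝ) + 1)) := by field_simp; ring
          _ ≤ 1 / 2 := by
              have h14 : (s:ℝ) / ((s:ℝ) + 1) ≤ 1 := by
                rw [div_le_one (by positivity)]
                linarith
              linarith
      have h15 : theta s p q ≤ 2 * tl p n := by
        have := mul_le_mul_of_nonneg_right hsmall hth0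
        linarith
      have h16 : tl p n ≤ C1 * (2 * N ^ (-(5 / 91 : ℝ))) := by
        have h17 := h1 p n hn1
        rw [max_eq_left (hdom n hn1 le_rfl)] at h17
        refine h17.trans ?_
        apply mul_le_mul_of_nonneg_left _ hC1p.le
        calc (n:ℝ) ^ (-(5 / 91 : ℝ)) ≤ (N / 2) ^ (-(5 / 91 : ℝ)) :=
              Real.rpow_le_rpow_of_nonpos (by positivity) hnN2 (by norm_num)
          _ = N ^ (-(5 / 91 : ℝ)) * (2:ℝ) ^ (5 / 91 : ℝ) := by
              rw [Real.div_rpow hN0.le (by norm_num), Real.rpow_neg (by norm_num : (0:ℝ) ≤ 2)]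
              field_simp
          _ ≤ N ^ (-(5 / 91 : ℝ)) * 2 := by
              apply mul_le_mul_of_nonneg_left _ (by positivity)
              calc (2:ℝ) ^ (5 / 91 : ℝ) ≤ (2:ℝ) ^ (1:ℝ) :=
                    Real.rpow_le_rpow_of_exponent_le (by norm_num) (by norm_num)
                _ = 2 := Real.rpow_one 2
          _ = _ := by ring
      rw [hN5] at h16
      calc theta s p q ≤ 2 * tl p n := h15
        _ ≤ 2 * (C1 * (2 * (δ ^ (-(5 / 91 : ℝ)) * M))) := by linarith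
        _ = _ := by ring

theorem sum_le_sigma (p : unitInterval) (n : ℕ) :
    ENNReal.ofReal (∑ k ∈ Finset.Ico 1 n, tl p k) ≤ H974.sigma p := by
  have ht0 : ∀ k, 0 ≤ tl p k := fun k => measureReal_nonneg
  have h1 : ∀ k : ℕ, H974.bondLaw p {η | (k : ℕ∞) ≤ (H974.cluster0 η).encard} =
      ENNReal.ofReal (tl p k) := fun k =>
    (ofReal_measureReal (measure_ne_top _ _)).symm
  rw [ENNReal.ofReal_sum_of_nonneg fun k _ => ht0 k]
  simp only [← h1]
  have h2 : ∀ k : ℕ, H974.bondLaw p {η | (k : ℕ∞) ≤ (H974.cluster0 η).encard} =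
      ∫⁻ η, {η | (k : ℕ∞) ≤ (H974.cluster0 η).encard}.indicator (fun _ => (1:ℝ≥0∞)) η
        ∂(H974.bondLaw p) := fun k => by
    rw [lintegral_indicator (encard_meas2 k)]
    simp
  simp only [h2]
  rw [← lintegral_finsetSum _ fun k _ => (measurable_const.indicator (encard_meas2 k))]
  unfold H974.sigma
  apply lintegral_mono
  intro η
  beta_reduce
  classical
  simp only [Set.indicator_apply, Set.mem_ofPred_eq]
  rw [← Finset.sum_filter, Finset.sum_const, nsmul_eq_mul, mul_one]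
  by_cases hinf : (H974.cluster0 η).encard = ⊤
  · rw [hinf]
    simp
  · obtain ⟨m, hm⟩ := ENat.ne_top_iff_exists.mp hinf
    rw [← hm]
    have h3 : (Finset.filter (fun k : ℕ => (k : ℕ∞) ≤ (m : ℕ∞)) (Finset.Ico 1 n)).card ≤ m := by
      have h4 : Finset.filter (fun k : ℕ => (k : ℕ∞) ≤ (m : ℕ∞)) (Finset.Ico 1 n) ⊆
          Finset.Ico 1 (m + 1) := by
        intro k hk
        rw [Finset.mem_filter, Finset.mem_Ico] at hk
        rw [Finset.mem_Ico]
        have h5 : k ≤ m := by exact_mod_cast hk.2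
        omega
      refine (Finset.card_le_card h4).trans ?_
      simp
    simp only [ENat.toENNReal_coe]
    exact_mod_cast h3

/-- no percolation far below the critical point of the plane -/
theorem theta_zero (s : ℕ) : ∃ C : ℝ, 0 < C ∧ ∀ p q : unitInterval,
    (p : ℝ) < 1 / 2 - C * (q : ℝ) ^ (18 / 43 : ℝ) → theta s p q = 0 := by
  obtain ⟨C2, hC2, h2⟩ := Pool.Agent.W424.NC.sigma_upper
  obtain ⟨C1, hC1, h1⟩ := tl_up
  refine ⟨(2 * ((s:ℝ) + 1) * C2) ^ (18 / 43 : ℝ), by positivity, fun p q hp => ?_⟩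
  have hq0 : (0:ℝ) ≤ q := q.2.1
  have hth0 : 0 ≤ theta s p q := measureReal_nonneg
  obtain ⟨u, hu⟩ : ∃ u : ℝ, u = 1 / 2 - (p:ℝ) := ⟨_, rfl⟩
  have hCq : 0 ≤ (2 * ((s:ℝ) + 1) * C2) ^ (18 / 43 : ℝ) * (q : ℝ) ^ (18 / 43 : ℝ) := by positivity
  have hu0 : 0 < u := by rw [hu]; linarith
  have hu1 : (2 * ((s:ℝ) + 1) * C2 * q) ^ (18 / 43 : ℝ) < u := by
    rw [Real.mul_rpow (by positivity) hq0, hu]
    linarith
  have hu2 : 2 * ((s:ℝ) + 1) * C2 * q < u ^ (43 / 18 : ℝ) := by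
    have h3 : 0 ≤ 2 * ((s:ℝ) + 1) * C2 * q := by positivity
    have h4 := Real.rpow_lt_rpow (by positivity) hu1 (by norm_num : (0:ℝ) < 43 / 18)
    rw [← Real.rpow_mul h3] at h4
    norm_num at h4
    exact h4
  have hplt : (p:ℝ) < 1 / 2 := by linarith
  have hsig := h2 p hplt
  rw [← hu] at hsig
  -- the sum
  have hsum : ∀ n, ∑ k ∈ Finset.Ico 1 n, tl p k ≤ C2 * u ^ (-(43 / 18) : ℝ) := by
    intro n
    have h3 := (sum_le_sigma p n).trans hsig
    exact (ENNReal.ofReal_le_ofReal_iff (by positivity)).mp h3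
  obtain ⟨a, ha⟩ : ∃ a : ℝ, a = 2 * s * q * (C2 * u ^ (-(43 / 18) : ℝ)) := ⟨_, rfl⟩
  have ha1 : a < 1 := by
    have h5 : 0 < u ^ (43 / 18 : ℝ) := by positivity
    have h6 : a = (2 * s * C2 * q) / u ^ (43 / 18 : ℝ) := by
      rw [ha, Real.rpow_neg hu0.le]
      field_simp
    rw [h6, div_lt_one h5]
    refine lt_of_le_of_lt ?_ hu2
    have h7 : (0:ℝ) ≤ C2 * q := by positivity
    nlinarith
  have hrec : ∀ n : ℕ, 1 ≤ n → theta s p q - a * theta s p q ≤
      C1 * (n : ℝ) ^ (-(5 / 91 : ℝ)) := by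
    intro n hn
    have h3 := rec_real (s := s) p q n
    have h4 := h1 p n hn
    rw [max_eq_right (by linarith : (p:ℝ) - 1 / 2 ≤ 0), Real.zero_rpow (by norm_num),
      max_eq_left (by positivity : (0:ℝ) ≤ (n : ℝ) ^ (-(5 / 91 : ℝ)))] at h4
    have h5 : 2 * (s:ℝ) * q * (∑ k ∈ Finset.Ico 1 n, tl p k) * theta s p q ≤
        a * theta s p q := by
      apply mul_le_mul_of_nonneg_right _ hth0
      rw [ha]
      exact mul_le_mul_of_nonneg_left (hsum n) (by positivity)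
    linarith
  have hlim : Tendsto (fun n : ℕ => C1 * (n : ℝ) ^ (-(5 / 91 : ℝ))) atTop (𝓝 (C1 * 0)) := by
    apply Tendsto.const_mul
    exact (tendsto_rpow_neg_atTop (by norm_num : (0:ℝ) < 5 / 91)).comp
      tendsto_natCast_atTop_atTop
  have h8 := ge_of_tendsto hlim (eventually_atTop.mpr ⟨1, fun n hn => hrec n hn⟩)
  nlinarith

end Pool.Agent.TH987.AN
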