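import Pool.Agent.TH987.AN.Plane

/-!
The recursion over planes.
-/

set_option autoImplicit false

open MeasureTheory Set
open scoped ENNReal

namespace Pool.Agent.TH987.AN

/-- the neighbours in the directions transversal to the plane -/
def pn {s : ℕ} (u : V s) : Finset (V s) :=
  Finset.univ.biUnion fun i : Fin s =>
    {(u.1, u.2 + Pi.single i 1), (u.1, u.2 - Pi.single i 1)}

theorem card_pn {s : ℕ} (u : V s) : (pn u).card ≤ 2 * s := by
  unfold pn
  refine Finset.card_biUnion_le.trans ?_
  refine (Finset.sum_le_sum fun i _ => (Finset.card_le_two :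
    ({(u.1, u.2 + Pi.single i 1), (u.1, u.2 - Pi.single i 1)} : Finset (V s)).card ≤ 2)).trans ?_
  simp [mul_comm]

theorem mem_pn {s : ℕ} {u v : V s} (h : Pe u v) : v ∈ pn u := by
  obtain ⟨h1, h2⟩ := h
  obtain ⟨i, hi⟩ : ∃ i, |u.2 i - v.2 i| ≠ 0 := by
    by_contra hc
    push Not at hc
    rw [Finset.sum_congr rfl fun i _ => hc i] at h2
    simp at h2
  have h3 := Finset.add_sum_erase Finset.univ (fun i => |u.2 i - v.2 i|) (Finset.mem_univ i)
  have h4 : 0 ≤ ∑ x ∈ Finset.univ.erase i, |u.2 x - v.2 x| :=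
    Finset.sum_nonneg fun _ _ => abs_nonneg _
  have h5 : 1 ≤ |u.2 i - v.2 i| := by
    have := abs_nonneg (u.2 i - v.2 i)
    omega
  rw [h2] at h3
  have h6 : |u.2 i - v.2 i| = 1 := by omega
  have h7 : ∑ x ∈ Finset.univ.erase i, |u.2 x - v.2 x| = 0 := by omega
  have h8 : ∀ j, j ≠ i → u.2 j = v.2 j := by
    intro j hj
    have := (Finset.sum_eq_zero_iff_of_nonneg (fun _ _ => abs_nonneg _)).mp h7 j
      (Finset.mem_erase.mpr ⟨hj, Finset.mem_univ _⟩)
    rw [abs_eq_zero] at this
    omega
  unfold pn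
  rw [Finset.mem_biUnion]
  refine ⟨i, Finset.mem_univ _, ?_⟩
  rw [Finset.mem_insert, Finset.mem_singleton]
  rcases abs_eq (by norm_num : (0:ℤ) ≤ 1) |>.mp h6 with h9 | h9
  · right
    refine Prod.ext h1.symm ?_
    funext j
    by_cases hj : j = i
    · subst hj
      simp only [Pi.sub_apply, Pi.single_eq_same]
      omega
    · simp only [Pi.sub_apply, Pi.single_eq_of_ne hj]
      have := h8 j hj
      omega
  · left
    refine Prod.ext h1.symm ?_
    funext j
    by_cases hj : j = i
    · subst hj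
      simp only [Pi.add_apply, Pi.single_eq_same]
      omega
    · simp only [Pi.add_apply, Pi.single_eq_of_ne hj]
      have := h8 j hj
      omega

theorem pn_ne {s : ℕ} {x : ℤ × ℤ} {v : V s} (h : v ∈ pn (iv x)) : v.2 ≠ 0 := by
  unfold pn at h
  rw [Finset.mem_biUnion] at h
  obtain ⟨i, -, hi⟩ := h
  rw [Finset.mem_insert, Finset.mem_singleton] at hi
  rcases hi with rfl | rfl
  · intro h
    have h2 := congrFun h i
    simp [iv] at h2
  · intro h
    have h2 := congrFun h i
    simp [iv] at h2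

/-- the cluster in the plane is `S` -/
def AS {s : ℕ} (S : Finset (ℤ × ℤ)) : Set ((zd s).edgeSet → Bool) :=
  {ω | H974.cluster0 (pr ω) = ↑S}

/-- the edge is open -/
def ES {s : ℕ} (u v : V s) : Set ((zd s).edgeSet → Bool) := {ω | op ω u v}

/-- the cluster outside `S` is infinite -/
def IS {s : ℕ} (S : Finset (ℤ × ℤ)) (v : V s) : Set ((zd s).edgeSet → Bool) :=
  {ω | (cl ω (iv '' (S : Set (ℤ × ℤ)))ᶜ v).Infinite}

theorem exit_last {s : ℕ} (ω : (zd s).edgeSet → Bool) (S0 : Set (V s)) {a y : V s}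
    (ha : a ∈ S0) (h : (openGraph ω).Reachable a y) :
    y ∈ S0 ∨ ∃ u ∈ S0, ∃ v, v ∉ S0 ∧ op ω u v ∧ y ∈ cl ω S0ᶜ v := by
  rw [SimpleGraph.reachable_iff_reflTransGen] at h
  induction h with
  | refl => exact Or.inl ha
  | tail h0 hbc ih =>
    rename_i b c
    rw [adj_iff] at hbc
    by_cases hc : c ∈ S0
    · exact Or.inl hc
    · right
      rcases ih with hb | ⟨u, hu, v, hv, huv, hb⟩
      · exact ⟨b, hb, c, hc, hbc, SimpleGraph.Reachable.refl _⟩
      · by_cases hb0 : b ∈ S0
        · exact ⟨b, hb0, c, hc, hbc, SimpleGraph.Reachable.refl _⟩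
        · refine ⟨u, hu, v, hv, huv, ?_⟩
          have h1 : (rg ω S0ᶜ).Reachable v b := hb
          have h2 : (rg ω S0ᶜ).Adj b c := ⟨hb0, hc, hbc⟩
          exact h1.trans h2.reachable

theorem exit_inf {s : ℕ} (ω : (zd s).edgeSet → Bool) (S : Finset (ℤ × ℤ))
    (hS : ω ∈ AS S) (hinf : (cluster ω 0).Infinite) :
    ∃ x ∈ S, ∃ v ∈ pn (iv x : V s), ω ∈ ES (iv x) v ∧ ω ∈ IS S v := by
  by_contra hc
  push Not at hc
  apply hinf
  have hS' : H974.cluster0 (pr ω) = ↑S := hS
  have h0 : (0 : V s) ∈ iv '' (S : Set (ℤ × ℤ)) := by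
    refine ⟨(0, 0), ?_, rfl⟩
    rw [← hS']
    exact SimpleGraph.Reachable.refl _
  have hsub : cluster ω 0 ⊆ (iv '' (S : Set (ℤ × ℤ))) ∪
      ⋃ x ∈ S, ⋃ v ∈ (pn (iv x : V s)), {y | op ω (iv x) v ∧
        y ∈ cl ω (iv '' (S : Set (ℤ × ℤ)))ᶜ v} := by
    intro y hy
    rcases exit_last ω _ h0 hy with h1 | ⟨u, ⟨x, hx, rfl⟩, v, hv, huv, hyv⟩
    · exact Or.inl h1
    · right
      have hpe : Pe (iv x) v := by
        obtain ⟨hadj, hop⟩ := huv
        rcases hadj with hpl | hpe
        · exfalso
          apply hv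
          have e1 : v = iv v.1 := by
            refine Prod.ext rfl ?_
            exact hpl.1.symm
          refine ⟨v.1, ?_, e1.symm⟩
          rw [← hS']
          have h2 : x ∈ H974.cluster0 (pr ω) := by rw [hS']; exact hx
          have h3 : (H974.openGraph (pr ω)).Reachable (0, 0) x := h2
          have h4 : (H974.openGraph (pr ω)).Adj x v.1 := by
            rw [pr_adj ω]
            rw [← e1]
            exact ⟨hpl, Or.inl hpl, hop⟩
          exact h3.trans h4.reachable
        · exact hpe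
      simp only [mem_iUnion]
      exact ⟨x, hx, v, mem_pn hpe, huv, hyv⟩
  refine Set.Finite.subset ?_ hsub
  apply Set.Finite.union
  · exact (Finset.finite_toSet S).image _
  · refine Set.Finite.biUnion (Finset.finite_toSet S) fun x hx => ?_
    refine Set.Finite.biUnion (Finset.finite_toSet _) fun v hv => ?_
    by_cases h1 : op ω (iv x) v
    · have h2 := hc x hx v hv h1
      have h3 : (cl ω (iv '' (S : Set (ℤ × ℤ)))ᶜ v).Finite := by
        by_contra h4
        exact h2 h4
      exact h3.subset fun y hy => hy.2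
    · convert Set.finite_empty
      rw [Set.eq_empty_iff_forall_notMem]
      rintro y ⟨h2, -⟩
      exact h1 h2

/-! ### dependence -/

/-- the edges of the plane touching `S` -/
def T1 {s : ℕ} (S : Finset (ℤ × ℤ)) : Set (zd s).edgeSet :=
  {e | ∃ x ∈ S, ∃ y, e.1 = s((iv x : V s), iv y)}

theorem dep_AS_aux {s : ℕ} (S : Finset (ℤ × ℤ)) (ω ω' : (zd s).edgeSet → Bool)
    (h : ∀ c ∈ T1 S, ω c = ω' c) (hω : ω ∈ AS S) : ω' ∈ AS S := by
  have hS : H974.cluster0 (pr ω) = ↑S := hω
  have hop : ∀ x ∈ S, ∀ y, (H974.openGraph (pr ω)).Adj x y ↔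
      (H974.openGraph (pr ω')).Adj x y := by
    intro x hx y
    rw [pr_adj ω, pr_adj ω']
    refine and_congr_right fun _ => ?_
    constructor
    · rintro ⟨h1, h2⟩
      exact ⟨h1, by rw [← h _ ⟨x, hx, y, rfl⟩]; exact h2⟩
    · rintro ⟨h1, h2⟩
      exact ⟨h1, by rw [h _ ⟨x, hx, y, rfl⟩]; exact h2⟩
  have h0 : ((0, 0) : ℤ × ℤ) ∈ S := by
    have : ((0, 0) : ℤ × ℤ) ∈ H974.cluster0 (pr ω) := SimpleGraph.Reachable.refl _
    rw [hS] at this
    exact this
  show H974.cluster0 (pr ω') = ↑S
  apply Set.Subset.antisymm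
  · intro y hy
    have h1 : (H974.openGraph (pr ω')).Reachable (0, 0) y := hy
    rw [SimpleGraph.reachable_iff_reflTransGen] at h1
    induction h1 with
    | refl => exact h0
    | tail h3 hbc ih =>
      rename_i b c
      have h3' : b ∈ H974.cluster0 (pr ω') := by
        show (H974.openGraph (pr ω')).Reachable (0, 0) b
        rw [SimpleGraph.reachable_iff_reflTransGen]
        exact h3
      have hb : b ∈ S := ih h3'
      have h4 : b ∈ H974.cluster0 (pr ω) := by rw [hS]; exact hb
      have h5 : (H974.openGraph (pr ω)).Reachable (0, 0) b := h4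
      have h6 : c ∈ H974.cluster0 (pr ω) := h5.trans ((hop b hb c).mpr hbc).reachable
      rw [hS] at h6
      exact h6
  · intro y hy
    rw [← hS] at hy
    have h1 : (H974.openGraph (pr ω)).Reachable (0, 0) y := hy
    rw [SimpleGraph.reachable_iff_reflTransGen] at h1
    induction h1 with
    | refl => exact SimpleGraph.Reachable.refl _
    | tail h3 hbc ih =>
      rename_i b c
      have h3' : b ∈ H974.cluster0 (pr ω) := by
        show (H974.openGraph (pr ω)).Reachable (0, 0) b
        rw [SimpleGraph.reachable_iff_reflTransGen]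
        exact h3
      have hb : b ∈ S := by
        have := h3'
        rw [hS] at this
        exact this
      have h5 : (H974.openGraph (pr ω')).Reachable (0, 0) b := ih h3'
      exact h5.trans ((hop b hb c).mp hbc).reachable

theorem dep_AS {s : ℕ} (S : Finset (ℤ × ℤ)) : DepOn (AS (s := s) S) (T1 S) := by
  intro ω ω' h
  exact ⟨dep_AS_aux S ω ω' h, dep_AS_aux S ω' ω fun c hc => (h c hc).symm⟩

/-- one edge and the edges outside `S` -/
def T2 {s : ℕ} (u v : V s) : Set (zd s).edgeSet := {e | e.1 = s(u, v)}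

/-- the edges outside `S` -/
def T3 {s : ℕ} (S : Finset (ℤ × ℤ)) : Set (zd s).edgeSet :=
  {e | ∀ a ∈ e.1, a ∉ iv '' (S : Set (ℤ × ℤ))}

theorem dep_ES {s : ℕ} (u v : V s) : DepOn (ES u v) (T2 u v) := by
  intro ω ω' h
  constructor
  · rintro ⟨h1, h2⟩
    exact ⟨h1, by rw [← h _ rfl]; exact h2⟩
  · rintro ⟨h1, h2⟩
    exact ⟨h1, by rw [h _ rfl]; exact h2⟩

theorem dep_IS {s : ℕ} (S : Finset (ℤ × ℤ)) (v : V s) : DepOn (IS S v) (T3 S) := by
  intro ω ω' h
  have e : rg ω (iv '' (S : Set (ℤ × ℤ)))ᶜ = rg ω' (iv '' (S : Set (ℤ × ℤ)))ᶜ := by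
    ext a b
    show (_ ∧ _ ∧ _) ↔ (_ ∧ _ ∧ _)
    refine and_congr_right fun ha => and_congr_right fun hb => ?_
    have hT : ∀ h1 : (zd s).Adj a b, (⟨s(a, b), h1⟩ : (zd s).edgeSet) ∈ T3 S := by
      intro h1 c hc
      rcases Sym2.mem_iff.mp hc with rfl | rfl
      · exact ha
      · exact hb
    constructor
    · rintro ⟨h1, h2⟩
      exact ⟨h1, by rw [← h _ (hT h1)]; exact h2⟩
    · rintro ⟨h1, h2⟩
      exact ⟨h1, by rw [h _ (hT h1)]; exact h2⟩
  show (cl ω _ v).Infinite ↔ (cl ω' _ v).Infinite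
  unfold cl
  rw [e]

theorem AS_meas {s : ℕ} (S : Finset (ℤ × ℤ)) : MeasurableSet (AS (s := s) S) := by
  have hm : MeasurableSet {η : H974.sqLattice.edgeSet → Bool | H974.cluster0 η = ↑S} :=
    eq_meas (fun η y => (H974.openGraph η).Reachable (0, 0) y) (fun y => reach_meas _ (by
      intro u v
      by_cases huv : H974.sqLattice.Adj u v
      · have e : {η : H974.sqLattice.edgeSet → Bool | (H974.openGraph η).Adj u v} =
            (fun η : H974.sqLattice.edgeSet → Bool => η ⟨s(u, v), huv⟩) ⁻¹' {true} := by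
          ext η
          constructor
          · intro h
            unfold H974.openGraph at h
            rw [Set.mem_ofPred_eq, SimpleGraph.fromEdgeSet_adj] at h
            exact h.1.2
          · intro h
            unfold H974.openGraph
            rw [Set.mem_ofPred_eq, SimpleGraph.fromEdgeSet_adj]
            exact ⟨⟨huv, h⟩, huv.ne⟩
        rw [e]
        exact (measurable_pi_apply _) (measurableSet_singleton _)
      · have e : {η : H974.sqLattice.edgeSet → Bool | (H974.openGraph η).Adj u v} = ∅ := by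
          rw [Set.eq_empty_iff_forall_notMem]
          intro η h
          unfold H974.openGraph at h
          rw [Set.mem_ofPred_eq, SimpleGraph.fromEdgeSet_adj] at h
          exact huv h.1.1
        rw [e]
        exact MeasurableSet.empty) (0, 0) y) ↑S
  exact pr_meas hm

theorem ES_meas {s : ℕ} (u v : V s) : MeasurableSet (ES u v) := op_meas u v

theorem IS_meas {s : ℕ} (S : Finset (ℤ × ℤ)) (v : V s) : MeasurableSet (IS S v) :=
  cl_inf_meas _ v

/-- the probability that a transversal edge is open -/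
theorem mu_ES {s : ℕ} (p q : unitInterval) {x : ℤ × ℤ} {v : V s} (hv : v ∈ pn (iv x)) :
    law s p q (ES (iv x) v) ≤ ENNReal.ofReal q := by
  classical
  by_cases h : (zd s).Adj (iv x) v
  · have e : ES (iv x) v = Set.pi (({⟨s(iv x, v), h⟩} : Finset (zd s).edgeSet) : Set _)
        (fun _ => ({true} : Set Bool)) := by
      ext ω
      rw [Set.mem_pi]
      constructor
      · rintro ⟨_, h2⟩ e he
        rw [Finset.mem_coe, Finset.mem_singleton] at he
        rw [he]
        exact h2
      · intro h2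
        exact ⟨h, h2 _ (by simp)⟩
    have hnp : ¬ InPlane (s(iv x, v)) := by
      rw [inPlane_mk]
      intro hpl
      exact pn_ne hv hpl.1.symm
    rw [e]
    unfold law
    rw [Measure.infinitePi_pi _ (fun i _ => measurableSet_singleton _), Finset.prod_singleton]
    simp only [if_neg hnp]
    rw [ProbabilityTheory.bernoulliMeasure_apply_of_mem_of_notMem q (measurableSet_singleton _)
      (by simp) (by simp)]
    rw [ENNReal.ofReal]
    norm_cast
    exact le_of_eq (by ext; simp [q.2.1])
  · have e : ES (iv x) v = ∅ := by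
      rw [Set.eq_empty_iff_forall_notMem]
      rintro ω ⟨h1, -⟩
      exact h h1
    rw [e, measure_empty]
    exact zero_le

/-- the independence of the three events -/
theorem mu_three {s : ℕ} (p q : unitInterval) (S : Finset (ℤ × ℤ)) {x : ℤ × ℤ} (hx : x ∈ S)
    {v : V s} (hv : v ∈ pn (iv x)) :
    law s p q (AS S ∩ (ES (iv x) v ∩ IS S v)) ≤
      law s p q (AS S) * (ENNReal.ofReal q * law s p q {ω | (cluster ω 0).Infinite}) := by
  classical
  have hd23 : Disjoint (T2 (iv x) v) (T3 (s := s) S) := by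
    rw [Set.disjoint_left]
    intro e he he3
    have he' : e.1 = s(iv x, v) := he
    exact he3 (iv x) (by rw [he']; exact Sym2.mem_mk_left _ _) ⟨x, hx, rfl⟩
  have hd1 : Disjoint (T1 (s := s) S) (T2 (iv x) v ∪ T3 (s := s) S) := by
    rw [Set.disjoint_left]
    rintro e ⟨x', hx', y', he⟩ he23
    rcases he23 with he2 | he3
    · have he' : e.1 = s(iv x, v) := he2
      rw [he'] at he
      have hv2 := pn_ne hv
      have h1 : v ∈ s((iv x' : V s), iv y') := by
        rw [← he]
        exact Sym2.mem_mk_right _ _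
      rcases Sym2.mem_iff.mp h1 with h2 | h2
      · exact hv2 (by rw [h2]; rfl)
      · exact hv2 (by rw [h2]; rfl)
    · exact he3 (iv x') (by rw [he]; exact Sym2.mem_mk_left _ _) ⟨x', hx', rfl⟩
  have hdep : DepOn (ES (iv x) v ∩ IS S v) (T2 (iv x) v ∪ T3 (s := s) S) := by
    intro ω ω' h
    refine and_congr ?_ ?_
    · exact dep_ES _ _ ω ω' fun c hc => h c (Or.inl hc)
    · exact dep_IS _ _ ω ω' fun c hc => h c (Or.inr hc)
  have h1 : law s p q (AS S ∩ (ES (iv x) v ∩ IS S v)) =
      law s p q (AS S) * law s p q (ES (iv x) v ∩ IS S v) := by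
    unfold law
    exact indep _ (dep_AS S) hdep hd1 (AS_meas S) ((ES_meas _ _).inter (IS_meas _ _))
  have h2 : law s p q (ES (iv x) v ∩ IS S v) =
      law s p q (ES (iv x) v) * law s p q (IS S v) := by
    unfold law
    exact indep _ (dep_ES _ _) (dep_IS S v) hd23 (ES_meas _ _) (IS_meas _ _)
  rw [h1, h2]
  have h3 : law s p q (IS S v) ≤ law s p q {ω | (cluster ω 0).Infinite} := by
    rw [← inf_eq p q v]
    apply measure_mono
    intro ω hω
    have h4 : (cl ω (iv '' (S : Set (ℤ × ℤ)))ᶜ v).Infinite := hω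
    have h5 := h4.mono (cl_mono ω (Set.subset_univ _) v)
    rw [cl_univ] at h5
    exact h5
  gcongr
  exact mu_ES p q hv

theorem card_meas {Ω W : Type} [MeasurableSpace Ω] [Countable W] (P : Ω → W → Prop)
    (h : ∀ v, MeasurableSet {ω | P ω v}) (k : ℕ) :
    MeasurableSet {ω | (k : ℕ∞) ≤ {v | P ω v}.encard} := by
  have e : {ω | (k : ℕ∞) ≤ {v | P ω v}.encard} =
      ⋃ F : {F : Finset W // F.card = k}, ⋂ v ∈ F.1, {ω | P ω v} := by
    ext ω
    simp only [Set.mem_iInter, Set.mem_iUnion, Set.mem_ofPred_eq]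
    constructor
    · intro hk
      obtain ⟨t, ht, htk⟩ := Set.exists_subset_encard_eq hk
      have hf : t.Finite := Set.finite_of_encard_eq_coe htk
      refine ⟨⟨hf.toFinset, ?_⟩, fun v hv => ht (hf.mem_toFinset.mp hv)⟩
      rw [← hf.coe_toFinset, Set.encard_coe_eq_coe_finsetCard] at htk
      exact_mod_cast htk
    · rintro ⟨F, hF⟩
      have h1 : ((F.1 : Finset W) : Set W) ⊆ {v | P ω v} := fun v hv => hF v hv
      have h2 := Set.encard_le_encard h1
      rw [Set.encard_coe_eq_coe_finsetCard, F.2] at h2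
      exact h2
  rw [e]
  exact MeasurableSet.iUnion fun F => Finset.measurableSet_biInter _ fun v _ => h v

theorem adj_meas2 (u v : ℤ × ℤ) : MeasurableSet {η : H974.sqLattice.edgeSet → Bool |
    (H974.openGraph η).Adj u v} := by
  by_cases huv : H974.sqLattice.Adj u v
  · have e : {η : H974.sqLattice.edgeSet → Bool | (H974.openGraph η).Adj u v} =
        (fun η : H974.sqLattice.edgeSet → Bool => η ⟨s(u, v), huv⟩) ⁻¹' {true} := by
      ext η
      constructor
      · intro h
        unfold H974.openGraph at h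
        rw [Set.mem_ofPred_eq, SimpleGraph.fromEdgeSet_adj] at h
        exact h.1.2
      · intro h
        unfold H974.openGraph
        rw [Set.mem_ofPred_eq, SimpleGraph.fromEdgeSet_adj]
        exact ⟨⟨huv, h⟩, huv.ne⟩
    rw [e]
    exact (measurable_pi_apply _) (measurableSet_singleton _)
  · have e : {η : H974.sqLattice.edgeSet → Bool | (H974.openGraph η).Adj u v} = ∅ := by
      rw [Set.eq_empty_iff_forall_notMem]
      intro η h
      unfold H974.openGraph at h
      rw [Set.mem_ofPred_eq, SimpleGraph.fromEdgeSet_adj] at h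
      exact huv h.1.1
    rw [e]
    exact MeasurableSet.empty

theorem encard_meas2 (k : ℕ) : MeasurableSet {η : H974.sqLattice.edgeSet → Bool |
      (k : ℕ∞) ≤ (H974.cluster0 η).encard} :=
  card_meas (fun η y => (H974.openGraph η).Reachable (0, 0) y)
    (fun y => reach_meas _ adj_meas2 (0, 0) y) k

/-- the measure of the infinite cluster -/
theorem rec_enn {s : ℕ} (p q : unitInterval) (n : ℕ) :
    law s p q {ω | (cluster ω 0).Infinite} ≤
      H974.bondLaw p {η | (n : ℕ∞) ≤ (H974.cluster0 η).encard} +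
      (∑ k ∈ Finset.Ico 1 n, H974.bondLaw p {η | (k : ℕ∞) ≤ (H974.cluster0 η).encard}) *
        (2 * s) * (ENNReal.ofReal q * law s p q {ω | (cluster ω 0).Infinite}) := by
  classical
  set θ := law s p q {ω | (cluster ω 0).Infinite} with hθ
  have hsub : {ω : (zd s).edgeSet → Bool | (cluster ω 0).Infinite} ⊆
      {ω | (n : ℕ∞) ≤ (H974.cluster0 (pr ω)).encard} ∪
      ⋃ S : Finset (ℤ × ℤ), {ω | S.card < n ∧ ω ∈ ⋃ x ∈ S, ⋃ v ∈ pn (iv x : V s),
        (AS S ∩ (ES (iv x) v ∩ IS S v))} := by
    intro ω hω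
    by_cases hn : (n : ℕ∞) ≤ (H974.cluster0 (pr ω)).encard
    · exact Or.inl hn
    · right
      rw [not_le] at hn
      have hfin : (H974.cluster0 (pr ω)).Finite := Set.encard_lt_top_iff.mp (hn.trans_le le_top)
      rw [mem_iUnion]
      refine ⟨hfin.toFinset, ?_, ?_⟩
      · rw [← hfin.coe_toFinset, Set.encard_coe_eq_coe_finsetCard] at hn
        exact_mod_cast hn
      · have hAS : ω ∈ AS hfin.toFinset := by
          show H974.cluster0 (pr ω) = ↑hfin.toFinset
          rw [hfin.coe_toFinset]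
        obtain ⟨x, hx, v, hv, h1, h2⟩ := exit_inf ω hfin.toFinset hAS hω
        simp only [mem_iUnion]
        exact ⟨x, hx, v, hv, hAS, h1, h2⟩
  have hm : ∀ k : ℕ, MeasurableSet {η : H974.sqLattice.edgeSet → Bool |
      (k : ℕ∞) ≤ (H974.cluster0 η).encard} := encard_meas2
  have hS : ∀ S : Finset (ℤ × ℤ), law s p q {ω | S.card < n ∧ ω ∈ ⋃ x ∈ S,
      ⋃ v ∈ pn (iv x : V s), (AS S ∩ (ES (iv x) v ∩ IS S v))} ≤
      (∑ k ∈ Finset.Ico 1 n, if k ≤ S.card then law s p q (AS S) else 0) *
        (2 * s) * (ENNReal.ofReal q * θ) := by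
    intro S
    by_cases hn : S.card < n
    · have e : {ω | S.card < n ∧ ω ∈ ⋃ x ∈ S,
          ⋃ v ∈ pn (iv x : V s), (AS S ∩ (ES (iv x) v ∩ IS S v))} = ⋃ x ∈ S,
          ⋃ v ∈ pn (iv x : V s), (AS S ∩ (ES (iv x) v ∩ IS S v)) := by
        ext ω
        exact ⟨fun h => h.2, fun h => ⟨hn, h⟩⟩
      rw [e]
      calc law s p q (⋃ x ∈ S, ⋃ v ∈ pn (iv x : V s), (AS S ∩ (ES (iv x) v ∩ IS S v)))
          ≤ ∑ x ∈ S, ∑ v ∈ pn (iv x : V s), law s p q (AS S ∩ (ES (iv x) v ∩ IS S v)) := by
            refine (measure_biUnion_finset_le _ _).trans (Finset.sum_le_sum fun x _ => ?_)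
            exact measure_biUnion_finset_le _ _
        _ ≤ ∑ x ∈ S, ∑ v ∈ pn (iv x : V s), law s p q (AS S) * (ENNReal.ofReal q * θ) :=
            Finset.sum_le_sum fun x hx => Finset.sum_le_sum fun v hv => mu_three p q S hx hv
        _ ≤ ∑ x ∈ S, (2 * s : ℝ≥0∞) * (law s p q (AS S) * (ENNReal.ofReal q * θ)) := by
            refine Finset.sum_le_sum fun x _ => ?_
            rw [Finset.sum_const, nsmul_eq_mul]
            gcongr
            exact_mod_cast card_pn (iv x : V s)
        _ = (S.card : ℝ≥0∞) * law s p q (AS S) * (2 * s) * (ENNReal.ofReal q * θ) := by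
            rw [Finset.sum_const, nsmul_eq_mul]
            ring
        _ ≤ _ := by
            gcongr
            have h1 : ∑ k ∈ Finset.Ico 1 n, (if k ≤ S.card then law s p q (AS S) else 0) =
                ∑ k ∈ Finset.Ico 1 (S.card + 1), law s p q (AS S) := by
              rw [← Finset.sum_filter]
              apply Finset.sum_congr _ fun _ _ => rfl
              ext k
              simp only [Finset.mem_filter, Finset.mem_Ico]
              omega
            rw [h1, Finset.sum_const, nsmul_eq_mul]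
            simp
    · have e : {ω | S.card < n ∧ ω ∈ ⋃ x ∈ S,
          ⋃ v ∈ pn (iv x : V s), (AS S ∩ (ES (iv x) v ∩ IS S v))} = ∅ := by
        rw [Set.eq_empty_iff_forall_notMem]
        intro ω h
        exact hn h.1
      rw [e, measure_empty]
      exact zero_le
  calc law s p q {ω | (cluster ω 0).Infinite}
      ≤ law s p q {ω | (n : ℕ∞) ≤ (H974.cluster0 (pr ω)).encard} +
        ∑' S : Finset (ℤ × ℤ), law s p q {ω | S.card < n ∧ ω ∈ ⋃ x ∈ S,
          ⋃ v ∈ pn (iv x : V s), (AS S ∩ (ES (iv x) v ∩ IS S v))} := by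
        refine (measure_mono hsub).trans ((measure_union_le _ _).trans ?_)
        gcongr
        exact measure_iUnion_le _
    _ ≤ H974.bondLaw p {η | (n : ℕ∞) ≤ (H974.cluster0 η).encard} +
        ∑' S : Finset (ℤ × ℤ), (∑ k ∈ Finset.Ico 1 n, if k ≤ S.card then
          law s p q (AS S) else 0) * (2 * s) * (ENNReal.ofReal q * θ) := by
        refine add_le_add ?_ (ENNReal.tsum_le_tsum hS)
        rw [← law_pr s p q, Measure.map_apply pr_meas (hm n)]
        rfl
    _ ≤ _ := by
        gcongr
        rw [ENNReal.tsum_mul_right, ENNReal.tsum_mul_right]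
        gcongr
        rw [Summable.tsum_finsetSum fun _ _ => ENNReal.summable]
        refine Finset.sum_le_sum fun k _ => ?_
        rw [← law_pr s p q, Measure.map_apply pr_meas (hm k)]
        have h1 : ∑' S : Finset (ℤ × ℤ), (if k ≤ S.card then law s p q (AS S) else 0) =
            ∑' S : Finset (ℤ × ℤ), law s p q {ω | k ≤ S.card ∧ ω ∈ AS S} := by
          refine tsum_congr fun S => ?_
          by_cases h : k ≤ S.card
          · rw [if_pos h]
            congr 1
            ext ω
            exact ⟨fun h' => ⟨h, h'⟩, fun h' => h'.2⟩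
          · rw [if_neg h]
            have e : {ω | k ≤ S.card ∧ ω ∈ AS (s := s) S} = ∅ := by
              rw [Set.eq_empty_iff_forall_notMem]
              intro ω h'
              exact h h'.1
            rw [e, measure_empty]
        rw [h1, ← measure_iUnion]
        · apply measure_mono
          intro ω hω
          rw [mem_iUnion] at hω
          obtain ⟨S, h2, h3⟩ := hω
          show (k : ℕ∞) ≤ (H974.cluster0 (pr ω)).encard
          have h4 : H974.cluster0 (pr ω) = ↑S := h3
          rw [h4, Set.encard_coe_eq_coe_finsetCard]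
          exact_mod_cast h2
        · intro S S' hne
          rw [Function.onFun, Set.disjoint_left]
          rintro ω ⟨-, h2⟩ ⟨-, h3⟩
          apply hne
          have h4 : H974.cluster0 (pr ω) = ↑S := h2
          have h5 : H974.cluster0 (pr ω) = ↑S' := h3
          rw [h4] at h5
          exact_mod_cast h5
        · intro S
          by_cases h : k ≤ S.card
          · convert AS_meas (s := s) S
            simp [h]
          · convert MeasurableSet.empty (α := (zd s).edgeSet → Bool)
            simp [h]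

/-- the recursion -/
theorem rec_real {s : ℕ} (p q : unitInterval) (n : ℕ) :
    theta s p q ≤ Pool.Agent.TH967.VT.tl p n +
      2 * s * q * (∑ k ∈ Finset.Ico 1 n, Pool.Agent.TH967.VT.tl p k) * theta s p q := by
  have h := rec_enn (s := s) p q n
  have hq : (0:ℝ) ≤ q := q.2.1
  have h1 : ∀ k : ℕ, H974.bondLaw p {η | (k : ℕ∞) ≤ (H974.cluster0 η).encard} =
      ENNReal.ofReal (Pool.Agent.TH967.VT.tl p k) := fun k =>
    (ofReal_measureReal (measure_ne_top _ _)).symm
  have h2 : law s p q {ω | (cluster ω 0).Infinite} = ENNReal.ofReal (theta s p q) :=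
    (ofReal_measureReal (measure_ne_top _ _)).symm
  have ht0 : ∀ k, 0 ≤ Pool.Agent.TH967.VT.tl p k := fun k => measureReal_nonneg
  have hth : 0 ≤ theta s p q := measureReal_nonneg
  simp only [h1, h2] at h
  rw [← ENNReal.ofReal_sum_of_nonneg fun k _ => ht0 k, ← ENNReal.ofReal_mul hq,
    show (2 * (s : ℝ≥0∞)) = ENNReal.ofReal (2 * s) by
      rw [ENNReal.ofReal_mul (by norm_num)]; simp,
    ← ENNReal.ofReal_mul (Finset.sum_nonneg fun k _ => ht0 k),
    ← ENNReal.ofReal_mul (by
      have := Finset.sum_nonneg fun k (_ : k ∈ Finset.Ico 1 n) => ht0 k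
      positivity),
    ← ENNReal.ofReal_add (ht0 n) (by
      have := Finset.sum_nonneg fun k (_ : k ∈ Finset.Ico 1 n) => ht0 k
      positivity)] at h
  have h3 := (ENNReal.ofReal_le_ofReal_iff (by
      have := Finset.sum_nonneg fun k (_ : k ∈ Finset.Ico 1 n) => ht0 k
      have := ht0 n
      positivity)).mp h
  refine h3.trans (le_of_eq ?_)
  ring

end Pool.Agent.TH987.AN
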