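import Pool.Agent.H974R2.Circ
import Pool.Agent.H160R2.CV.Defs

/-!
Dependent percolation of coarse edges with a high density.
-/

set_option autoImplicit false

namespace Pool.Agent.TH987.AN.Lay

open Finset H974 Pool.Agent.H160R2.CV

section coarse
variable {E : Type} [DecidableEq E]

/-- the hypotheses on the coarse edges -/
structure Cs (w : E → ℝ) (O : Edg → Finset E → Prop) (loc : Edg → Finset E) (η : ℝ) (r : ℕ) :
    Prop where
  loc' : ∀ e F, O e F ↔ O e (F ∩ loc e)
  far : ∀ e e' : Edg, (r:ℤ) ≤ |e.1 - e'.1| ∨ (r:ℤ) ≤ |e.2.1 - e'.2.1| →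
    Disjoint (loc e) (loc e')
  bound : ∀ e S, loc e ⊆ S → Pr w S (fun F => ¬ O e F) ≤ η

open scoped Classical in
/-- the open coarse edges of `B` -/
noncomputable def cg (O : Edg → Finset E → Prop) (B : Finset Edg) (F : Finset E) : Finset Edg :=
  B.filter (fun e => O e F)

variable {w : E → ℝ} {O : Edg → Finset E → Prop} {loc : Edg → Finset E} {η : ℝ} {r : ℕ}

omit [DecidableEq E] in
theorem mem_cg {B : Finset Edg} {F : Finset E} {e : Edg} : e ∈ cg O B F ↔ e ∈ B ∧ O e F := by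
  classical
  unfold cg
  rw [Finset.mem_filter]

/-- the edges which matter for a rectangle -/
noncomputable def LL (loc : Edg → Finset E) (a b c d : ℤ) : Finset E := (RE a b c d).biUnion loc

/-- horizontal crossing by open coarse edges -/
def LRo (O : Edg → Finset E → Prop) (a b c d : ℤ) (F : Finset E) : Prop :=
  LRc a b c d (cg O (RE a b c d) F)

/-- vertical crossing by open coarse edges -/
def TBo (O : Edg → Finset E → Prop) (a b c d : ℤ) (F : Finset E) : Prop :=
  TBc a b c d (cg O (RE a b c d) F)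

omit [DecidableEq E] in
theorem cg_inter {B B' : Finset Edg} (h : B' ⊆ B) (F : Finset E) :
    cg O B F ∩ B' = cg O B' F := by
  ext e
  rw [Finset.mem_inter, mem_cg, mem_cg]
  constructor
  · rintro ⟨⟨-, h1⟩, h2⟩
    exact ⟨h2, h1⟩
  · rintro ⟨h1, h2⟩
    exact ⟨⟨h h1, h2⟩, h1⟩

omit [DecidableEq E] in
theorem LRo_iff {a b c d : ℤ} {B : Finset Edg} (h : RE a b c d ⊆ B) {F : Finset E} :
    LRo O a b c d F ↔ LRc a b c d (cg O B F) := by
  unfold LRo
  rw [LRc_local (S := RE a b c d) LRE_subset_RE (F := cg O B F), cg_inter h]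

omit [DecidableEq E] in
theorem TBo_iff {a b c d : ℤ} {B : Finset Edg} (h : RE a b c d ⊆ B) {F : Finset E} :
    TBo O a b c d F ↔ TBc a b c d (cg O B F) := by
  unfold TBo
  rw [TBc_local (S := RE a b c d) TBE_subset_RE (F := cg O B F), cg_inter h]

theorem cg_loc (hC : Cs w O loc η r) {B : Finset Edg} {S : Finset E} (h : ∀ e ∈ B, loc e ⊆ S)
    (F : Finset E) : cg O B F = cg O B (F ∩ S) := by
  ext e
  rw [mem_cg, mem_cg]
  constructor
  · rintro ⟨h1, h2⟩
    refine ⟨h1, ?_⟩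
    rw [hC.loc', Finset.inter_assoc, Finset.inter_eq_right.mpr (h e h1), ← hC.loc']
    exact h2
  · rintro ⟨h1, h2⟩
    refine ⟨h1, ?_⟩
    rw [hC.loc', Finset.inter_assoc, Finset.inter_eq_right.mpr (h e h1), ← hC.loc'] at h2
    exact h2

theorem loc_sub_LL {a b c d : ℤ} {e : Edg} (h : e ∈ RE a b c d) : loc e ⊆ LL loc a b c d :=
  Finset.subset_biUnion_of_mem loc h

theorem LRo_loc (hC : Cs w O loc η r) {a b c d : ℤ} {S : Finset E} (h : LL loc a b c d ⊆ S)
    (F : Finset E) : LRo O a b c d F ↔ LRo O a b c d (F ∩ S) := by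
  unfold LRo
  rw [← cg_loc hC (fun e he => (loc_sub_LL he).trans h) F]

theorem TBo_loc (hC : Cs w O loc η r) {a b c d : ℤ} {S : Finset E} (h : LL loc a b c d ⊆ S)
    (F : Finset E) : TBo O a b c d F ↔ TBo O a b c d (F ∩ S) := by
  unfold TBo
  rw [← cg_loc hC (fun e he => (loc_sub_LL he).trans h) F]

/-- the probability of a local event does not depend on the ground set -/
theorem Pr_ground {S S' T : Finset E} (hS : T ⊆ S) (hS' : T ⊆ S') {A : Finset E → Prop}
    (hA : ∀ F, A F ↔ A (F ∩ T)) : Pr w S A = Pr w S' A := by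
  rw [Pr_local hS (fun F _ => hA F), Pr_local hS' (fun F _ => hA F)]

theorem Pr_ex_le (ok : Ok w) (S : Finset E) (A : ℕ → Finset E → Prop) (k : ℕ) :
    Pr w S (fun F => ∃ i, i < k ∧ A i F) ≤ ∑ i ∈ range k, Pr w S (A i) := by
  unfold Pr
  rw [← Ex_sum]
  apply Ex_mono ok
  intro F _
  by_cases h : ∃ i, i < k ∧ A i F
  · obtain ⟨i, hi, h1⟩ := h
    rw [ind_of ⟨i, hi, h1⟩]
    have h2 := Finset.single_le_sum (f := fun i => ind (A i F)) (fun i _ => ind_nonneg _)
      (Finset.mem_range.mpr hi)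
    rw [ind_of h1] at h2
    exact h2
  · rw [ind_not_of h]
    exact Finset.sum_nonneg fun _ _ => ind_nonneg _

theorem Pr_ex_le' (ok : Ok w) (S : Finset E) (A : ℕ → Finset E → Prop) (k : ℕ) {α : ℝ}
    (h : ∀ i, i < k → Pr w S (A i) ≤ α) :
    Pr w S (fun F => ∃ i, i < k ∧ A i F) ≤ k * α := by
  refine (Pr_ex_le ok S A k).trans ?_
  refine (Finset.sum_le_sum (fun i hi => h i (Finset.mem_range.mp hi))).trans ?_
  rw [Finset.sum_const, Finset.card_range, nsmul_eq_mul]

/-! ### the transposed model -/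

/-- the transposed model -/
def Ot (O : Edg → Finset E → Prop) (e : Edg) (F : Finset E) : Prop := O (e.2.1, e.1, !e.2.2) F

/-- the transposed model -/
def loct (loc : Edg → Finset E) (e : Edg) : Finset E := loc (e.2.1, e.1, !e.2.2)

theorem Cs.tr (hC : Cs w O loc η r) : Cs w (Ot O) (loct loc) η r where
  loc' := fun _ F => hC.loc' _ F
  far := fun _ _ h => hC.far _ _ h.symm
  bound := fun _ S h => hC.bound _ S h

theorem mem_RE_t {a b c d : ℤ} {e : Edg} :
    ((e.2.1, e.1, !e.2.2) : Edg) ∈ RE a b c d ↔ e ∈ RE c d a b := by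
  obtain ⟨x, y, _ | _⟩ := e
  · simp only [Bool.not_false, mem_RE_true, mem_RE_false]
    omega
  · simp only [Bool.not_true, mem_RE_true, mem_RE_false]
    omega

theorem LLt_sub {a b c d : ℤ} : LL (loct loc) c d a b ⊆ LL loc a b c d := by
  unfold LL
  rw [Finset.biUnion_subset]
  intro e he
  exact Finset.subset_biUnion_of_mem loc (mem_RE_t.mpr he)

omit [DecidableEq E] in
theorem LRo_t {a b c d : ℤ} {F : Finset E} : LRo (Ot O) c d a b F ↔ TBo O a b c d F := by
  unfold LRo TBo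
  rw [← LRc_tps_iff]
  have e : cg (Ot O) (RE c d a b) F = tps.mp (cg O (RE a b c d) F) := by
    ext e
    rw [mem_cg, LSym.mem_mp, mem_cg]
    have e1 : tps.φ.symm e = (e.2.1, e.1, !e.2.2) := rfl
    rw [e1, mem_RE_t]
    rfl
  rw [e]

/-! ### the recursion -/

/-- the probability that there is no crossing of a `2 n × n` rectangle is at most `α` -/
def AH (w : E → ℝ) (η : ℝ) (r n : ℕ) (α : ℝ) : Prop :=
  ∀ (O : Edg → Finset E → Prop) (loc : Edg → Finset E), Cs w O loc η r → ∀ (a c : ℤ)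
    (S : Finset E), LL loc a (a + 2 * n) c (c + n) ⊆ S →
    Pr w S (fun F => ¬ LRo O a (a + 2 * n) c (c + n) F) ≤ α

theorem AH_base (ok : Ok w) (η : ℝ) {r : ℕ} (hr : 1 ≤ r) : AH w η r r (2 * r * η) := by
  intro O loc hC a c S hS
  have h1 : Pr w S (fun F => ¬ LRo O a (a + 2 * r) c (c + r) F) ≤
      Pr w S (fun F => ∃ i : ℕ, i < 2 * r ∧ ¬ O (a + i, c, true) F) := by
    apply Pr_mono ok
    intro F _ hF
    by_contra hc
    push Not at hc
    apply hF
    unfold LRo
    have key : ∀ i : ℕ, i ≤ 2 * r → Reach (↑(cg O (RE a (a + 2 * r) c (c + r)) F) ∩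
        ↑(RE a (a + 2 * r) c (c + r))) (a, c) (a + i, c) := by
      intro i
      induction i with
      | zero => intro _; simp only [Nat.cast_zero, add_zero]; exact Reach.refl _ _
      | succ i ih =>
        intro hi
        have hm : ((a + i, c, true) : Edg) ∈ RE a (a + 2 * r) c (c + r) := by
          rw [mem_RE_true]
          omega
        refine (ih (by omega)).trans (Adj.reach ⟨(a + i, c, true), ⟨?_, ?_⟩, Or.inl ⟨rfl, ?_⟩⟩)
        · rw [Finset.mem_coe, mem_cg]
          exact ⟨hm, hc i (by omega)⟩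
        · exact hm
        · simp only [tgt_true, Nat.cast_add, Nat.cast_one]
          ring_nf
    have h2 := key (2 * r) le_rfl
    push_cast at h2
    exact LRc_of_reach (by omega) h2 rfl rfl
  refine h1.trans ?_
  have h2 := Pr_ex_le' ok S (fun i F => ¬ O (a + i, c, true) F) (2 * r) (α := η) (by
    intro i hi
    apply hC.bound
    refine subset_trans (loc_sub_LL ?_) hS
    rw [mem_RE_true]
    omega)
  push_cast at h2
  exact h2

theorem AH_sq (ok : Ok w) {n : ℕ} (hn : 1 ≤ n) {α : ℝ} (hA : AH w η r n α)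
    (hC : Cs w O loc η r) (a c : ℤ) {S : Finset E} (hS : LL loc a (a + n) c (c + n) ⊆ S) :
    Pr w S (fun F => ¬ TBo O a (a + n) c (c + n) F) ≤ α := by
  obtain ⟨S', hS'⟩ : ∃ S' : Finset E, S' = S ∪ LL loc a (a + n) c (c + 2 * n) := ⟨_, rfl⟩
  have e1 : Pr w S (fun F => ¬ TBo O a (a + n) c (c + n) F) =
      Pr w S' (fun F => ¬ TBo O a (a + n) c (c + n) F) := by
    apply Pr_ground (T := LL loc a (a + n) c (c + n)) hS
    · rw [hS']; exact hS.trans Finset.subset_union_left
    · intro F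
      rw [← TBo_loc hC subset_rfl]
  rw [e1]
  have h2 := hA (Ot O) (loct loc) hC.tr c a S' (by
    rw [hS']
    exact LLt_sub.trans Finset.subset_union_right)
  refine le_trans (Pr_mono ok ?_) h2
  intro F _ hF h3
  apply hF
  rw [LRo_t] at h3
  rw [TBo_iff (B := RE a (a + n) c (c + 2 * n)) (RE_subset le_rfl le_rfl le_rfl (by omega))]
  exact TBc_sub le_rfl (by omega) (by omega) le_rfl le_rfl h3

theorem AH_wide (ok : Ok w) {n : ℕ} (hn : 1 ≤ n) {α : ℝ} (hA : AH w η r n α)
    (hC : Cs w O loc η r) (a c : ℤ) {S : Finset E} (hS : LL loc a (a + 6 * n) c (c + n) ⊆ S) :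
    Pr w S (fun F => ¬ LRo O a (a + 6 * n) c (c + n) F) ≤ 9 * α := by
  have hn' : (1:ℤ) ≤ n := by exact_mod_cast hn
  have hRE : ∀ x y : ℤ, a ≤ x → y ≤ a + 6 * n →
      RE x y c (c + n) ⊆ RE a (a + 6 * n) c (c + n) :=
    fun x y h1 h2 => RE_subset h1 h2 le_rfl le_rfl
  have hLL : ∀ x y : ℤ, a ≤ x → y ≤ a + 6 * n → LL loc x y c (c + n) ⊆ S := fun x y h1 h2 =>
    (Finset.biUnion_subset_biUnion_of_subset_left loc (hRE x y h1 h2)).trans hS
  have h1 : Pr w S (fun F => ¬ LRo O a (a + 6 * n) c (c + n) F) ≤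
      Pr w S (fun F => (∃ i : ℕ, i < 5 ∧ ¬ LRo O (a + i * n) (a + i * n + 2 * n) c (c + n) F) ∨
        (∃ i : ℕ, i < 4 ∧ ¬ TBo O (a + (i + 1) * n) (a + (i + 1) * n + n) c (c + n) F)) := by
    apply Pr_mono ok
    intro F _ hF
    by_contra hc
    push Not at hc
    obtain ⟨hc1, hc2⟩ := hc
    apply hF
    unfold LRo
    have key : ∀ i : ℕ, i < 5 → LRc a (a + i * n + 2 * n) c (c + n)
        (cg O (RE a (a + 6 * n) c (c + n)) F) := by
      intro i
      induction i with
      | zero =>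
        intro _
        have h1 := hc1 0 (by norm_num)
        simp only [Nat.cast_zero, zero_mul, add_zero] at h1 ⊢
        rwa [LRo_iff (hRE _ _ le_rfl (by omega))] at h1
      | succ i ih =>
        intro hi
        have hi' : (i:ℤ) + 1 ≤ 4 := by omega
        have hi0 : (0:ℤ) ≤ i := by omega
        have k1 : ((i:ℤ) + 1) * n ≤ 4 * n := mul_le_mul_of_nonneg_right hi' (by omega)
        have k0 : 0 ≤ (i:ℤ) * n := mul_nonneg hi0 (by omega)
        have h1 := hc1 (i + 1) hi
        have h2 := hc2 i (by omega)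
        have h3 := ih (by omega)
        push_cast at h1 ⊢
        rw [LRo_iff (hRE _ _ (by nlinarith) (by linarith))] at h1
        rw [TBo_iff (hRE _ _ (by nlinarith) (by linarith))] at h2
        have e : a + ((i:ℤ) + 1) * n + n = a + i * n + 2 * n := by ring
        rw [e] at h2
        exact glue (by nlinarith) (by nlinarith) (by nlinarith) (by omega) h3 h1 h2
    have h2 := key 4 (by norm_num)
    have e : a + ((4:ℕ):ℤ) * n + 2 * n = a + 6 * n := by push_cast; ring
    rwa [e] at h2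
  refine h1.trans ((Pr_or_le ok _ _ _).trans ?_)
  have h2 := Pr_ex_le' ok S (fun i F => ¬ LRo O (a + i * n) (a + i * n + 2 * n) c (c + n) F) 5
    (α := α) (by
    intro i hi
    have hi' : (i:ℤ) ≤ 4 := by omega
    have hi0 : (0:ℤ) ≤ i := by omega
    have k1 : (i:ℤ) * n ≤ 4 * n := mul_le_mul_of_nonneg_right hi' (by omega)
    have k0 : 0 ≤ (i:ℤ) * n := mul_nonneg hi0 (by omega)
    apply hA O loc hC
    exact hLL _ _ (by linarith) (by linarith))
  have h3 := Pr_ex_le' ok S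
    (fun i F => ¬ TBo O (a + (i + 1) * n) (a + (i + 1) * n + n) c (c + n) F) 4
    (α := α) (by
    intro i hi
    have hi' : (i:ℤ) + 1 ≤ 4 := by omega
    have hi0 : (0:ℤ) ≤ i + 1 := by omega
    have k1 : ((i:ℤ) + 1) * n ≤ 4 * n := mul_le_mul_of_nonneg_right hi' (by omega)
    have k0 : 0 ≤ ((i:ℤ) + 1) * n := mul_nonneg hi0 (by omega)
    apply AH_sq ok hn hA hC
    exact hLL _ _ (by linarith) (by linarith))
  push_cast at h2 h3
  linarith

theorem AH_step (ok : Ok w) {n : ℕ} (hn : 1 ≤ n) (hr : r ≤ n) {α : ℝ} (hα : 0 ≤ α)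
    (hA : AH w η r n α) : AH w η r (2 * n + r) ((9 * α) ^ 2) := by
  intro O loc hC a c S hS
  have hn' : (1:ℤ) ≤ n := by exact_mod_cast hn
  have hr' : (r:ℤ) ≤ n := by exact_mod_cast hr
  obtain ⟨c2, hc2⟩ : ∃ c2 : ℤ, c2 = c + n + r := ⟨_, rfl⟩
  obtain ⟨T1, hT1⟩ : ∃ T1 : Finset E, T1 = LL loc a (a + 6 * n) c (c + n) := ⟨_, rfl⟩
  obtain ⟨T2, hT2⟩ : ∃ T2 : Finset E, T2 = LL loc a (a + 6 * n) c2 (c2 + n) := ⟨_, rfl⟩
  obtain ⟨S', hS'⟩ : ∃ S' : Finset E, S' = S ∪ (T1 ∪ T2) := ⟨_, rfl⟩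
  have t1 : T1 ⊆ S' := by
    rw [hS']; exact Finset.subset_union_left.trans Finset.subset_union_right
  have t2 : T2 ⊆ S' := by
    rw [hS']; exact Finset.subset_union_right.trans Finset.subset_union_right
  have hd : Disjoint T1 T2 := by
    rw [hT1, hT2]
    unfold LL
    rw [Finset.disjoint_biUnion_left]
    intro e he
    rw [Finset.disjoint_biUnion_right]
    intro e' he'
    apply hC.far
    right
    have h1 : e.2.1 ≤ c + n := by
      obtain ⟨x, y, _ | _⟩ := e
      · rw [mem_RE_false] at he; simp only; omega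
      · rw [mem_RE_true] at he; simp only; omega
    have h2 : c2 ≤ e'.2.1 := by
      obtain ⟨x, y, _ | _⟩ := e'
      · rw [mem_RE_false] at he'; simp only; omega
      · rw [mem_RE_true] at he'; simp only; omega
    have : (r:ℤ) ≤ e'.2.1 - e.2.1 := by omega
    rw [abs_sub_comm]
    exact this.trans (le_abs_self _)
  have e1 : Pr w S (fun F => ¬ LRo O a (a + 2 * ((2 * n + r : ℕ) : ℤ)) c
      (c + ((2 * n + r : ℕ) : ℤ)) F) = Pr w S' (fun F => ¬ LRo O a (a + 2 * ((2 * n + r : ℕ) : ℤ)) c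
      (c + ((2 * n + r : ℕ) : ℤ)) F) := by
    apply Pr_ground hS
    · rw [hS']; exact hS.trans Finset.subset_union_left
    · intro F
      rw [← LRo_loc hC subset_rfl]
  rw [e1]
  have h2 : Pr w S' (fun F => ¬ LRo O a (a + 2 * ((2 * n + r : ℕ) : ℤ)) c
      (c + ((2 * n + r : ℕ) : ℤ)) F) ≤ Pr w S' (fun F => ¬ LRo O a (a + 6 * n) c (c + n) F ∧
        ¬ LRo O a (a + 6 * n) c2 (c2 + n) F) := by
    apply Pr_mono ok
    intro F _ hF
    push_cast at hF
    constructor
    · intro h3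
      apply hF
      rw [LRo_iff (B := RE a (a + 6 * n) c (c + (2 * n + r)))
        (RE_subset le_rfl (by omega) le_rfl le_rfl)]
      rw [LRo_iff (B := RE a (a + 6 * n) c (c + (2 * n + r)))
        (RE_subset le_rfl le_rfl le_rfl (by omega))] at h3
      exact LRc_sub le_rfl (by omega) (by omega) le_rfl (by omega) h3
    · intro h3
      apply hF
      rw [LRo_iff (B := RE a (a + 6 * n) c (c + (2 * n + r)))
        (RE_subset le_rfl (by omega) le_rfl le_rfl)]
      rw [LRo_iff (B := RE a (a + 6 * n) c (c + (2 * n + r)))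
        (RE_subset le_rfl le_rfl (by omega) (by omega))] at h3
      exact LRc_sub le_rfl (by omega) (by omega) (by omega) (by omega) h3
  refine h2.trans ?_
  rw [Pr_indep t1 t2 hd]
  · have k1 := AH_wide ok hn hA hC a c (S := S') (hT1 ▸ t1)
    have k2 := AH_wide ok hn hA hC a c2 (S := S') (hT2 ▸ t2)
    rw [sq]
    exact mul_le_mul k1 k2 (Pr_nonneg ok _ _) (by positivity)
  · intro F _
    rw [← LRo_loc hC hT1.symm.subset]
  · intro F _
    rw [← LRo_loc hC hT2.symm.subset]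

/-- the scales -/
def nn (r : ℕ) : ℕ → ℕ
  | 0 => r
  | k + 1 => 2 * nn r k + r

theorem nn_ge {r : ℕ} (hr : 1 ≤ r) (k : ℕ) : r ≤ nn r k ∧ k + 1 ≤ nn r k := by
  induction k with
  | zero => exact ⟨le_rfl, hr⟩
  | succ k ih =>
    unfold nn
    omega

theorem AH_all (ok : Ok w) (hη : 0 ≤ η) {r : ℕ} (hr : 1 ≤ r) (h : 81 * (2 * r * η) ≤ 1 / 4) (k : ℕ) :
    ∃ α : ℝ, 0 ≤ α ∧ 81 * α ≤ (1 / 4) ^ (k + 1) ∧ AH w η r (nn r k) α := by
  induction k with
  | zero => exact ⟨2 * r * η, by positivity, by simpa using h, AH_base ok η hr⟩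
  | succ k ih =>
    obtain ⟨α, h0, h1, h2⟩ := ih
    refine ⟨(9 * α) ^ 2, sq_nonneg _, ?_, AH_step ok (by have := (nn_ge hr k).1; omega)
      (nn_ge hr k).1 h0 h2⟩
    have e : 81 * (9 * α) ^ 2 = (81 * α) * (81 * α) := by ring
    rw [e, pow_succ (1 / 4 : ℝ) (k + 1)]
    have h4 : (1 / 4 : ℝ) ^ (k + 1) ≤ 1 / 4 := by
      calc (1 / 4 : ℝ) ^ (k + 1) ≤ (1 / 4) ^ 1 :=
            pow_le_pow_of_le_one (by norm_num) (by norm_num) (by omega)
        _ = 1 / 4 := by norm_num
    exact mul_le_mul h1 (h1.trans h4) (by positivity) (by positivity)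

/-- the crossing at scale `k` -/
def Xk (O : Edg → Finset E → Prop) (r k : ℕ) (F : Finset E) : Prop :=
  if Even k then LRo O 0 (6 * (nn r k : ℤ)) 0 (nn r k) F
  else TBo O 0 (nn r k) 0 (6 * (nn r k : ℤ)) F

theorem Pr_Xk (ok : Ok w) (hη : 0 ≤ η) (hC : Cs w O loc η r) (hr : 1 ≤ r)
    (h : 81 * (2 * r * η) ≤ 1 / 4) (k : ℕ) {S : Finset E}
    (hS : LL loc 0 (6 * (nn r k : ℤ)) 0 (6 * (nn r k : ℤ)) ⊆ S) :
    Pr w S (fun F => ¬ Xk O r k F) ≤ (1 / 4) ^ (k + 1) := by
  obtain ⟨α, h0, h1, h2⟩ := AH_all ok hη hr h k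
  have hn := (nn_ge hr k).2
  have hα : 9 * α ≤ (1 / 4) ^ (k + 1) := by linarith
  unfold Xk
  by_cases hk : Even k
  · simp only [if_pos hk]
    have h3 := AH_wide ok (by omega) h2 hC 0 0 (S := S) (by
      refine subset_trans (Finset.biUnion_subset_biUnion_of_subset_left loc ?_) hS
      exact RE_subset le_rfl (by omega) le_rfl (by omega))
    simp only [zero_add] at h3
    exact h3.trans hα
  · simp only [if_neg hk]
    have h3 := AH_wide ok (by omega) h2 hC.tr 0 0 (S := S) (by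
      refine subset_trans LLt_sub (subset_trans
        (Finset.biUnion_subset_biUnion_of_subset_left loc ?_) hS)
      exact RE_subset le_rfl (by omega) le_rfl (by omega))
    simp only [zero_add] at h3
    refine le_trans (le_of_eq ?_) (h3.trans hα)
    apply Pr_congr
    intro F _
    rw [LRo_t]

/-- Percolation of the coarse edges. -/
theorem coarse (ok : Ok w) (hη : 0 ≤ η) (hC : Cs w O loc η r) (hr : 1 ≤ r)
    (h : 81 * (2 * r * η) ≤ 1 / 4) (N : ℕ) :
    ∃ S0 : Finset E, ∀ S, S0 ⊆ S → 1 / 2 ≤ Pr w S (fun F => ∃ y : ℤ, 0 ≤ y ∧ y ≤ r ∧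
      ∃ z : Vtx, N ≤ nv z ∧ Reach {e | O e F} (0, y) z) := by
  refine ⟨(range (N + 1)).biUnion (fun k => LL loc 0 (6 * (nn r k : ℤ)) 0 (6 * (nn r k : ℤ))),
    fun S hS => ?_⟩
  have h1 : Pr w S (fun F => ¬ ∃ y : ℤ, 0 ≤ y ∧ y ≤ r ∧
      ∃ z : Vtx, N ≤ nv z ∧ Reach {e | O e F} (0, y) z) ≤
      Pr w S (fun F => ∃ k, k < N + 1 ∧ ¬ Xk O r k F) := by
    apply Pr_mono ok
    intro F _ hF
    by_contra hc
    push Not at hc
    apply hF
    obtain ⟨G, hG⟩ : ∃ G : Set Edg, G = {e | O e F} := ⟨_, rfl⟩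
    have hsub : ∀ B : Finset Edg, (↑(cg O B F) : Set Edg) ⊆ G := by
      intro B e he
      rw [Finset.mem_coe, mem_cg] at he
      rw [hG]
      exact he.2
    -- the endpoints of the crossings
    have hex : ∀ k, ∃ uv : Vtx × Vtx, k ≤ N →
        ((Even k → (uv.1.1 = 0 ∧ (0 ≤ uv.1.2 ∧ uv.1.2 ≤ nn r k)) ∧
          uv.2.1 = 6 * (nn r k : ℤ) ∧
          Reach (G ∩ ↑(RE 0 (6 * (nn r k : ℤ)) 0 (nn r k))) uv.1 uv.2) ∧
        (¬ Even k → uv.1.2 = 0 ∧ uv.2.2 = 6 * (nn r k : ℤ) ∧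
          Reach (G ∩ ↑(RE 0 (nn r k) 0 (6 * (nn r k : ℤ)))) uv.1 uv.2)) := by
      intro k
      by_cases hk : k ≤ N
      · have h2 := hc k (by omega)
        unfold Xk at h2
        by_cases hev : Even k
        · rw [if_pos hev] at h2
          obtain ⟨y, y', h3, h4, h5⟩ := h2
          refine ⟨((0, y), (6 * (nn r k : ℤ), y')), fun _ => ⟨fun _ => ⟨⟨rfl, h3⟩, rfl, ?_⟩,
            fun h => absurd hev h⟩⟩
          refine h5.mono (Set.inter_subset_inter (hsub _) ?_)
          exact_mod_cast LRE_subset_RE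
        · rw [if_neg hev] at h2
          obtain ⟨y, y', h3, h4, h5⟩ := h2
          refine ⟨((y, 0), (y', 6 * (nn r k : ℤ))), fun _ => ⟨fun h => absurd h hev,
            fun _ => ⟨rfl, rfl, ?_⟩⟩⟩
          refine h5.mono (Set.inter_subset_inter (hsub _) ?_)
          exact_mod_cast TBE_subset_RE
      · exact ⟨((0, 0), (0, 0)), fun h => absurd h hk⟩
    choose uv huv using hex
    have hstep : ∀ k, k + 1 ≤ N → Reach G (uv k).1 (uv (k + 1)).1 := by
      intro k hk
      have hn := nn_ge hr k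
      have hn' : (1:ℤ) ≤ nn r k := by omega
      have hsucc : nn r (k + 1) = 2 * nn r k + r := rfl
      have hle : (nn r (k + 1) : ℤ) ≤ 3 * nn r k := by rw [hsucc]; push_cast; omega
      have hge : (nn r k : ℤ) ≤ nn r (k + 1) := by rw [hsucc]; push_cast; omega
      by_cases hev : Even k
      · have hev' : ¬ Even (k + 1) := by
          rw [Nat.even_add_one]
          exact not_not.mpr hev
        obtain ⟨⟨a1, a2⟩, a3, a4⟩ := (huv k (by omega)).1 hev
        obtain ⟨b1, b2, b3⟩ := (huv (k + 1) hk).2 hev'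
        exact (cross_meet (F := G) (A := 0) (B := 6 * (nn r k : ℤ)) (C := 0)
          (D := 6 * (nn r (k + 1) : ℤ)) (a := 0) (b := nn r (k + 1)) (c := 0) (d := nn r k)
          le_rfl (by omega) (by omega) le_rfl (by omega) (by omega) a4 (by omega) (by omega)
          b3 (by omega) (by omega)).mono Set.inter_subset_left
      · have hev' : Even (k + 1) := by
          rw [Nat.even_add_one]
          exact hev
        obtain ⟨b1, b2, b3⟩ := (huv k (by omega)).2 hev
        obtain ⟨⟨a1, a2⟩, a3, a4⟩ := (huv (k + 1) hk).1 hev'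
        exact ((cross_meet (F := G) (A := 0) (B := 6 * (nn r (k + 1) : ℤ)) (C := 0)
          (D := 6 * (nn r k : ℤ)) (a := 0) (b := nn r k) (c := 0) (d := nn r (k + 1))
          le_rfl (by omega) (by omega) le_rfl (by omega) (by omega) a4 (by omega) (by omega)
          b3 (by omega) (by omega)).mono Set.inter_subset_left).symm
    have hall : ∀ k, k ≤ N → Reach G (uv 0).1 (uv k).1 := by
      intro k
      induction k with
      | zero => intro _; exact Reach.refl _ _
      | succ k ih =>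
        intro hk
        exact (ih (by omega)).trans (hstep k hk)
    obtain ⟨⟨a1, a2⟩, -, -⟩ := (huv 0 (by omega)).1 Even.zero
    have e0 : (uv 0).1 = (0, (uv 0).1.2) := Prod.ext a1 rfl
    have hN := (nn_ge hr N).2
    refine ⟨(uv 0).1.2, a2.1, a2.2, (uv N).2, ?_, ?_⟩
    · by_cases hev : Even N
      · obtain ⟨-, a3, -⟩ := (huv N le_rfl).1 hev
        unfold nv
        rw [a3]
        omega
      · obtain ⟨-, a3, -⟩ := (huv N le_rfl).2 hev
        unfold nv
        rw [a3]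
        omega
    · rw [← hG, ← e0]
      refine (hall N le_rfl).trans ?_
      by_cases hev : Even N
      · exact ((huv N le_rfl).1 hev).2.2.mono Set.inter_subset_left
      · exact ((huv N le_rfl).2 hev).2.2.mono Set.inter_subset_left
  have h2 := Pr_ex_le ok S (fun k F => ¬ Xk O r k F) (N + 1)
  have h3 : ∑ k ∈ range (N + 1), Pr w S (fun F => ¬ Xk O r k F) ≤
      ∑ k ∈ range (N + 1), (1 / 4 : ℝ) ^ (k + 1) := by
    apply Finset.sum_le_sum
    intro k hk
    apply Pr_Xk ok hη hC hr h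
    exact (Finset.subset_biUnion_of_mem
      (fun k => LL loc 0 (6 * (nn r k : ℤ)) 0 (6 * (nn r k : ℤ))) hk).trans hS
  have h4 : ∀ M : ℕ, ∑ k ∈ range M, (1 / 4 : ℝ) ^ (k + 1) ≤ 1 / 3 * (1 - (1 / 4) ^ M) := by
    intro M
    induction M with
    | zero => simp
    | succ M ih =>
      rw [Finset.sum_range_succ]
      have : (1 / 4 : ℝ) ^ (M + 1) = 1 / 4 * (1 / 4) ^ M := by rw [pow_succ]; ring
      rw [this]
      linarith
  have h5 := h4 (N + 1)
  have h6 : (0:ℝ) ≤ (1 / 4) ^ (N + 1) := by positivity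
  rw [Pr_not] at h1
  linarith

end coarse

end Pool.Agent.TH987.AN.Lay
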