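import Pool.Agent.TH987.AN.Tower

/-!
Towers at many scales.
-/

set_option autoImplicit false

namespace Pool.Agent.TH987.AN.Lay

open Finset H974 Pool.Agent.H160R2.CV H362P
open Pool.Agent.H160R2.CV.Quad Pool.Agent.TH967.VT

/-- the circuits of one layer of a tower are connected to each other -/
theorem TL_conn {y : Vtx} {m : ℕ} (hm : 1 ≤ m) {G : Finset Edg} (h : TL y m G) :
    ∃ z z' : Vtx, (∀ u v : Vtx, nv (u - y) ≤ 16 * m → 32 * m ≤ nv (v - y) →
        Reach (↑G : Set Edg) u v → Reach (↑G : Set Edg) u z) ∧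
      (∀ v ∈ Bc (yc y m) m, Hv (yc y m) m v G → Reach (↑G : Set Edg) v z') ∧
      Reach (↑G : Set Edg) z z' := by
  obtain ⟨⟨h1, h2⟩, h3⟩ := h
  obtain ⟨z', hz'⟩ := CA_meet (by omega) (CA_of_Ci h1)
  obtain ⟨z, hz⟩ := CA_meet (by omega) (CA_of_Ci h3)
  obtain ⟨t, t', ht, ht', hr⟩ := h2
  have hm0 : (1:ℤ) ≤ m := by exact_mod_cast hm
  -- the strip passes near `yc`
  obtain ⟨y1, y2, k1, k2, k3, k4⟩ := sub_LR
    (G := (↑G : Set Edg) ∩ ↑(LRE (y.1 + 7 * m) (y.1 + 32 * m) (y.2 - m) (y.2 + m)))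
    (a := y.1 + 10 * m) (b := y.1 + 32 * m) (c := y.2 - m) (d := y.2 + m) (by omega)
    (by
      rintro x w ⟨-, hw⟩ _ _
      rw [Finset.mem_coe, mem_LRE_true] at hw
      omega)
    (by
      rintro x w ⟨-, hw⟩ _ _
      rw [Finset.mem_coe, mem_LRE_false] at hw
      omega) hr (by simp only; omega) (by simp only; omega)
  have k4' : Reach (↑G : Set Edg) (y.1 + 7 * m, t) (y.1 + 10 * m, y1) :=
    k4.mono Set.inter_subset_left
  have hr' : Reach (↑G : Set Edg) (y.1 + 7 * m, t) (y.1 + 32 * m, t') :=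
    hr.mono Set.inter_subset_left
  have e1 : Reach (↑G : Set Edg) (y.1 + 7 * m, t) z := by
    apply hz _ (y.1 + 32 * m, t') _ _ hr'
    · unfold nv
      simp only [Prod.fst_sub, Prod.snd_sub]
      omega
    · unfold nv
      simp only [Prod.fst_sub, Prod.snd_sub]
      omega
  have e2 : Reach (↑G : Set Edg) (y.1 + 10 * m, y1) z' := by
    apply hz' _ (y.1 + 32 * m, t') _ _ (k4'.symm.trans hr')
    · unfold nv yc
      simp only [Prod.fst_sub, Prod.snd_sub]
      omega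
    · unfold nv yc
      simp only [Prod.fst_sub, Prod.snd_sub]
      omega
  refine ⟨z, z', fun u v hu hv => hz u v hu (by omega), ?_, e1.symm.trans (k4'.trans e2)⟩
  intro v hv hH
  obtain ⟨w, hw, hr2⟩ := hH v (Finset.mem_singleton_self v)
  rw [mem_Bc] at hv
  unfold Ou at hw
  exact hz' v w hv (by omega) hr2

/-- a tower connects all layers -/
theorem T0_conn {K m : ℕ} (hm : 1 ≤ m) {y : Vtx} {F : Finset E3} (h : T0 K m y F) {i j : ℕ}
    (hi : i ≤ K) (hj : j ≤ K) {u v : Vtx} (hu : 32 * m ≤ nv (u - y)) (hv : 32 * m ≤ nv (v - y))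
    (hru : Reach (↑(sl i F) : Set Edg) y u) (hrv : Reach (↑(sl j F) : Set Edg) y v) :
    R3 (↑F : Set E3) (i, y) (j, y) := by
  classical
  by_cases hij : i = j
  · subst hij
    exact R3.refl _ _
  have hK : 0 < K := by omega
  have hTL : ∀ j, j ≤ K → TL y m (sl j F) := by
    intro j hj
    rcases Nat.lt_or_ge j K with h1 | h1
    · exact (h j h1).1.1
    · have e : j = (K - 1) + 1 := by omega
      rw [e]
      exact (h (K - 1) (by omega)).1.2
  have hex : ∀ j, ∃ zz : Vtx × Vtx, j ≤ K → (∀ u v : Vtx, nv (u - y) ≤ 16 * m →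
      32 * m ≤ nv (v - y) → Reach (↑(sl j F) : Set Edg) u v →
        Reach (↑(sl j F) : Set Edg) u zz.1) ∧
      (∀ v ∈ Bc (yc y m) m, Hv (yc y m) m v (sl j F) → Reach (↑(sl j F) : Set Edg) v zz.2) ∧
      Reach (↑(sl j F) : Set Edg) zz.1 zz.2 := by
    intro j
    by_cases hj : j ≤ K
    · obtain ⟨z, z', h1⟩ := TL_conn hm (hTL j hj)
      exact ⟨(z, z'), fun _ => h1⟩
    · exact ⟨(y, y), fun h1 => absurd h1 hj⟩
  choose zz hzz using hex
  have hstep : ∀ j, j < K → R3 (↑F : Set E3) (j, (zz j).1) (j + 1, (zz (j + 1)).1) := by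
    intro j hj
    obtain ⟨-, v, hv, h1, h2, h3⟩ := h j hj
    obtain ⟨-, a1, a2⟩ := hzz j hj.le
    obtain ⟨-, b1, b2⟩ := hzz (j + 1) hj
    refine (R3_of_layer a2).trans ((R3_of_layer (a1 v hv h1).symm).trans ?_)
    refine (R3_vert h3).trans ((R3_of_layer (b1 v hv h2)).trans (R3_of_layer b2.symm))
  have hall : ∀ j, j ≤ K → R3 (↑F : Set E3) (0, (zz 0).1) (j, (zz j).1) := by
    intro j
    induction j with
    | zero => intro _; exact R3.refl _ _
    | succ j ih =>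
      intro hj
      exact (ih (by omega)).trans (hstep j (by omega))
  have y0 : nv (y - y) ≤ 16 * m := by rw [sub_self]; unfold nv; simp
  have c1 := R3_of_layer ((hzz i hi).1 y u y0 hu hru)
  have c2 := R3_of_layer ((hzz j hj).1 y v y0 hv hrv)
  exact c1.trans ((hall i hi).symm.trans ((hall j hj).trans c2.symm))

/-- there is a tower around `y` at one of the scales `l, 16 l, …, 16^(n-1) l` -/
def Cov (K l n : ℕ) (y : Vtx) (F : Finset E3) : Prop := ∃ k, k < n ∧ Tw K (16 ^ k * l) y F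

theorem Cov_incr (S : Finset E3) (K l n : ℕ) (y : Vtx) : IncrE S (Cov K l n y) := by
  intro F G h hG hF
  obtain ⟨k, hk, h1⟩ := hF
  exact ⟨k, hk, Tw_incr S K _ y F G h hG h1⟩

theorem An3_disj {K l : ℕ} (hl : 1 ≤ l) {y : Vtx} {k k' : ℕ} (h : k < k') :
    Disjoint (An3 K (16 ^ k * l) y) (An3 K (16 ^ k' * l) y) := by
  have hm : 16 * (16 ^ k * l) ≤ 16 ^ k' * l := by
    have : 16 ^ (k + 1) ≤ 16 ^ k' := Nat.pow_le_pow_right (by norm_num) h
    calc 16 * (16 ^ k * l) = 16 ^ (k + 1) * l := by ring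
      _ ≤ _ := Nat.mul_le_mul_right _ this
  have hm1 : 1 ≤ 16 ^ k * l := Nat.mul_pos (by positivity) hl
  obtain ⟨m, hmm⟩ : ∃ m, m = 16 ^ k * l := ⟨_, rfl⟩
  obtain ⟨m', hmm'⟩ : ∃ m', m' = 16 ^ k' * l := ⟨_, rfl⟩
  rw [← hmm] at hm hm1 ⊢
  rw [← hmm'] at hm ⊢
  rw [Finset.disjoint_left]
  rintro (⟨j, e⟩ | ⟨j, v⟩) h1 h2
  · rw [inl_mem_An3] at h1 h2
    obtain ⟨-, h1⟩ := h1
    obtain ⟨-, h2⟩ := h2
    obtain ⟨x, z, _ | _⟩ := e
    · simp only [An, bo, Finset.mem_sdiff, mem_RE_false] at h1 h2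
      push_cast at h1 h2
      omega
    · simp only [An, bo, Finset.mem_sdiff, mem_RE_true] at h1 h2
      push_cast at h1 h2
      omega
  · rw [inr_mem_An3, mem_Bc] at h1 h2
    obtain ⟨-, h1⟩ := h1
    obtain ⟨-, h2⟩ := h2
    unfold nv yc at h1 h2
    simp only [Prod.fst_sub, Prod.snd_sub] at h1 h2
    omega

/-- with high probability there is a tower -/
theorem pr_not_Cov {p q κ a K0 : ℝ} {N : ℕ} (hW : H12S.Win p κ N) (hp : p ≤ 1 / 2) (hq0 : 0 ≤ q)
    (hq1 : q ≤ 1) (ha : 0 < a) (hK1 : 1 ≤ K0) {l : ℕ} (hl : 1 ≤ l)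
    (hK : ∀ n, ArmUp (1 / 2) K0 n) {n : ℕ}
    (hlow : ∀ m : ℕ, 1 ≤ m → 16 * m ≤ N → a * (m : ℝ) ^ (-(5 / 48 : ℝ)) ≤ arm p (8 * m))
    (hmN : 16 ^ n * l ≤ N) (hqm : 1 ≤ q * (l : ℝ) ^ (43 / 24 : ℝ)) {K : ℕ} {y : Vtx}
    {S : Finset E3} (hS : ∀ k, k < n → An3 K (16 ^ k * l) y ⊆ S) :
    Pr (wt p q) S (fun F => ¬ Cov K l n y F) ≤ (1 - dT κ a K0 ^ K) ^ n := by
  have h0 : 0 ≤ p := by linarith [hW.lo]
  have h1 : p ≤ 1 := by linarith [hW.hi]
  have ok := ok3 h0 h1 hq0 hq1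
  have e1 : Pr (wt p q) S (fun F => ¬ Cov K l n y F) =
      Ex (wt p q) S (fun F => ∏ k ∈ range n, ind (¬ Tw K (16 ^ k * l) y F)) := by
    apply Ex_congr
    intro F _
    by_cases h : Cov K l n y F
    · rw [ind_not_of (not_not.mpr h)]
      obtain ⟨k, hk, h2⟩ := h
      symm
      apply Finset.prod_eq_zero (Finset.mem_range.mpr hk)
      exact ind_not_of (not_not.mpr h2)
    · rw [ind_of h]
      symm
      apply Finset.prod_eq_one
      intro k hk
      apply ind_of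
      intro h2
      exact h ⟨k, Finset.mem_range.mp hk, h2⟩
  rw [e1, Ex_prod_indep (range n) (fun k => An3 K (16 ^ k * l) y)]
  · have h3 : ∀ k ∈ range n, Ex (wt p q) S (fun F => ind (¬ Tw K (16 ^ k * l) y F)) ≤
        1 - dT κ a K0 ^ K := by
      intro k hk
      rw [Finset.mem_range] at hk
      have hk16 : 16 * (16 ^ k * l) ≤ N := by
        refine le_trans ?_ hmN
        have : 16 ^ (k + 1) ≤ 16 ^ n := Nat.pow_le_pow_right (by norm_num) hk
        calc 16 * (16 ^ k * l) = 16 ^ (k + 1) * l := by ring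
          _ ≤ _ := Nat.mul_le_mul_right _ this
      have hm1 : 1 ≤ 16 ^ k * l := Nat.mul_pos (by positivity) hl
      have hlm : (l:ℝ) ≤ ((16 ^ k * l : ℕ) : ℝ) := by
        have : l ≤ 16 ^ k * l := Nat.le_mul_of_pos_left _ (by positivity)
        exact_mod_cast this
      have hqm' : 1 ≤ q * ((16 ^ k * l : ℕ) : ℝ) ^ (43 / 24 : ℝ) := by
        refine hqm.trans (mul_le_mul_of_nonneg_left ?_ hq0)
        exact Real.rpow_le_rpow (Nat.cast_nonneg l) hlm (by norm_num)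
      have h4 := pr_Tw hW hp hq0 hq1 ha hK1 hm1 (hK _) (hlow _ hm1 hk16) hk16 hqm' (K := K)
        (y := y) (hS k hk)
      have h5 : Ex (wt p q) S (fun F => ind (¬ Tw K (16 ^ k * l) y F)) =
          1 - Pr (wt p q) S (Tw K (16 ^ k * l) y) := Pr_not S _
      rw [h5]
      linarith
    refine (Finset.prod_le_prod (fun k _ => ?_) h3).trans ?_
    · exact Ex_nonneg ok (fun F _ => ind_nonneg _)
    · rw [Finset.prod_const, Finset.card_range]
  · intro k hk
    exact hS k (Finset.mem_range.mp hk)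
  · intro k _ k' _ hne
    rcases Nat.lt_or_gt_of_ne hne with h | h
    · exact An3_disj hl h
    · exact (An3_disj hl h).symm
  · intro k _ F
    apply ind_congr
    unfold Tw
    rw [Finset.inter_assoc, Finset.inter_self]

end Pool.Agent.TH987.AN.Lay
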