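import Pool.Agent.TH967.VT.Low

/-!
Layers: the edges of `ℤ² × ℕ`.
-/

set_option autoImplicit false

namespace Pool.Agent.TH987.AN.Lay

open Finset H974 Pool.Agent.H160R2.CV H362P
open Pool.Agent.H160R2.CV.Quad Pool.Agent.TH967.VT

/-- the edges: `inl (j, e)` is the edge `e` of the layer `j`, and `inr (j, v)` joins the vertices
`v` of the layers `j` and `j + 1` -/
abbrev E3 := (ℕ × Edg) ⊕ (ℕ × Vtx)

/-- the probabilities -/
def wt (p q : ℝ) : E3 → ℝ
  | Sum.inl _ => p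
  | Sum.inr _ => q

theorem ok3 {p q : ℝ} (hp0 : 0 ≤ p) (hp1 : p ≤ 1) (hq0 : 0 ≤ q) (hq1 : q ≤ 1) :
    Ok (wt p q) := by
  rintro (e | e)
  · exact ⟨hp0, hp1⟩
  · exact ⟨hq0, hq1⟩

/-- the edges of the layer `j` -/
def il (j : ℕ) : Edg ↪ E3 := ⟨fun e => Sum.inl (j, e), fun a b h => by
  have := Sum.inl.inj h
  exact (Prod.mk.inj this).2⟩

/-- the part in the layer `j` -/
noncomputable def sl (j : ℕ) (F : Finset E3) : Finset Edg :=
  F.preimage (il j) (il j).injective.injOn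

theorem mem_sl {j : ℕ} {F : Finset E3} {e : Edg} : e ∈ sl j F ↔ (Sum.inl (j, e) : E3) ∈ F := by
  unfold sl
  rw [Finset.mem_preimage]
  rfl

theorem sl_mono {j : ℕ} {F G : Finset E3} (h : F ⊆ G) : sl j F ⊆ sl j G := by
  intro e he
  rw [mem_sl] at he ⊢
  exact h he

theorem sl_inter {j : ℕ} (F G : Finset E3) : sl j (F ∩ G) = sl j F ∩ sl j G := by
  ext e
  rw [mem_sl, Finset.mem_inter, Finset.mem_inter, mem_sl, mem_sl]

theorem sl_union {j : ℕ} (F G : Finset E3) : sl j (F ∪ G) = sl j F ∪ sl j G := by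
  ext e
  rw [mem_sl, Finset.mem_union, Finset.mem_union, mem_sl, mem_sl]

/-- a set of edges in the layer `j` -/
def lay (j : ℕ) (S : Finset Edg) : Finset E3 := S.map (il j)

theorem mem_lay {j : ℕ} {S : Finset Edg} {x : E3} :
    x ∈ lay j S ↔ ∃ e ∈ S, (Sum.inl (j, e) : E3) = x := by
  unfold lay
  rw [Finset.mem_map]
  rfl

theorem inl_mem_lay {i j : ℕ} {S : Finset Edg} {e : Edg} :
    (Sum.inl (i, e) : E3) ∈ lay j S ↔ i = j ∧ e ∈ S := by
  rw [mem_lay]
  constructor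
  · rintro ⟨e', he', h⟩
    have := Prod.mk.inj (Sum.inl.inj h)
    exact ⟨this.1.symm, this.2 ▸ he'⟩
  · rintro ⟨rfl, h⟩
    exact ⟨e, h, rfl⟩

theorem inr_mem_lay {i j : ℕ} {S : Finset Edg} {v : Vtx} :
    ¬ (Sum.inr (i, v) : E3) ∈ lay j S := by
  rw [mem_lay]
  rintro ⟨e', -, h⟩
  cases h

theorem sl_lay (j : ℕ) (S : Finset Edg) : sl j (lay j S) = S := by
  ext e
  rw [mem_sl, inl_mem_lay]
  simp

theorem sl_lay_ne {i j : ℕ} (h : i ≠ j) (S : Finset Edg) : sl i (lay j S) = ∅ := by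
  ext e
  rw [mem_sl, inl_mem_lay]
  simp [h]

theorem lay_disj {i j : ℕ} (h : i ≠ j) (S T : Finset Edg) : Disjoint (lay i S) (lay j T) := by
  rw [Finset.disjoint_left]
  intro x hx hy
  rw [mem_lay] at hx
  obtain ⟨e, -, rfl⟩ := hx
  rw [inl_mem_lay] at hy
  exact h hy.1

theorem lay_sl_sub (j : ℕ) (S : Finset E3) : lay j (sl j S) ⊆ S := by
  intro x hx
  rw [mem_lay] at hx
  obtain ⟨e, he, rfl⟩ := hx
  exact mem_sl.mp he

/-- functions of one layer only look at this layer -/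
theorem sl_loc {j : ℕ} {S : Finset E3} {α : Type} (f : Finset Edg → α) (F : Finset E3)
    (hF : F ⊆ S) : f (sl j F) = f (sl j (F ∩ lay j (sl j S))) := by
  rw [sl_inter, sl_lay]
  congr 1
  rw [Finset.inter_eq_left.mpr (sl_mono hF)]

theorem Ex_sl (p q : ℝ) (S : Finset E3) (j : ℕ) (f : Finset Edg → ℝ) :
    Ex (wt p q) S (fun F => f (sl j F)) = Ex (fun _ => p) (sl j S) f := by
  rw [Ex_local (lay_sl_sub j S) (fun F hF => sl_loc f F hF)]
  unfold lay
  rw [Ex_map]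
  apply Ex_congr
  intro F _
  congr 1
  exact sl_lay j F

theorem Pr_sl (p q : ℝ) (S : Finset E3) (j : ℕ) (A : Finset Edg → Prop) :
    Pr (wt p q) S (fun F => A (sl j F)) = Pr (fun _ => p) (sl j S) A :=
  Ex_sl p q S j (fun F => ind (A F))

/-- different layers are independent -/
theorem Ex_sl_mul (p q : ℝ) (S : Finset E3) {i j : ℕ} (h : i ≠ j) (f g : Finset Edg → ℝ) :
    Ex (wt p q) S (fun F => f (sl i F) * g (sl j F)) =
      Ex (fun _ => p) (sl i S) f * Ex (fun _ => p) (sl j S) g := by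
  rw [Ex_mul_indep (lay_sl_sub i S) (lay_sl_sub j S) (lay_disj h _ _)
    (fun F hF => sl_loc f F hF) (fun F hF => sl_loc g F hF), Ex_sl, Ex_sl]

theorem Ex_sl_mul3 (p q : ℝ) (S : Finset E3) {i j : ℕ} (h : i ≠ j) (f g : Finset Edg → ℝ)
    (V : Finset E3) (hV : V ⊆ S) (hVr : ∀ x ∈ V, ∃ y, x = Sum.inr y) (k : Finset E3 → ℝ)
    (hk : ∀ F, k F = k (F ∩ V)) :
    Ex (wt p q) S (fun F => f (sl i F) * g (sl j F) * k F) =
      Ex (fun _ => p) (sl i S) f * Ex (fun _ => p) (sl j S) g * Ex (wt p q) S k := by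
  have hd : Disjoint (lay i (sl i S) ∪ lay j (sl j S)) V := by
    rw [Finset.disjoint_left]
    intro x hx hxV
    obtain ⟨y, rfl⟩ := hVr x hxV
    rw [Finset.mem_union] at hx
    rcases hx with hx | hx
    · exact inr_mem_lay (i := y.1) (v := y.2) hx
    · exact inr_mem_lay (i := y.1) (v := y.2) hx
  rw [Ex_mul_indep (S := lay i (sl i S) ∪ lay j (sl j S)) (T := V)
    (Finset.union_subset (lay_sl_sub i S) (lay_sl_sub j S)) hV hd, Ex_sl_mul p q S h]
  · intro F hF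
    have e1 : sl i (F ∩ (lay i (sl i S) ∪ lay j (sl j S))) = sl i F := by
      rw [sl_inter, sl_union, sl_lay, sl_lay_ne h, Finset.union_empty,
        Finset.inter_eq_left.mpr (sl_mono hF)]
    have e2 : sl j (F ∩ (lay i (sl i S) ∪ lay j (sl j S))) = sl j F := by
      rw [sl_inter, sl_union, sl_lay, sl_lay_ne h.symm, Finset.empty_union,
        Finset.inter_eq_left.mpr (sl_mono hF)]
    rw [e1, e2]
  · intro F _
    exact hk F

section gen
variable {E : Type*} [DecidableEq E]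

theorem Ex_mem1 (w : E → ℝ) {S : Finset E} {x : E} (hx : x ∈ S) :
    Ex w S (fun F => ind (x ∈ F)) = w x := by
  rw [Ex_local (S' := {x}) (Finset.singleton_subset_iff.mpr hx)]
  · have e : ({x} : Finset E) = insert x ∅ := rfl
    rw [e, Ex_insert w (Finset.notMem_empty x), Ex_empty, Ex_empty,
      ind_of (Finset.mem_insert_self x ∅), ind_not_of (Finset.notMem_empty x)]
    ring
  · intro F _
    apply ind_congr
    rw [Finset.mem_inter, Finset.mem_singleton]
    simp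

theorem Ex_mem2 (w : E → ℝ) {S : Finset E} {x y : E} (hx : x ∈ S) (hy : y ∈ S) (hxy : x ≠ y) :
    Ex w S (fun F => ind (x ∈ F) * ind (y ∈ F)) = w x * w y := by
  rw [Ex_mul_indep (S := {x}) (T := {y}) (Finset.singleton_subset_iff.mpr hx)
    (Finset.singleton_subset_iff.mpr hy) (by simpa using hxy)]
  · rw [Ex_mem1 w hx, Ex_mem1 w hy]
  · intro F _
    apply ind_congr
    rw [Finset.mem_inter, Finset.mem_singleton]
    simp
  · intro F _
    apply ind_congr
    rw [Finset.mem_inter, Finset.mem_singleton]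
    simp

/-- A second moment bound. -/
theorem pzg {w : E → ℝ} (ok : Ok w) (S : Finset E) {Y : Finset E → ℝ}
    (hY : ∀ F, 0 ≤ Y F) {e W : ℝ} (he : 0 < e) (hW : 0 < W) (h1 : e ≤ Ex w S Y)
    (h2 : Ex w S (fun F => Y F ^ 2) ≤ W) :
    e ^ 2 / (8 * W) ≤ Pr w S (fun F => e / 4 ≤ Y F) := by
  obtain ⟨l, hl⟩ : ∃ l : ℝ, l = 4 * W / e := ⟨_, rfl⟩
  have hl0 : 0 < l := by rw [hl]; positivity
  have key : Ex w S Y ≤ Ex w S (fun F =>
      (e / 4 + (1 / l) * Y F ^ 2) + l * ind (e / 4 ≤ Y F)) := by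
    apply Ex_mono ok
    intro F _
    have hy := hY F
    by_cases h : e / 4 ≤ Y F
    · rw [ind_of h]
      rcases le_or_gt (Y F) l with h3 | h3
      · have : 0 ≤ (1 / l) * Y F ^ 2 := by positivity
        linarith
      · have : Y F ≤ (1 / l) * Y F ^ 2 := by
          rw [one_div, ← div_eq_inv_mul, le_div_iff₀ hl0]
          nlinarith
        linarith
    · rw [ind_not_of h]
      push Not at h
      have : 0 ≤ (1 / l) * Y F ^ 2 := by positivity
      linarith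
  rw [Ex_add, Ex_mul_left, Ex_add, Ex_mul_left, Ex_const] at key
  have h3 : Ex w S (fun F => ind (e / 4 ≤ Y F)) = Pr w S (fun F => e / 4 ≤ Y F) := rfl
  rw [h3] at key
  have h4 : 1 / l * Ex w S (fun F => Y F ^ 2) ≤ e / 4 := by
    calc 1 / l * Ex w S (fun F => Y F ^ 2) ≤ 1 / l * W :=
          mul_le_mul_of_nonneg_left h2 (by positivity)
      _ = e / 4 := by rw [hl]; field_simp
  have h5 : e / 2 ≤ l * Pr w S (fun F => e / 4 ≤ Y F) := by linarith
  calc e ^ 2 / (8 * W) = (e / 2) / l := by rw [hl]; field_simp; ring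
    _ ≤ _ := by
        rw [div_le_iff₀ hl0]
        linarith

theorem harris_powg {w : E → ℝ} (ok : Ok w) (S : Finset E)
    {B : ℕ → Finset E → Prop} (hB : ∀ j, IncrE S (B j)) {r : ℝ} (hr : 0 ≤ r) (J : ℕ)
    (h : ∀ j, j < J → r ≤ Pr w S (B j)) :
    r ^ J ≤ Pr w S (fun F => ∀ j, j < J → B j F) := by
  induction J with
  | zero =>
    rw [pow_zero]
    apply le_of_eq
    exact (Pr_true _ (fun F _ j hj => absurd hj (by omega))).symm
  | succ J ih =>
    have h1 := ih (fun j hj => h j (by omega))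
    have h2 := h J (by omega)
    have h3 := Pr_harris ok (S := S) (A := fun F => ∀ j, j < J → B j F) (B := B J)
      (fun F G hFG hG hF j hj => hB j F G hFG hG (hF j hj)) (hB J)
    rw [pow_succ]
    refine (mul_le_mul h1 h2 hr ((pow_nonneg hr J).trans h1)).trans (h3.trans ?_)
    apply Pr_mono ok
    rintro F _ ⟨k1, k2⟩ j hj
    rcases Nat.lt_succ_iff_lt_or_eq.mp hj with h | h
    · exact k1 j h
    · rw [h]; exact k2

end gen

/-! ### connections -/

/-- adjacency in `ℤ² × ℕ` -/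
def A3 (F : Set E3) (u v : ℕ × Vtx) : Prop :=
  (u.1 = v.1 ∧ Adj {e | (Sum.inl (u.1, e) : E3) ∈ F} u.2 v.2) ∨
  (u.2 = v.2 ∧ ((v.1 = u.1 + 1 ∧ (Sum.inr (u.1, u.2) : E3) ∈ F) ∨
    (u.1 = v.1 + 1 ∧ (Sum.inr (v.1, v.2) : E3) ∈ F)))

/-- connection in `ℤ² × ℕ` -/
def R3 (F : Set E3) (u v : ℕ × Vtx) : Prop := Relation.ReflTransGen (A3 F) u v

theorem A3.symm {F : Set E3} {u v : ℕ × Vtx} (h : A3 F u v) : A3 F v u := by
  rcases h with ⟨h1, h2⟩ | ⟨h1, h2 | h2⟩
  · left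
    refine ⟨h1.symm, ?_⟩
    rw [← h1]
    exact h2.symm
  · right
    exact ⟨h1.symm, Or.inr h2⟩
  · right
    exact ⟨h1.symm, Or.inl h2⟩

theorem A3.mono {F G : Set E3} (hFG : F ⊆ G) {u v : ℕ × Vtx} (h : A3 F u v) : A3 G u v := by
  rcases h with ⟨h1, h2⟩ | ⟨h1, h2 | h2⟩
  · exact Or.inl ⟨h1, h2.mono fun e he => hFG he⟩
  · exact Or.inr ⟨h1, Or.inl ⟨h2.1, hFG h2.2⟩⟩
  · exact Or.inr ⟨h1, Or.inr ⟨h2.1, hFG h2.2⟩⟩

theorem R3.refl (F : Set E3) (u : ℕ × Vtx) : R3 F u u := Relation.ReflTransGen.refl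

theorem R3.symm {F : Set E3} {u v : ℕ × Vtx} (h : R3 F u v) : R3 F v u := by
  induction h with
  | refl => exact Relation.ReflTransGen.refl
  | tail _ hs ih => exact Relation.ReflTransGen.head hs.symm ih

theorem R3.trans {F : Set E3} {u v w : ℕ × Vtx} (h : R3 F u v) (h' : R3 F v w) : R3 F u w :=
  Relation.ReflTransGen.trans h h'

theorem R3.mono {F G : Set E3} (hFG : F ⊆ G) {u v : ℕ × Vtx} (h : R3 F u v) : R3 G u v := by
  induction h with
  | refl => exact Relation.ReflTransGen.refl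
  | tail _ hs ih => exact Relation.ReflTransGen.tail ih (hs.mono hFG)

/-- a connection inside a layer -/
theorem R3_of_layer {F : Finset E3} {j : ℕ} {u v : Vtx} (h : Reach (↑(sl j F) : Set Edg) u v) :
    R3 (↑F : Set E3) (j, u) (j, v) := by
  induction h with
  | refl => exact Relation.ReflTransGen.refl
  | tail _ hs ih =>
    refine Relation.ReflTransGen.tail ih (Or.inl ⟨rfl, hs.mono ?_⟩)
    intro e he
    rw [Finset.mem_coe, mem_sl] at he
    exact he

theorem R3_vert {F : Finset E3} {j : ℕ} {v : Vtx} (h : (Sum.inr (j, v) : E3) ∈ F) :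
    R3 (↑F : Set E3) (j, v) (j + 1, v) :=
  Relation.ReflTransGen.single (Or.inr ⟨rfl, Or.inl ⟨rfl, h⟩⟩)

end Pool.Agent.TH987.AN.Lay
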