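import Pool.Agent.TH987.AN.Model
import Pool.Agent.TH967.VT.Low

/-!
The plane through the origin.
-/

set_option autoImplicit false

open MeasureTheory Set

namespace Pool.Agent.TH987.AN

/-- the plane through the origin -/
def iv {s : ℕ} (x : ℤ × ℤ) : V s := (x, 0)

theorem iv_inj {s : ℕ} : Function.Injective (iv (s := s)) := fun _ _ h => congrArg Prod.fst h

theorem pl_iv {s : ℕ} (x y : ℤ × ℤ) : Pl (iv x : V s) (iv y) ↔ H974.sqLattice.Adj x y := by
  constructor
  · intro h
    exact h.2
  · intro h
    exact ⟨rfl, h⟩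

theorem adj_iv {s : ℕ} {x y : ℤ × ℤ} (h : H974.sqLattice.Adj x y) :
    (zd s).Adj (iv x) (iv y) := Or.inl ((pl_iv x y).mpr h)

/-- the edges of the plane through the origin -/
def ie {s : ℕ} (e : H974.sqLattice.edgeSet) : (zd s).edgeSet :=
  ⟨Sym2.map iv e.1, by
    obtain ⟨e, he⟩ := e
    induction e using Sym2.ind with
    | _ u v =>
      rw [Sym2.map_mk, SimpleGraph.mem_edgeSet]
      exact adj_iv he⟩

theorem ie_inj {s : ℕ} : Function.Injective (ie (s := s)) := by
  intro e e' h
  have h1 : Sym2.map iv e.1 = Sym2.map iv e'.1 := congrArg Subtype.val h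
  exact Subtype.ext (Sym2.map.injective iv_inj h1)

theorem inPlane_ie {s : ℕ} (e : H974.sqLattice.edgeSet) : InPlane (ie (s := s) e).1 := by
  obtain ⟨e, he⟩ := e
  induction e using Sym2.ind with
  | _ u v =>
    show InPlane (Sym2.map iv s(u, v))
    rw [Sym2.map_mk, inPlane_mk]
    exact (pl_iv u v).mpr he

/-- the configuration in the plane through the origin -/
def pr {s : ℕ} (ω : (zd s).edgeSet → Bool) : H974.sqLattice.edgeSet → Bool := fun e => ω (ie e)

theorem pr_meas {s : ℕ} : Measurable (pr (s := s)) := by
  unfold pr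
  fun_prop

theorem law_pr (s : ℕ) (p q : unitInterval) : (law s p q).map pr = H974.bondLaw p := by
  classical
  unfold law H974.bondLaw
  have h := Measure.map_infinitePi_infinitePi_of_inj (P := fun e : (zd s).edgeSet =>
    ProbabilityTheory.bernoulliMeasure true false (if InPlane e.1 then p else q))
    (ie_inj (s := s))
  show Measure.map (fun (ω : (zd s).edgeSet → Bool) e => ω (ie e)) _ = _
  rw [h]
  congr 1
  funext e
  rw [if_pos (inPlane_ie e)]

theorem pr_adj {s : ℕ} (ω : (zd s).edgeSet → Bool) (x y : ℤ × ℤ) :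
    (H974.openGraph (pr ω)).Adj x y ↔ Pl (iv x : V s) (iv y) ∧ op ω (iv x) (iv y) := by
  unfold H974.openGraph op
  rw [SimpleGraph.fromEdgeSet_adj]
  constructor
  · rintro ⟨⟨h1, h2⟩, -⟩
    exact ⟨(pl_iv x y).mpr h1, adj_iv h1, h2⟩
  · rintro ⟨h0, h1, h2⟩
    have h3 : H974.sqLattice.Adj x y := (pl_iv x y).mp h0
    exact ⟨⟨h3, h2⟩, h3.ne⟩

/-- the cluster of the origin in the plane is contained in the cluster of the origin -/
theorem pr_sub {s : ℕ} (ω : (zd s).edgeSet → Bool) {x : ℤ × ℤ} (h : x ∈ H974.cluster0 (pr ω)) :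
    (iv x : V s) ∈ cluster ω 0 := by
  have h0 : (H974.openGraph (pr ω)).Reachable (0, 0) x := h
  have h1 : ∀ a y, (H974.openGraph (pr ω)).Reachable a y →
      (openGraph ω).Reachable (iv a) (iv y) := by
    intro a y hy
    obtain ⟨w⟩ := hy
    induction w with
    | nil => exact SimpleGraph.Reachable.refl _
    | cons hadj _ ih =>
      refine SimpleGraph.Reachable.trans (SimpleGraph.Adj.reachable ?_) ih
      rw [adj_iff]
      exact ((pr_adj ω _ _).mp hadj).2
  exact h1 _ x h0

instance (s : ℕ) (p q : unitInterval) : IsProbabilityMeasure (law s p q) := by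
  unfold law
  infer_instance

theorem theta_ge (s : ℕ) (p q : unitInterval) : H974.theta p ≤ theta s p q := by
  have hm : MeasurableSet {η : H974.sqLattice.edgeSet → Bool | (H974.cluster0 η).Infinite} :=
    inf_meas (fun η y => (H974.openGraph η).Reachable (0, 0) y) fun y => reach_meas _ (by
      intro u v
      by_cases huv : H974.sqLattice.Adj u v
      · have e : {η : H974.sqLattice.edgeSet → Bool | (H974.openGraph η).Adj u v} =
            (fun η : H974.sqLattice.edgeSet → Bool => η ⟨s(u, v), huv⟩) ⁻¹' {true} := by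
          ext η
          constructor
          · intro h
            unfold H974.openGraph at h
            rw [Set.mem_ofPred_eq, SimpleGraph.fromEdgeSet_adj] at h
            exact h.1.2
          · intro h
            unfold H974.openGraph
            rw [Set.mem_ofPred_eq, SimpleGraph.fromEdgeSet_adj]
            exact ⟨⟨huv, h⟩, huv.ne⟩
        rw [e]
        exact (measurable_pi_apply _) (measurableSet_singleton _)
      · have e : {η : H974.sqLattice.edgeSet → Bool | (H974.openGraph η).Adj u v} = ∅ := by
          rw [Set.eq_empty_iff_forall_notMem]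
          intro η h
          unfold H974.openGraph at h
          rw [Set.mem_ofPred_eq, SimpleGraph.fromEdgeSet_adj] at h
          exact huv h.1.1
        rw [e]
        exact MeasurableSet.empty) (0, 0) y
  unfold theta H974.theta
  rw [← law_pr s p q, map_measureReal_apply pr_meas hm]
  refine measureReal_mono ?_ (measure_ne_top _ _)
  intro ω hω
  have h1 : (H974.cluster0 (pr ω)).Infinite := hω
  have h2 : (iv (s := s) '' H974.cluster0 (pr ω)).Infinite := h1.image (iv_inj.injOn)
  refine h2.mono ?_
  rintro _ ⟨x, hx, rfl⟩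
  exact pr_sub ω hx

end Pool.Agent.TH987.AN
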