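import Pool.Agent.TH987.AN.Hub
import Pool.Agent.TH987.AN.Plane

/-!
Finite-volume probabilities of `ℤ² × ℕ` inside the anisotropic model.
-/

set_option autoImplicit false

open MeasureTheory

namespace Pool.Agent.TH987.AN.Lay

open Finset H974 Pool.Agent.H160R2.CV H362P
open Pool.Agent.H160R2.CV.Quad Pool.Agent.TH967.VT

section gen
variable {ι E : Type} [DecidableEq E] {f : E → ι} (w : ι → unitInterval)

/-- the open edges in a finite set -/
def FG (f : E → ι) (S : Finset E) (ω : ι → Bool) : Finset E := S.filter (fun e => ω (f e) = true)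

omit [DecidableEq E] in
theorem mem_FG {S : Finset E} {ω : ι → Bool} {e : E} :
    e ∈ FG f S ω ↔ e ∈ S ∧ ω (f e) = true := by
  unfold FG; rw [Finset.mem_filter]

open scoped Classical in
omit [DecidableEq E] in
theorem FG_eq_pi (hf : Function.Injective f) {S T : Finset E} (hT : T ⊆ S) :
    {ω | FG f S ω = T} = Set.pi (↑(S.image f) : Set ι)
      (fun g => {b : Bool | b = true ↔ g ∈ T.image f}) := by
  ext ω
  rw [Set.mem_pi]
  constructor
  · intro h g hg
    have h' : FG f S ω = T := h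
    obtain ⟨e, he, rfl⟩ := Finset.mem_image.mp (Finset.mem_coe.mp hg)
    show ω (f e) = true ↔ f e ∈ T.image f
    rw [hf.mem_finset_image, ← h', mem_FG]
    exact ⟨fun h => ⟨he, h⟩, fun h => h.2⟩
  · intro h
    show FG f S ω = T
    ext e
    rw [mem_FG]
    constructor
    · rintro ⟨he, hω⟩
      have h1 := h (f e) (Finset.mem_coe.mpr (Finset.mem_image_of_mem _ he))
      have h2 : ω (f e) = true ↔ f e ∈ T.image f := h1
      rw [hf.mem_finset_image] at h2
      exact h2.mp hω
    · intro he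
      have h1 := h (f e) (Finset.mem_coe.mpr (Finset.mem_image_of_mem _ (hT he)))
      have h2 : ω (f e) = true ↔ f e ∈ T.image f := h1
      rw [hf.mem_finset_image] at h2
      exact ⟨hT he, h2.mpr he⟩

omit [DecidableEq E] in
theorem meas_FG (hf : Function.Injective f) (S T : Finset E) :
    MeasurableSet {ω | FG f S ω = T} := by
  classical
  by_cases hT : T ⊆ S
  · rw [FG_eq_pi hf hT]
    exact MeasurableSet.pi (Finset.countable_toSet _) (fun _ _ => MeasurableSet.of_discrete)
  · have : {ω | FG f S ω = T} = ∅ := by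
      ext ω
      simp only [Set.mem_empty_iff_false, iff_false]
      intro h
      have h' : FG f S ω = T := h
      exact hT (h' ▸ Finset.filter_subset _ _)
    rw [this]
    exact MeasurableSet.empty

/-- the product law -/
noncomputable def lw : Measure (ι → Bool) :=
  Measure.infinitePi (fun i => ProbabilityTheory.bernoulliMeasure true false (w i))

instance : IsProbabilityMeasure (lw w) := by
  unfold lw; infer_instance

theorem lw_eq (hf : Function.Injective f) {S T : Finset E} (hT : T ⊆ S) :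
    (lw w).real {ω | FG f S ω = T} =
      (∏ e ∈ T, (w (f e) : ℝ)) * ∏ e ∈ S \ T, (1 - (w (f e) : ℝ)) := by
  classical
  rw [measureReal_def, FG_eq_pi hf hT]
  unfold lw
  rw [Measure.infinitePi_pi _ (fun _ _ => MeasurableSet.of_discrete), ENNReal.toReal_prod,
    Finset.prod_image (hf.injOn)]
  have h1 : ∀ e ∈ S, ((ProbabilityTheory.bernoulliMeasure true false (w (f e)))
      {b : Bool | b = true ↔ f e ∈ T.image f}).toReal =
        if e ∈ T then (w (f e) : ℝ) else 1 - (w (f e) : ℝ) := by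
    intro e _
    by_cases he : e ∈ T
    · rw [if_pos he]
      have hm : f e ∈ T.image f := Finset.mem_image_of_mem _ he
      exact ProbabilityTheory.bernoulliMeasure_real_apply_of_mem_of_notMem (w (f e))
        MeasurableSet.of_discrete (show (true = true ↔ f e ∈ T.image f) by simp [hm])
        (show ¬ (false = true ↔ f e ∈ T.image f) by simp [hm])
    · rw [if_neg he]
      have hm : f e ∉ T.image f := by
        rw [hf.mem_finset_image]; exact he
      exact ProbabilityTheory.bernoulliMeasure_real_apply_of_notMem_of_mem (w (f e))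
        MeasurableSet.of_discrete (show ¬ (true = true ↔ f e ∈ T.image f) by simp [hm])
        (show (false = true ↔ f e ∈ T.image f) by simp [hm])
  rw [Finset.prod_congr rfl h1, Finset.prod_ite]
  congr 1
  · apply Finset.prod_congr _ (fun _ _ => rfl)
    ext e
    simp only [Finset.mem_filter]
    exact ⟨fun h => h.2, fun h => ⟨hT h, h⟩⟩
  · apply Finset.prod_congr _ (fun _ _ => rfl)
    ext e
    simp only [Finset.mem_filter, Finset.mem_sdiff]

omit [DecidableEq E] in
theorem eventg_union (S : Finset E) (Q : Finset E → Prop) [DecidablePred Q] :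
    {ω | Q (FG f S ω)} = ⋃ T ∈ S.powerset.filter Q, {ω | FG f S ω = T} := by
  ext ω
  simp only [Set.mem_iUnion, Finset.mem_filter, Finset.mem_powerset]
  constructor
  · intro h
    exact ⟨FG f S ω, ⟨Finset.filter_subset _ _, h⟩, rfl⟩
  · rintro ⟨T, ⟨-, hQ⟩, hω⟩
    have hω' : FG f S ω = T := hω
    show Q (FG f S ω)
    rw [hω']; exact hQ

theorem lw_event (hf : Function.Injective f) (S : Finset E) (Q : Finset E → Prop) :
    (lw w).real {ω | Q (FG f S ω)} = Pr (fun e => (w (f e) : ℝ)) S Q := by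
  classical
  rw [eventg_union, measureReal_biUnion_finset]
  · unfold Pr Ex
    rw [Finset.sum_filter]
    apply Finset.sum_congr rfl
    intro T hT
    show _ = (∏ e ∈ T, (w (f e) : ℝ)) * (∏ e ∈ S \ T, (1 - (w (f e) : ℝ))) * ind (Q T)
    split_ifs with hQ
    · rw [lw_eq w hf (Finset.mem_powerset.mp hT), ind_of hQ, mul_one]
    · rw [ind_not_of hQ, mul_zero]
  · intro T _ T' _ hne
    rw [Function.onFun, Set.disjoint_left]
    intro ω h1 h2
    exact hne ((show FG f S ω = T from h1).symm.trans (show FG f S ω = T' from h2))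
  · intro T _
    exact meas_FG hf S T

end gen

/-! ### the embedding -/

section emb
variable {s : ℕ} (i0 : Fin s)

/-- the embedding of `ℤ² × ℕ` -/
def ev (x : ℕ × Vtx) : V s := (x.2, Pi.single i0 (x.1 : ℤ))

theorem ev_inj : Function.Injective (ev i0) := by
  rintro ⟨j, v⟩ ⟨j', v'⟩ h
  have h1 : v = v' := congrArg Prod.fst h
  have h2 : (Pi.single i0 (j:ℤ) : Fin s → ℤ) = Pi.single i0 (j':ℤ) := congrArg Prod.snd h
  have h3 := congrFun h2 i0
  rw [Pi.single_eq_same, Pi.single_eq_same] at h3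
  have h4 : j = j' := by exact_mod_cast h3
  rw [h1, h4]

theorem pl_ev (j : ℕ) (u v : Vtx) : Pl (ev i0 (j, u)) (ev i0 (j, v)) ↔ sqLattice.Adj u v := by
  constructor
  · intro h
    exact h.2
  · intro h
    exact ⟨rfl, h⟩

theorem pe_ev (j : ℕ) (v : Vtx) : Pe (ev i0 (j, v)) (ev i0 (j + 1, v)) := by
  refine ⟨rfl, ?_⟩
  show ∑ i, |(Pi.single i0 (j:ℤ) : Fin s → ℤ) i -
    (Pi.single i0 ((j + 1 : ℕ) : ℤ) : Fin s → ℤ) i| = 1
  rw [Finset.sum_eq_single i0]
  · rw [Pi.single_eq_same, Pi.single_eq_same]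
    push_cast
    rw [show (j:ℤ) - (j + 1) = -1 by ring]
    norm_num
  · intro i _ hi
    rw [Pi.single_eq_of_ne hi, Pi.single_eq_of_ne hi]
    norm_num
  · intro h
    exact absurd (Finset.mem_univ _) h

/-- the embedding of the edges -/
def emb : E3 → (zd s).edgeSet
  | Sum.inl (j, e) => ⟨s(ev i0 (j, src e), ev i0 (j, tgt e)), by
      rw [SimpleGraph.mem_edgeSet]
      exact Or.inl ((pl_ev i0 j _ _).mpr ((SimpleGraph.mem_edgeSet _).mp (edge_mem e)))⟩
  | Sum.inr (j, v) => ⟨s(ev i0 (j, v), ev i0 (j + 1, v)), by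
      rw [SimpleGraph.mem_edgeSet]
      exact Or.inr (pe_ev i0 j v)⟩

theorem emb_inl (j : ℕ) (e : Edg) : (emb i0 (Sum.inl (j, e))).1 =
    s(ev i0 (j, src e), ev i0 (j, tgt e)) := rfl

theorem emb_inr (j : ℕ) (v : Vtx) : (emb i0 (Sum.inr (j, v))).1 =
    s(ev i0 (j, v), ev i0 (j + 1, v)) := rfl

theorem inPlane_inl (j : ℕ) (e : Edg) : InPlane (emb i0 (Sum.inl (j, e))).1 := by
  rw [emb_inl, inPlane_mk]
  exact (pl_ev i0 j _ _).mpr ((SimpleGraph.mem_edgeSet _).mp (edge_mem e))

theorem not_inPlane_inr (j : ℕ) (v : Vtx) : ¬ InPlane (emb i0 (Sum.inr (j, v))).1 := by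
  rw [emb_inr, inPlane_mk]
  intro h
  have h1 : (Pi.single i0 (j:ℤ) : Fin s → ℤ) = Pi.single i0 ((j + 1 : ℕ) : ℤ) := h.1
  have h3 := congrFun h1 i0
  rw [Pi.single_eq_same, Pi.single_eq_same] at h3
  push_cast at h3
  omega

theorem emb_inj : Function.Injective (emb i0) := by
  rintro (⟨j, e⟩ | ⟨j, v⟩) (⟨j', e'⟩ | ⟨j', v'⟩) h
  · have h1 : s(ev i0 (j, src e), ev i0 (j, tgt e)) = s(ev i0 (j', src e'), ev i0 (j', tgt e')) :=
      congrArg Subtype.val h
    have h2 : j = j' ∧ s(src e, tgt e) = s(src e', tgt e') := by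
      rcases Sym2.eq_iff.mp h1 with ⟨k1, k2⟩ | ⟨k1, k2⟩
      · have a1 := Prod.mk.inj (ev_inj i0 k1)
        have a2 := Prod.mk.inj (ev_inj i0 k2)
        exact ⟨a1.1, by rw [a1.2, a2.2]⟩
      · have a1 := Prod.mk.inj (ev_inj i0 k1)
        have a2 := Prod.mk.inj (ev_inj i0 k2)
        exact ⟨a1.1, by rw [a1.2, a2.2]; exact Sym2.eq_swap⟩
    have h3 : toE e = toE e' := Subtype.ext h2.2
    rw [h2.1, toE_inj h3]
  · exfalso
    have h1 := inPlane_inl i0 j e
    rw [h] at h1
    exact not_inPlane_inr i0 j' v' h1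
  · exfalso
    have h1 := inPlane_inl i0 j' e'
    rw [← h] at h1
    exact not_inPlane_inr i0 j v h1
  · have h1 : s(ev i0 (j, v), ev i0 (j + 1, v)) = s(ev i0 (j', v'), ev i0 (j' + 1, v')) :=
      congrArg Subtype.val h
    rcases Sym2.eq_iff.mp h1 with ⟨k1, k2⟩ | ⟨k1, k2⟩
    · have a1 := Prod.mk.inj (ev_inj i0 k1)
      rw [a1.1, a1.2]
    · have a1 := Prod.mk.inj (ev_inj i0 k1)
      have a2 := Prod.mk.inj (ev_inj i0 k2)
      omega

open scoped Classical in
/-- the parameters of the edges -/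
noncomputable def wq (s : ℕ) (p q : unitInterval) (e : (zd s).edgeSet) : unitInterval :=
  if InPlane e.1 then p else q

theorem law_lw (p q : unitInterval) : law s p q = lw (wq s p q) := rfl

theorem wq_emb (p q : unitInterval) (x : E3) : (wq s p q (emb i0 x) : ℝ) = wt p q x := by
  classical
  obtain ⟨j, e⟩ | ⟨j, v⟩ := x
  · unfold wq
    rw [if_pos (inPlane_inl i0 j e)]
    rfl
  · unfold wq
    rw [if_neg (not_inPlane_inr i0 j v)]
    rfl

theorem law_ev (p q : unitInterval) (S : Finset E3) (Q : Finset E3 → Prop) :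
    (law s p q).real {ω | Q (FG (emb i0) S ω)} = Pr (wt (p:ℝ) q) S Q := by
  rw [law_lw, lw_event _ (emb_inj i0)]
  congr 1
  funext x
  exact wq_emb i0 p q x

theorem op_of_mem {ω : (zd s).edgeSet → Bool} {u v : V s} {e : (zd s).edgeSet}
    (h1 : ω e = true) (h2 : e.1 = s(u, v)) : op ω u v := by
  obtain ⟨e, he⟩ := e
  simp only at h2
  subst h2
  exact ⟨he, h1⟩

theorem reach_of_R3 {S : Finset E3} {ω : (zd s).edgeSet → Bool} {x y : ℕ × Vtx}
    (h : R3 (↑(FG (emb i0) S ω) : Set E3) x y) :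
    (openGraph ω).Reachable (ev i0 x) (ev i0 y) := by
  induction h with
  | refl => exact SimpleGraph.Reachable.refl _
  | @tail y z _ hs ih =>
    refine ih.trans (SimpleGraph.Adj.reachable ?_)
    rw [adj_iff]
    obtain ⟨j, u⟩ := y
    obtain ⟨j', u'⟩ := z
    rcases hs with ⟨h1, e, he, hc⟩ | ⟨h1, ⟨h2, h3⟩ | ⟨h2, h3⟩⟩
    · simp only at h1 hc he
      subst h1
      have hm := (mem_FG.mp (Finset.mem_coe.mp he)).2
      apply op_of_mem hm
      rw [emb_inl]
      rcases hc with ⟨rfl, rfl⟩ | ⟨rfl, rfl⟩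
      · rfl
      · exact Sym2.eq_swap
    · simp only at h1 h2 h3
      subst h1
      subst h2
      have hm := (mem_FG.mp (Finset.mem_coe.mp h3)).2
      apply op_of_mem hm
      rw [emb_inr]
    · simp only at h1 h2 h3
      subst h1
      subst h2
      have hm := (mem_FG.mp (Finset.mem_coe.mp h3)).2
      apply op_of_mem hm
      rw [emb_inr]
      exact Sym2.eq_swap

/-- the cluster of `x` reaches distance `M` -/
def AM (M : ℕ) (x : V s) : Set ((zd s).edgeSet → Bool) := {ω | ∃ u ∈ cluster ω x, M ≤ nv u.1}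

theorem AM_meas (M : ℕ) (x : V s) : MeasurableSet (AM M x) := by
  have e : AM M x = ⋃ u : {u : V s // M ≤ nv u.1}, {ω | (rg ω Set.univ).Reachable x u.1} := by
    ext ω
    rw [Set.mem_iUnion]
    constructor
    · rintro ⟨u, hu, hM⟩
      refine ⟨⟨u, hM⟩, ?_⟩
      rw [Set.mem_ofPred_eq, rg_univ]
      exact hu
    · rintro ⟨⟨u, hM⟩, hu⟩
      rw [Set.mem_ofPred_eq, rg_univ] at hu
      exact ⟨u, hu, hM⟩
  rw [e]
  exact MeasurableSet.iUnion fun u => rg_meas _ _ _

theorem AM_inf (x : V s) : ⋂ M, AM M x ⊆ {ω | (cluster ω x).Infinite} := by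
  intro ω hω hfin
  rw [Set.mem_iInter] at hω
  obtain ⟨M, hM⟩ := (hfin.image (fun u : V s => nv u.1)).bddAbove
  obtain ⟨u, hu, h1⟩ := hω (M + 1)
  have h2 : nv u.1 ≤ M := hM (Set.mem_image_of_mem (fun u : V s => nv u.1) hu)
  omega

theorem AM_lim (p q : unitInterval) (x : V s) :
    Filter.Tendsto (fun M => (law s p q).real (AM M x)) Filter.atTop
      (nhds ((law s p q).real (⋂ M, AM M x))) := by
  have h1 : Antitone (fun M => AM (s := s) M x) := by
    intro M M' h ω hω
    obtain ⟨u, hu, h2⟩ := hω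
    exact ⟨u, hu, h.trans h2⟩
  have h2 := tendsto_measure_iInter_atTop (μ := law s p q) (s := fun M => AM (s := s) M x)
    (fun M => (AM_meas M x).nullMeasurableSet) h1 ⟨0, measure_ne_top _ _⟩
  exact (ENNReal.tendsto_toReal (measure_ne_top _ _)).comp h2

theorem theta_lim (p q : unitInterval) (x : V s) :
    (law s p q).real (⋂ M, AM M x) ≤ theta s p q := by
  have h1 : (law s p q).real (⋂ M, AM M x) ≤ (law s p q).real {ω | (cluster ω x).Infinite} :=
    measureReal_mono (AM_inf x) (measure_ne_top _ _)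
  refine h1.trans (le_of_eq ?_)
  unfold theta
  rw [measureReal_def, measureReal_def, inf_eq]

theorem pr_Far_le (p q : unitInterval) (M : ℕ) (S : Finset E3) (x : ℕ × Vtx) :
    Pr (wt (p:ℝ) q) S (Far M x) ≤ (law s p q).real (AM M (ev i0 x)) := by
  rw [← law_ev i0 p q S (Far M x)]
  refine measureReal_mono ?_ (measure_ne_top _ _)
  rintro ω ⟨u, hu, hr⟩
  exact ⟨ev i0 u, reach_of_R3 i0 hr, hu⟩

include i0 in
/-- The finite-volume bound gives a lower bound for the percolation probability. -/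
theorem theta_of_far (p q : unitInterval) {D : ℝ} {K L : ℕ} (hL : 1 ≤ L)
    (h : ∀ M : ℕ, ∃ S : Finset E3, D ≤ ∑ y ∈ range 18, ∑ i ∈ range (K + 1),
      ∑ v ∈ Bc (cz L (0, (y : ℤ))) L, Pr (wt (p:ℝ) q) S (Far M (i, v))) :
    D ≤ 18 * ((K + 1) * (9 * (L:ℝ) ^ 2 * theta s p q)) := by
  have h1 : ∀ M : ℕ, D ≤ ∑ y ∈ range 18, ∑ i ∈ range (K + 1),
      ∑ v ∈ Bc (cz L (0, (y : ℤ))) L, (law s p q).real (AM M (ev i0 (i, v))) := by
    intro M
    obtain ⟨S, hS⟩ := h M
    refine hS.trans ?_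
    apply Finset.sum_le_sum
    intro y _
    apply Finset.sum_le_sum
    intro i _
    apply Finset.sum_le_sum
    intro v _
    exact pr_Far_le i0 p q M S (i, v)
  have h2 : Filter.Tendsto (fun M : ℕ => ∑ y ∈ range 18, ∑ i ∈ range (K + 1),
      ∑ v ∈ Bc (cz L (0, (y : ℤ))) L, (law s p q).real (AM M (ev i0 (i, v)))) Filter.atTop
      (nhds (∑ y ∈ range 18, ∑ i ∈ range (K + 1),
      ∑ v ∈ Bc (cz L (0, (y : ℤ))) L, (law s p q).real (⋂ M, AM M (ev i0 (i, v))))) := by
    apply tendsto_finsetSum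
    intro y _
    apply tendsto_finsetSum
    intro i _
    apply tendsto_finsetSum
    intro v _
    exact AM_lim p q _
  have h3 := ge_of_tendsto' h2 h1
  refine h3.trans ?_
  have h4 : ∀ y ∈ range 18, ∑ i ∈ range (K + 1), ∑ v ∈ Bc (cz L (0, (y : ℤ))) L,
      (law s p q).real (⋂ M, AM M (ev i0 (i, v))) ≤ (K + 1) * (9 * (L:ℝ) ^ 2 * theta s p q) := by
    intro y _
    have h5 : ∀ i ∈ range (K + 1), ∑ v ∈ Bc (cz L (0, (y : ℤ))) L,
      (law s p q).real (⋂ M, AM M (ev i0 (i, v))) ≤ 9 * (L:ℝ) ^ 2 * theta s p q := by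
      intro i _
      refine (Finset.sum_le_sum (fun v _ => theta_lim p q (ev i0 (i, v)))).trans ?_
      rw [Finset.sum_const, nsmul_eq_mul]
      apply mul_le_mul_of_nonneg_right (card_Bc9 hL)
      exact measureReal_nonneg
    refine (Finset.sum_le_sum h5).trans (le_of_eq ?_)
    rw [Finset.sum_const, nsmul_eq_mul, Finset.card_range]
    push_cast
    ring
  refine (Finset.sum_le_sum h4).trans (le_of_eq ?_)
  rw [Finset.sum_const, nsmul_eq_mul, Finset.card_range]
  norm_num

end emb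

end Pool.Agent.TH987.AN.Lay
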