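import Pool.Agent.TH987.AN.Cover

/-!
Good layers of a block.
-/

set_option autoImplicit false

namespace Pool.Agent.TH987.AN.Lay

open Finset H974 Pool.Agent.H160R2.CV H362P
open Pool.Agent.H160R2.CV.Quad Pool.Agent.TH967.VT

/-- the probability that an independent layer has an overlap of at least `b` with `G` -/
noncomputable def phi (p : ℝ) (c : Vtx) (L : ℕ) (b : ℝ) (G : Finset Edg) : ℝ :=
  Pr (fun _ => p) (bo c (7 * L)) (fun G' => b ≤ Nn c L G G')

theorem Nn_loc (c : Vtx) (L : ℕ) (G G' : Finset Edg) :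
    Nn c L G G' = Nn c L G (G' ∩ bo c (7 * L)) := by
  unfold Nn
  apply Finset.sum_congr rfl
  intro v hv
  rw [ind_congr (Hv_loc hv G')]

theorem phi_eq (p : ℝ) {c : Vtx} {L : ℕ} (b : ℝ) (G : Finset Edg) {S : Finset Edg}
    (hS : bo c (7 * L) ⊆ S) :
    Pr (fun _ => p) S (fun G' => b ≤ Nn c L G G') = phi p c L b G := by
  unfold phi
  apply Pr_local hS
  intro F _
  rw [← Nn_loc]

theorem phi_mono {p : ℝ} (h0 : 0 ≤ p) (h1 : p ≤ 1) (c : Vtx) (L : ℕ) (b : ℝ) {G H : Finset Edg}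
    (h : G ⊆ H) : phi p c L b G ≤ phi p c L b H := by
  apply Pr_mono (okq h0 h1)
  intro F _ hF
  exact hF.trans (Nn_mono c L h (Finset.Subset.refl F))

theorem phi_le_one {p : ℝ} (h0 : 0 ≤ p) (h1 : p ≤ 1) (c : Vtx) (L : ℕ) (b : ℝ)
    (G : Finset Edg) : phi p c L b G ≤ 1 := Pr_le_one (okq h0 h1) _ _

/-- the layer is good for the block with centre `c` -/
def Gd (p : ℝ) (c : Vtx) (L : ℕ) (b δ : ℝ) (G : Finset Edg) : Prop :=
  Ci c (2 * L) (2 * (2 * L)) G ∧ δ ≤ phi p c L b G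

theorem Gd.mono {p : ℝ} (h0 : 0 ≤ p) (h1 : p ≤ 1) {c : Vtx} {L : ℕ} {b δ : ℝ} {G H : Finset Edg}
    (h : G ⊆ H) (hG : Gd p c L b δ G) : Gd p c L b δ H :=
  ⟨hG.1.mono h, hG.2.trans (phi_mono h0 h1 c L b h)⟩

/-- the constant `δ` -/
noncomputable def dl (a K0 : ℝ) : ℝ := a ^ 4 / CF K0

theorem dl_pos {a K0 : ℝ} (ha : 0 < a) (hK : 1 ≤ K0) : 0 < dl a K0 := by
  unfold dl
  have := CF_pos hK
  positivity

section
variable {p q κ a K0 : ℝ} {N L : ℕ}

/-- The overlap function is large with positive probability. -/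
theorem pr_phi (h0 : 0 ≤ p) (hp : p ≤ 1 / 2) (ha : 0 < a) (hK1 : 1 ≤ K0) (hL : 1 ≤ L)
    (hK : ArmUp (1 / 2) K0 (2 * L)) (hlow : a * (L : ℝ) ^ (-(5 / 48 : ℝ)) ≤ arm p (8 * L))
    (c : Vtx) {S : Finset Edg} (hS : bo c (7 * L) ⊆ S) :
    dl a K0 ≤ Pr (fun _ => p) S
      (fun G => dl a K0 ≤ phi p c L (a ^ 2 * (L : ℝ) ^ (43 / 24 : ℝ)) G) := by
  have h1 : p ≤ 1 := by linarith
  have okp := okq h0 h1
  obtain ⟨b, hb⟩ : ∃ b : ℝ, b = a ^ 2 * (L : ℝ) ^ (43 / 24 : ℝ) := ⟨_, rfl⟩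
  rw [← hb]
  have hov := overlap (p := p) (q := 0) (a := a) (K0 := K0) (m := L) (c := c) (i := 0) (j := 1)
    (S := lay 0 S ∪ lay 1 S) h0 hp le_rfl (by norm_num) ha hK1 hL hK hlow (by norm_num)
    (by rw [sl_union, sl_lay, sl_lay_ne (by norm_num), Finset.union_empty]; exact hS)
    (by rw [sl_union, sl_lay, sl_lay_ne (by norm_num), Finset.empty_union]; exact hS)
  rw [← hb] at hov
  have e1 : Pr (wt p 0) (lay 0 S ∪ lay 1 S) (fun F => b ≤ Nn c L (sl 0 F) (sl 1 F)) =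
      Ex (fun _ => p) S (fun G => phi p c L b G) := by
    unfold Pr
    rw [Ex_union (lay_disj (by norm_num) S S)]
    have e2 : ∀ A, A ⊆ lay 0 S → Ex (wt p 0) (lay 1 S)
        (fun B => ind (b ≤ Nn c L (sl 0 (A ∪ B)) (sl 1 (A ∪ B)))) = phi p c L b (sl 0 A) := by
      intro A hA
      rw [← phi_eq p b (sl 0 A) hS]
      have e3 := Ex_sl p 0 (lay 1 S) 1 (fun G' => ind (b ≤ Nn c L (sl 0 A) G'))
      rw [sl_lay] at e3
      unfold Pr
      rw [← e3]
      apply Ex_congr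
      intro B hB
      have k1 : sl 0 B = ∅ := by
        rw [← Finset.subset_empty]
        refine (sl_mono hB).trans ?_
        rw [sl_lay_ne (by norm_num)]
      have k2 : sl 1 A = ∅ := by
        rw [← Finset.subset_empty]
        refine (sl_mono hA).trans ?_
        rw [sl_lay_ne (by norm_num)]
      rw [sl_union, sl_union, k1, k2, Finset.union_empty, Finset.empty_union]
    rw [Ex_congr e2, Ex_sl p 0 (lay 0 S) 0 (fun G => phi p c L b G), sl_lay]
  rw [e1] at hov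
  have e4 : Ex (fun _ => p) S (fun G => phi p c L b G) ≤
      Ex (fun _ => p) S (fun G => dl a K0 + ind (dl a K0 ≤ phi p c L b G)) := by
    apply Ex_mono okp
    intro G _
    by_cases h : dl a K0 ≤ phi p c L b G
    · rw [ind_of h]
      have := phi_le_one h0 h1 c L b G
      have := dl_pos ha hK1
      linarith
    · rw [ind_not_of h]
      linarith [not_le.mp h]
  rw [Ex_add, Ex_const] at e4
  have e5 : 2 * a ^ 4 / CF K0 = 2 * dl a K0 := by unfold dl; ring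
  rw [e5] at hov
  have e6 : Pr (fun _ => p) S (fun G => dl a K0 ≤ phi p c L b G) =
      Ex (fun _ => p) S (fun G => ind (dl a K0 ≤ phi p c L b G)) := rfl
  rw [e6]
  linarith

theorem pr_Gd (hW : H12S.Win p κ N) (hp : p ≤ 1 / 2) (ha : 0 < a) (hK1 : 1 ≤ K0) (hL : 1 ≤ L)
    (hK : ArmUp (1 / 2) K0 (2 * L)) (hlow : a * (L : ℝ) ^ (-(5 / 48 : ℝ)) ≤ arm p (8 * L))
    (hLN : 2 * L ≤ N) (c : Vtx) {S : Finset Edg} (hS : bo c (7 * L) ⊆ S) :
    κ ^ 4 * dl a K0 ≤ Pr (fun _ => p) S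
      (Gd p c L (a ^ 2 * (L : ℝ) ^ (43 / 24 : ℝ)) (dl a K0)) := by
  have h0 : 0 ≤ p := by linarith [hW.lo]
  have h1 : p ≤ 1 := by linarith [hW.hi]
  have hκ := hW.kpos
  have k1 : κ ^ 4 ≤ Pr (fun _ => p) S (Ci c (2 * L) (2 * (2 * L))) := by
    apply pr_Ci_win hW (by omega) hLN (r0 := 0) (by omega)
    refine (Finset.sdiff_subset.trans ?_).trans hS
    exact bo_sub_bo (by rw [sub_self]; unfold nv; simp; omega)
  have k2 := pr_phi h0 hp ha hK1 hL hK hlow c hS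
  have i1 := Pr_harris (okq h0 h1) (S := S) (A := Ci c (2 * L) (2 * (2 * L)))
    (B := fun G => dl a K0 ≤ phi p c L (a ^ 2 * (L : ℝ) ^ (43 / 24 : ℝ)) G)
    (fun F G h _ hF => hF.mono h) (fun F G h _ hF => hF.trans (phi_mono h0 h1 _ _ _ h))
  exact (mul_le_mul k1 k2 (dl_pos ha hK1).le ((by positivity : 0 ≤ κ ^ 4).trans k1)).trans i1

/-- a third layer which links two layers -/
def Lam (c1 c2 : Vtx) (L : ℕ) (b : ℝ) (G1 G2 G' : Finset Edg) : Prop :=
  (Ci c1 (2 * L) (2 * (2 * L)) G' ∧ b ≤ Nn c1 L G1 G') ∧ b ≤ Nn c2 L G2 G'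

theorem pr_Lam (hW : H12S.Win p κ N) (hL : 1 ≤ L) (hLN : 2 * L ≤ N) {b δ : ℝ} (hδ : 0 ≤ δ)
    (c1 c2 : Vtx) {S : Finset Edg} (hS1 : bo c1 (7 * L) ⊆ S) (hS2 : bo c2 (7 * L) ⊆ S)
    {G1 G2 : Finset Edg} (h1 : δ ≤ phi p c1 L b G1) (h2 : δ ≤ phi p c2 L b G2) :
    κ ^ 4 * δ * δ ≤ Pr (fun _ => p) S (Lam c1 c2 L b G1 G2) := by
  have h0 : 0 ≤ p := by linarith [hW.lo]
  have h1' : p ≤ 1 := by linarith [hW.hi]
  have hκ := hW.kpos
  have k1 : κ ^ 4 ≤ Pr (fun _ => p) S (Ci c1 (2 * L) (2 * (2 * L))) := by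
    apply pr_Ci_win hW (by omega) hLN (r0 := 0) (by omega)
    refine (Finset.sdiff_subset.trans ?_).trans hS1
    exact bo_sub_bo (by rw [sub_self]; unfold nv; simp; omega)
  rw [← phi_eq p b G1 hS1] at h1
  rw [← phi_eq p b G2 hS2] at h2
  have i1 := Pr_harris (okq h0 h1') (S := S) (A := Ci c1 (2 * L) (2 * (2 * L)))
    (B := fun G' => b ≤ Nn c1 L G1 G')
    (fun F G h _ hF => hF.mono h)
    (fun F G h _ hF => hF.trans (Nn_mono c1 L (Finset.Subset.refl _) h))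
  have i2 := Pr_harris (okq h0 h1') (S := S)
    (A := fun G' => Ci c1 (2 * L) (2 * (2 * L)) G' ∧ b ≤ Nn c1 L G1 G')
    (B := fun G' => b ≤ Nn c2 L G2 G')
    (fun F G h _ hF => ⟨hF.1.mono h, hF.2.trans (Nn_mono c1 L (Finset.Subset.refl _) h)⟩)
    (fun F G h _ hF => hF.trans (Nn_mono c2 L (Finset.Subset.refl _) h))
  have hk4 : 0 ≤ κ ^ 4 := by positivity
  have j1 := (mul_le_mul k1 h1 hδ (hk4.trans k1)).trans i1
  exact (mul_le_mul j1 h2 hδ ((mul_nonneg hk4 hδ).trans j1)).trans i2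

/-- With high probability two good layers are linked by a third layer. -/
theorem pr_no_third (hW : H12S.Win p κ N) (hq0 : 0 ≤ q) (hq1 : q ≤ 1) (hL : 1 ≤ L)
    (hLN : 2 * L ≤ N) {b δ : ℝ} (hδ : 0 ≤ δ) (hδ1 : δ ≤ 1) (c1 c2 : Vtx) {K : ℕ} {S : Finset E3}
    (hS1 : ∀ j, j ≤ K → bo c1 (7 * L) ⊆ sl j S) (hS2 : ∀ j, j ≤ K → bo c2 (7 * L) ⊆ sl j S)
    (i j : ℕ) :
    Pr (wt p q) S (fun F => (Gd p c1 L b δ (sl i F) ∧ Gd p c2 L b δ (sl j F)) ∧
      ∀ k, k ≤ K → k ≠ i → k ≠ j → ¬ Lam c1 c2 L b (sl i F) (sl j F) (sl k F)) ≤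
      (1 - κ ^ 4 * δ * δ) ^ (K - 1) := by
  classical
  have h0 : 0 ≤ p := by linarith [hW.lo]
  have h1 : p ≤ 1 := by linarith [hW.hi]
  have ok := ok3 h0 h1 hq0 hq1
  have hκ := hW.kpos
  have hκ2 := hW.kle
  obtain ⟨A, hA⟩ : ∃ A : Finset E3, A = lay i (sl i S) ∪ lay j (sl j S) := ⟨_, rfl⟩
  have hAS : A ⊆ S := by rw [hA]; exact Finset.union_subset (lay_sl_sub i S) (lay_sl_sub j S)
  obtain ⟨B, hB⟩ : ∃ B : Finset E3, B = S \ A := ⟨_, rfl⟩
  have hSAB : S = A ∪ B := by rw [hB, Finset.union_sdiff_of_subset hAS]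
  have hd : Disjoint A B := by rw [hB]; exact Finset.disjoint_sdiff
  obtain ⟨J, hJ⟩ : ∃ J : Finset ℕ, J = ((range (K + 1)).erase i).erase j := ⟨_, rfl⟩
  have hJm : ∀ k, k ∈ J ↔ k ≤ K ∧ k ≠ i ∧ k ≠ j := by
    intro k
    rw [hJ, Finset.mem_erase, Finset.mem_erase, Finset.mem_range]
    omega
  have hJc : K - 1 ≤ J.card := by
    rw [hJ]
    have k1 := Finset.pred_card_le_card_erase (s := (range (K + 1)).erase i) (a := j)
    have k2 := Finset.pred_card_le_card_erase (s := range (K + 1)) (a := i)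
    rw [Finset.card_range] at k2
    omega
  have hslB : ∀ k, k ≠ i → k ≠ j → sl k B = sl k S := by
    intro k hki hkj
    ext e
    rw [mem_sl, mem_sl, hB, Finset.mem_sdiff, hA, Finset.mem_union, inl_mem_lay, inl_mem_lay]
    constructor
    · exact fun h => h.1
    · intro h
      exact ⟨h, fun h' => h'.elim (fun h'' => hki h''.1) (fun h'' => hkj h''.1)⟩
  have hsliB : sl i B = ∅ := by
    ext e
    rw [mem_sl, hB, Finset.mem_sdiff, hA, Finset.mem_union, inl_mem_lay, inl_mem_lay]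
    constructor
    · rintro ⟨h1, h2⟩
      exact absurd (Or.inl ⟨rfl, mem_sl.mpr h1⟩) h2
    · intro h; exact absurd h (Finset.notMem_empty _)
  have hsljB : sl j B = ∅ := by
    ext e
    rw [mem_sl, hB, Finset.mem_sdiff, hA, Finset.mem_union, inl_mem_lay, inl_mem_lay]
    constructor
    · rintro ⟨h1, h2⟩
      exact absurd (Or.inr ⟨rfl, mem_sl.mpr h1⟩) h2
    · intro h; exact absurd h (Finset.notMem_empty _)
  obtain ⟨r, hr⟩ : ∃ r : ℝ, r = 1 - κ ^ 4 * δ * δ := ⟨_, rfl⟩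
  rw [← hr]
  have hr1 : r ≤ 1 := by
    rw [hr]
    have : 0 ≤ κ ^ 4 * δ * δ := by positivity
    linarith
  have hr0 : 0 ≤ r := by
    have h4 : κ ^ 4 ≤ 1 := pow_le_one₀ hκ.le (by linarith)
    have h5 : κ ^ 4 * δ ≤ 1 := by nlinarith
    have h6 : κ ^ 4 * δ * δ ≤ 1 := by nlinarith
    rw [hr]
    linarith
  unfold Pr
  rw [hSAB, Ex_union hd]
  apply Ex_le_of_le ok
  intro FA hFA
  have kA : ∀ k, k ≠ i → k ≠ j → sl k FA = ∅ := by
    intro k hki hkj
    rw [← Finset.subset_empty]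
    refine (sl_mono hFA).trans ?_
    rw [hA, sl_union, sl_lay_ne hki, sl_lay_ne hkj, Finset.union_empty]
  by_cases hg : Gd p c1 L b δ (sl i FA) ∧ Gd p c2 L b δ (sl j FA)
  · have e1 : Ex (wt p q) B (fun FB => ind ((Gd p c1 L b δ (sl i (FA ∪ FB)) ∧
        Gd p c2 L b δ (sl j (FA ∪ FB))) ∧ ∀ k, k ≤ K → k ≠ i → k ≠ j →
        ¬ Lam c1 c2 L b (sl i (FA ∪ FB)) (sl j (FA ∪ FB)) (sl k (FA ∪ FB)))) ≤
        Ex (wt p q) B (fun FB => ∏ k ∈ J,
          ind (¬ Lam c1 c2 L b (sl i FA) (sl j FA) (sl k FB ∩ sl k B))) := by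
      apply Ex_mono ok
      intro FB hFB
      have k1 : sl i FB = ∅ := by
        rw [← Finset.subset_empty, ← hsliB]; exact sl_mono hFB
      have k2 : sl j FB = ∅ := by
        rw [← Finset.subset_empty, ← hsljB]; exact sl_mono hFB
      rw [sl_union, sl_union, k1, k2, Finset.union_empty, Finset.union_empty]
      by_cases hh : ∀ k, k ≤ K → k ≠ i → k ≠ j →
          ¬ Lam c1 c2 L b (sl i FA) (sl j FA) (sl k (FA ∪ FB))
      · have : ∏ k ∈ J,
            ind (¬ Lam c1 c2 L b (sl i FA) (sl j FA) (sl k FB ∩ sl k B)) = 1 := by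
          apply Finset.prod_eq_one
          intro k hk
          rw [hJm] at hk
          apply ind_of
          have := hh k hk.1 hk.2.1 hk.2.2
          rw [sl_union, kA k hk.2.1 hk.2.2, Finset.empty_union] at this
          rwa [Finset.inter_eq_left.mpr (sl_mono hFB)]
        rw [this]
        exact ind_le_one _
      · rw [ind_not_of (fun h => hh h.2)]
        exact Finset.prod_nonneg fun _ _ => ind_nonneg _
    refine e1.trans ?_
    rw [Ex_prod_indep J (fun k => lay k (sl k B))]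
    · have h3 : ∀ k ∈ J, Ex (wt p q) B
          (fun FB => ind (¬ Lam c1 c2 L b (sl i FA) (sl j FA) (sl k FB ∩ sl k B))) ≤ r := by
        intro k hk
        rw [hJm] at hk
        have e2 : Ex (wt p q) B
          (fun FB => ind (¬ Lam c1 c2 L b (sl i FA) (sl j FA) (sl k FB ∩ sl k B))) =
          1 - Pr (fun _ => p) (sl k B) (Lam c1 c2 L b (sl i FA) (sl j FA)) := by
          rw [← Pr_not, ← Pr_sl p q B k (fun G => ¬ Lam c1 c2 L b (sl i FA) (sl j FA) G)]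
          apply Ex_congr
          intro F hF
          rw [Finset.inter_eq_left.mpr (sl_mono hF)]
        rw [e2, hslB k hk.2.1 hk.2.2, hr]
        have := pr_Lam hW hL hLN hδ c1 c2 (hS1 k hk.1) (hS2 k hk.1) hg.1.2 hg.2.2
        linarith
      refine (Finset.prod_le_prod (fun k _ => Ex_nonneg ok (fun F _ => ind_nonneg _)) h3).trans ?_
      rw [Finset.prod_const]
      exact pow_le_pow_of_le_one hr0 hr1 hJc
    · intro k _
      exact lay_sl_sub k B
    · intro k _ k' _ hne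
      exact lay_disj hne _ _
    · intro k _ F
      rw [sl_inter, sl_lay, Finset.inter_assoc, Finset.inter_self]
  · have e1 : Ex (wt p q) B (fun FB => ind ((Gd p c1 L b δ (sl i (FA ∪ FB)) ∧
        Gd p c2 L b δ (sl j (FA ∪ FB))) ∧ ∀ k, k ≤ K → k ≠ i → k ≠ j →
        ¬ Lam c1 c2 L b (sl i (FA ∪ FB)) (sl j (FA ∪ FB)) (sl k (FA ∪ FB)))) = 0 := by
      rw [Ex_congr (g := fun _ => (0:ℝ)), Ex_const]
      intro FB hFB
      have k1 : sl i FB = ∅ := by
        rw [← Finset.subset_empty, ← hsliB]; exact sl_mono hFB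
      have k2 : sl j FB = ∅ := by
        rw [← Finset.subset_empty, ← hsljB]; exact sl_mono hFB
      rw [sl_union, sl_union, k1, k2, Finset.union_empty, Finset.union_empty]
      exact ind_not_of (fun h => hg h.1)
    rw [e1]
    positivity

end

end Pool.Agent.TH987.AN.Lay
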