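import Pool.Agent.TH987.AN.Link

/-!
The hubs of neighbouring blocks are connected.
-/

set_option autoImplicit false

namespace Pool.Agent.TH987.AN.Lay

open Finset H974 Pool.Agent.H160R2.CV H362P
open Pool.Agent.H160R2.CV.Quad Pool.Agent.TH967.VT

/-! ### locality -/

theorem Hv_locB {c : Vtx} {L : ℕ} {v : Vtx} (hv : v ∈ Bc c L) {B : Finset Edg}
    (hB : bo c (7 * L) ⊆ B) (G : Finset Edg) : Hv c L v G ↔ Hv c L v (G ∩ B) := by
  rw [Hv_loc hv G, Hv_loc hv (G ∩ B), Finset.inter_assoc, Finset.inter_eq_right.mpr hB]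

theorem Ci_loc {c : Vtx} {L : ℕ} {B : Finset Edg} (hB : bo c (7 * L) ⊆ B) (G : Finset Edg) :
    Ci c (2 * L) (2 * (2 * L)) G ↔ Ci c (2 * L) (2 * (2 * L)) (G ∩ B) := by
  unfold Ci
  rw [← LRc_local (F := G) (S := B), ← LRc_local (F := G) (S := B),
    ← TBc_local (F := G) (S := B), ← TBc_local (F := G) (S := B)]
  · rintro ⟨x, y, _ | _⟩ h
    · apply hB
      simp only [mem_TBE_false] at h
      simp only [bo, mem_RE_false]
      omega
    · apply hB
      simp only [mem_TBE_true] at h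
      simp only [bo, mem_RE_true]
      omega
  · rintro ⟨x, y, _ | _⟩ h
    · apply hB
      simp only [mem_TBE_false] at h
      simp only [bo, mem_RE_false]
      omega
    · apply hB
      simp only [mem_TBE_true] at h
      simp only [bo, mem_RE_true]
      omega
  · rintro ⟨x, y, _ | _⟩ h
    · apply hB
      simp only [mem_LRE_false] at h
      simp only [bo, mem_RE_false]
      omega
    · apply hB
      simp only [mem_LRE_true] at h
      simp only [bo, mem_RE_true]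
      omega
  · rintro ⟨x, y, _ | _⟩ h
    · apply hB
      simp only [mem_LRE_false] at h
      simp only [bo, mem_RE_false]
      omega
    · apply hB
      simp only [mem_LRE_true] at h
      simp only [bo, mem_RE_true]
      omega

theorem Gd_loc (p : ℝ) {c : Vtx} {L : ℕ} (b δ : ℝ) {B : Finset Edg} (hB : bo c (7 * L) ⊆ B)
    (G : Finset Edg) : Gd p c L b δ G ↔ Gd p c L b δ (G ∩ B) := by
  unfold Gd
  rw [← Ci_loc hB G]
  have e : phi p c L b G = phi p c L b (G ∩ B) := by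
    unfold phi
    apply Pr_congr
    intro F _
    have : Nn c L G F = Nn c L (G ∩ B) F := by
      unfold Nn
      apply Finset.sum_congr rfl
      intro v hv
      rw [ind_congr (Hv_locB hv hB G)]
    rw [this]
  rw [e]

/-- A layer with a large overlap function contains many vertices with a long connection. -/
theorem count {p q κ a K0 : ℝ} {N : ℕ} (H : Hyp p q κ a K0 N) {L : ℕ} (hL : 1 ≤ L) {b δ : ℝ}
    (hb : 0 < b) {c : Vtx} {G : Finset Edg} (h : δ ≤ phi p c L b G) :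
    δ * b ≤ (∑ v ∈ Bc c L, ind (Hv c L v G)) * (K0 * (L : ℝ) ^ (-(5 / 48 : ℝ))) := by
  have okp := okq H.p0 (by linarith [H.hp] : p ≤ 1)
  have h1 := h.trans (markov okp (bo c (7 * L)) (X := fun G' => Nn c L G G')
    (fun F => Nn_nonneg _ _ _ _) hb)
  rw [le_div_iff₀ hb] at h1
  refine h1.trans ?_
  unfold Nn
  rw [Ex_sum, Finset.sum_mul]
  apply Finset.sum_le_sum
  intro v hv
  rw [Ex_mul_left]
  exact mul_le_mul_of_nonneg_left (a_up H.p0 H.hp hL (H.up L) hv _) (ind_nonneg _)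

/-! ### hubs -/

open scoped Classical in
/-- the hub of a block in a layer -/
noncomputable def hub (c : Vtx) (L : ℕ) (G : Finset Edg) : Vtx :=
  if h : ∃ z, ∀ u v : Vtx, nv (u - c) ≤ 2 * L → 2 * (2 * L) ≤ nv (v - c) →
    Reach (↑G : Set Edg) u v → Reach (↑G : Set Edg) u z then h.choose else c

theorem hub_spec {c : Vtx} {L : ℕ} (hL : 1 ≤ L) {G : Finset Edg}
    (h : Ci c (2 * L) (2 * (2 * L)) G) {u v : Vtx} (hu : nv (u - c) ≤ 2 * L)
    (hv : 2 * (2 * L) ≤ nv (v - c)) (hr : Reach (↑G : Set Edg) u v) :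
    Reach (↑G : Set Edg) u (hub c L G) := by
  classical
  have hex : ∃ z, ∀ u v : Vtx, nv (u - c) ≤ 2 * L → 2 * (2 * L) ≤ nv (v - c) →
    Reach (↑G : Set Edg) u v → Reach (↑G : Set Edg) u z :=
    CA_meet (by omega) (CA_of_Ci h)
  unfold hub
  rw [dif_pos hex]
  exact hex.choose_spec u v hu hv hr

theorem Hv_hub {c : Vtx} {L : ℕ} (hL : 1 ≤ L) {G : Finset Edg}
    (h : Ci c (2 * L) (2 * (2 * L)) G) {v : Vtx} (hv : v ∈ Bc c L) (hH : Hv c L v G) :
    Reach (↑G : Set Edg) v (hub c L G) := by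
  obtain ⟨w, hw, hr⟩ := hH v (Finset.mem_singleton_self v)
  rw [mem_Bc] at hv
  unfold Ou at hw
  exact hub_spec hL h (by omega) (by omega) hr

/-- a covered common vertex -/
theorem cov_of_not_Un {K l n L : ℕ} {b : ℝ} {c : Vtx} {i j : ℕ} {F : Finset E3}
    (h : b ≤ Nn c L (sl i F) (sl j F)) (h' : ¬ Un K l n L b c i j F) :
    ∃ v ∈ Bc c L, Hv c L v (sl i F) ∧ Hv c L v (sl j F) ∧ Cov K l n v F := by
  by_contra hc
  push Not at hc
  apply h'
  unfold Un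
  refine h.trans (le_of_eq ?_)
  unfold Nn
  apply Finset.sum_congr rfl
  intro v hv
  by_cases h1 : Hv c L v (sl i F)
  · by_cases h2 : Hv c L v (sl j F)
    · rw [ind_of (hc v hv h1 h2), mul_one]
    · rw [ind_not_of h2]
      ring
  · rw [ind_not_of h1]
    ring

/-- a covered common vertex connects the layers -/
theorem cov_conn {K l n L : ℕ} (hl : 1 ≤ l) (hL : L = 16 ^ n * l) {c : Vtx} {i j : ℕ}
    {F : Finset E3} {v : Vtx} (hv : v ∈ Bc c L) (h : Cov K l n v F) (hi : i ≤ K) (hj : j ≤ K)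
    (h1 : Hv c L v (sl i F)) (h2 : Hv c L v (sl j F)) : R3 (↑F : Set E3) (i, v) (j, v) := by
  obtain ⟨k, hk, hT⟩ := h
  rw [mem_Bc] at hv
  obtain ⟨w1, hw1, hr1⟩ := h1 v (Finset.mem_singleton_self v)
  obtain ⟨w2, hw2, hr2⟩ := h2 v (Finset.mem_singleton_self v)
  unfold Ou at hw1 hw2
  have hm : 16 * (16 ^ k * l) ≤ L := by
    rw [hL]
    have : 16 ^ (k + 1) ≤ 16 ^ n := Nat.pow_le_pow_right (by norm_num) hk
    calc 16 * (16 ^ k * l) = 16 ^ (k + 1) * l := by ring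
      _ ≤ _ := Nat.mul_le_mul_right _ this
  have hm1 : 1 ≤ 16 ^ k * l := Nat.mul_pos (by positivity) hl
  have t1 := nv_tri' w1 v c
  have t2 := nv_tri' w2 v c
  exact T0_conn hm1 (hT.mono Finset.inter_subset_left) hi hj (by omega) (by omega) hr1 hr2

/-- the open coarse edges, local version -/
def Op (p b δ : ℝ) (K l n L : ℕ) (c1 c2 : Vtx) (F : Finset E3) : Prop :=
  O0 p b δ K l n L c1 c2 (F ∩ (BK K c1 (7 * L) ∪ BK K c2 (7 * L)))

theorem link_hub {p b δ : ℝ} {K l n L : ℕ} (hl : 1 ≤ l) (hL : L = 16 ^ n * l) {c1 c2 : Vtx}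
    (hc : nv (c2 - c1) ≤ L) {F : Finset E3} (h : Op p b δ K l n L c1 c2 F) {i j : ℕ}
    (hi : i ≤ K) (hj : j ≤ K) (h1 : Gd p c1 L b δ (sl i F)) (h2 : Gd p c2 L b δ (sl j F)) :
    R3 (↑F : Set E3) (i, hub c1 L (sl i F)) (j, hub c2 L (sl j F)) := by
  have hL1 : 1 ≤ L := by rw [hL]; exact Nat.mul_pos (by positivity) hl
  obtain ⟨B, hB⟩ : ∃ B : Finset E3, B = BK K c1 (7 * L) ∪ BK K c2 (7 * L) := ⟨_, rfl⟩
  unfold Op at h
  rw [← hB] at h
  have b1 : ∀ k, k ≤ K → bo c1 (7 * L) ⊆ sl k B := by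
    intro k hk
    rw [← sl_BK hk, hB]
    exact sl_mono Finset.subset_union_left
  have b2 : ∀ k, k ≤ K → bo c2 (7 * L) ⊆ sl k B := by
    intro k hk
    rw [← sl_BK hk, hB]
    exact sl_mono Finset.subset_union_right
  obtain ⟨-, h3, h4⟩ := h
  have h1' : Gd p c1 L b δ (sl i (F ∩ B)) := by
    rw [sl_inter, ← Gd_loc p b δ (b1 i hi)]
    exact h1
  have h2' : Gd p c2 L b δ (sl j (F ∩ B)) := by
    rw [sl_inter, ← Gd_loc p b δ (b2 j hj)]
    exact h2
  obtain ⟨k, hk, hki, hkj, ⟨⟨l1, l2⟩, l3⟩⟩ := h3 i j (by omega) (by omega) h1' h2'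
  have u1 := (h4 i k (by omega) (by omega) (Ne.symm hki)).1
  have u2 := (h4 j k (by omega) (by omega) (Ne.symm hkj)).2
  obtain ⟨v1, hv1, p1, p2, p3⟩ := cov_of_not_Un l2 u1
  obtain ⟨v2, hv2, q1, q2, q3⟩ := cov_of_not_Un l3 u2
  have sF : F ∩ B ⊆ F := Finset.inter_subset_left
  have sF' : (↑(F ∩ B) : Set E3) ⊆ ↑F := by exact_mod_cast sF
  have r1 := (cov_conn hl hL hv1 p3 hi hk p1 p2).mono sF'
  have r2 := (cov_conn hl hL hv2 q3 hj hk q1 q2).mono sF'
  -- inside the third layer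
  obtain ⟨w1, hw1, hr1⟩ := p2 v1 (Finset.mem_singleton_self v1)
  obtain ⟨w2, hw2, hr2⟩ := q2 v2 (Finset.mem_singleton_self v2)
  rw [mem_Bc] at hv1 hv2
  unfold Ou at hw1 hw2
  have t1 := nv_tri' v2 c2 c1
  have t2 := nv_tri' w2 c1 c2
  have t3 := nv_comm' c1 c2
  have m1 := hub_spec hL1 l1 (by omega : nv (v1 - c1) ≤ 2 * L) (by omega) hr1
  have m2 := hub_spec hL1 l1 (by omega : nv (v2 - c1) ≤ 2 * L) (by omega) hr2
  have r3 : R3 (↑F : Set E3) (k, v1) (k, v2) :=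
    (R3_of_layer (m1.trans m2.symm)).mono sF'
  -- inside the layers `i` and `j`
  have g1 : Hv c1 L v1 (sl i F) := OE.mono (by exact_mod_cast sl_mono sF) p1
  have g2 : Hv c2 L v2 (sl j F) := OE.mono (by exact_mod_cast sl_mono sF) q1
  have r4 : R3 (↑F : Set E3) (i, v1) (i, hub c1 L (sl i F)) :=
    R3_of_layer (Hv_hub hL1 h1.1 (mem_Bc.mpr hv1) g1)
  have r5 : R3 (↑F : Set E3) (j, v2) (j, hub c2 L (sl j F)) :=
    R3_of_layer (Hv_hub hL1 h2.1 (mem_Bc.mpr hv2) g2)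
  exact r4.symm.trans (r1.trans (r3.trans (r2.symm.trans r5)))

/-! ### the coarse lattice -/

/-- the centre of a block -/
def cz (L : ℕ) (z : Vtx) : Vtx := (L * z.1, L * z.2)

/-- the coarse edge is open -/
def Oe (p b δ : ℝ) (K l n L : ℕ) (e : Edg) (F : Finset E3) : Prop :=
  Op p b δ K l n L (cz L (src e)) (cz L (tgt e)) F

/-- the edges which matter for a coarse edge -/
noncomputable def le3 (K L : ℕ) (e : Edg) : Finset E3 :=
  BK K (cz L (src e)) (7 * L) ∪ BK K (cz L (tgt e)) (7 * L)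

theorem BK_far {K L : ℕ} (hL : 1 ≤ L) {z z' : Vtx} (h : 15 ≤ |z.1 - z'.1| ∨ 15 ≤ |z.2 - z'.2|) :
    Disjoint (BK K (cz L z) (7 * L)) (BK K (cz L z') (7 * L)) := by
  have hL0 : (1:ℤ) ≤ L := by exact_mod_cast hL
  have key : ∀ s t : ℤ, 15 ≤ |s - t| → (L:ℤ) * s + 15 * L ≤ L * t ∨ (L:ℤ) * t + 15 * L ≤ L * s := by
    intro s t hst
    rcases le_abs.mp hst with h1 | h1
    · right
      nlinarith
    · left
      nlinarith
  have h' : ((L:ℤ) * z.1 + 15 * L ≤ L * z'.1 ∨ (L:ℤ) * z'.1 + 15 * L ≤ L * z.1) ∨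
      ((L:ℤ) * z.2 + 15 * L ≤ L * z'.2 ∨ (L:ℤ) * z'.2 + 15 * L ≤ L * z.2) := by
    rcases h with h | h
    · exact Or.inl (key _ _ h)
    · exact Or.inr (key _ _ h)
  rw [Finset.disjoint_left]
  rintro (⟨j, e⟩ | ⟨j, v⟩) h1 h2
  · rw [inl_mem_BK] at h1 h2
    obtain ⟨-, h1⟩ := h1
    obtain ⟨-, h2⟩ := h2
    obtain ⟨x, y, _ | _⟩ := e
    · simp only [bo, cz, mem_RE_false] at h1 h2
      push_cast at h1 h2
      omega
    · simp only [bo, cz, mem_RE_true] at h1 h2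
      push_cast at h1 h2
      omega
  · rw [inr_mem_BK, mem_Bc] at h1 h2
    obtain ⟨-, h1⟩ := h1
    obtain ⟨-, h2⟩ := h2
    unfold nv cz at h1 h2
    simp only [Prod.fst_sub, Prod.snd_sub] at h1 h2
    omega

section
variable {p q κ a K0 : ℝ} {N : ℕ}

theorem Cs_Oe (H : Hyp p q κ a K0 N) {l : ℕ} (hl : 1 ≤ l) {n : ℕ} {L : ℕ}
    (hL : L = 16 ^ n * l) (hLN : 16 * L ≤ N) (hqm : 1 ≤ q * (l : ℝ) ^ (43 / 24 : ℝ)) (K : ℕ) :
    Cs (wt p q) (Oe p (a ^ 2 * (L : ℝ) ^ (43 / 24 : ℝ)) (dl a K0) K l n L) (le3 K L)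
      (bnd κ a K0 K n) 17 := by
  have hL1 : 1 ≤ L := by rw [hL]; exact Nat.mul_pos (by positivity) hl
  refine ⟨?_, ?_, ?_⟩
  · intro e F
    unfold Oe Op le3
    rw [Finset.inter_assoc, Finset.inter_self]
  · intro e e' h
    have hs : ∀ e : Edg, (src e).1 = e.1 ∧ (src e).2 = e.2.1 := fun e => ⟨rfl, rfl⟩
    have ht : ∀ e : Edg, (e.1 ≤ (tgt e).1 ∧ (tgt e).1 ≤ e.1 + 1) ∧
        (e.2.1 ≤ (tgt e).2 ∧ (tgt e).2 ≤ e.2.1 + 1) := by
      rintro ⟨x, y, _ | _⟩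
      · simp
      · simp
    have s1 := hs e
    have s2 := hs e'
    have t1 := ht e
    have t2 := ht e'
    have far : ∀ z z' : Vtx, (e.1 ≤ z.1 ∧ z.1 ≤ e.1 + 1) → (e.2.1 ≤ z.2 ∧ z.2 ≤ e.2.1 + 1) →
        (e'.1 ≤ z'.1 ∧ z'.1 ≤ e'.1 + 1) → (e'.2.1 ≤ z'.2 ∧ z'.2 ≤ e'.2.1 + 1) →
        Disjoint (BK K (cz L z) (7 * L)) (BK K (cz L z') (7 * L)) := by
      intro z z' a1 a2 a3 a4
      apply BK_far hL1
      rcases h with h | h
      · left
        rcases le_abs.mp h with h1 | h1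
        · exact le_abs.mpr (Or.inl (by push_cast at h1; omega))
        · exact le_abs.mpr (Or.inr (by push_cast at h1; omega))
      · right
        rcases le_abs.mp h with h1 | h1
        · exact le_abs.mpr (Or.inl (by push_cast at h1; omega))
        · exact le_abs.mpr (Or.inr (by push_cast at h1; omega))
    unfold le3
    rw [Finset.disjoint_union_left, Finset.disjoint_union_right, Finset.disjoint_union_right]
    refine ⟨⟨?_, ?_⟩, ⟨?_, ?_⟩⟩
    · exact far _ _ (by omega) (by omega) (by omega) (by omega)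
    · exact far _ _ (by omega) (by omega) (by omega) (by omega)
    · exact far _ _ (by omega) (by omega) (by omega) (by omega)
    · exact far _ _ (by omega) (by omega) (by omega) (by omega)
  · intro e S hS
    have e1 : Pr (wt p q) S
        (fun F => ¬ Oe p (a ^ 2 * (L : ℝ) ^ (43 / 24 : ℝ)) (dl a K0) K l n L e F) =
        Pr (wt p q) (le3 K L e) (fun F => ¬ O0 p (a ^ 2 * (L : ℝ) ^ (43 / 24 : ℝ)) (dl a K0) K l n
          L (cz L (src e)) (cz L (tgt e)) F) := by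
      rw [Pr_local hS (A := fun F => ¬ Oe p (a ^ 2 * (L : ℝ) ^ (43 / 24 : ℝ)) (dl a K0) K l n L e F)]
      · apply Pr_congr
        intro F hF
        unfold Oe Op
        unfold le3 at hF
        rw [Finset.inter_eq_left.mpr hF]
      · intro F _
        unfold Oe Op le3
        rw [Finset.inter_assoc, Finset.inter_self]
    rw [e1]
    exact pr_not_O0 H hl hL hLN hqm Finset.subset_union_left Finset.subset_union_right

end

open scoped Classical in
/-- the chosen good layer of a block -/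
noncomputable def gl (p b δ : ℝ) (K L : ℕ) (F : Finset E3) (z : Vtx) : ℕ :=
  if h : ∃ i, i < K + 1 ∧ Gd p (cz L z) L b δ (sl i F) then h.choose else 0

theorem gl_spec {p b δ : ℝ} {K L : ℕ} {F : Finset E3} {z : Vtx}
    (h : ∃ i, i < K + 1 ∧ Gd p (cz L z) L b δ (sl i F)) :
    gl p b δ K L F z < K + 1 ∧ Gd p (cz L z) L b δ (sl (gl p b δ K L F z) F) := by
  classical
  unfold gl
  rw [dif_pos h]
  exact h.choose_spec

/-- the hub of a block -/
noncomputable def hb (p b δ : ℝ) (K L : ℕ) (F : Finset E3) (z : Vtx) : ℕ × Vtx :=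
  (gl p b δ K L F z, hub (cz L z) L (sl (gl p b δ K L F z) F))

theorem good_of_Oe {p b δ : ℝ} {K l n L : ℕ} {e : Edg} {F : Finset E3}
    (h : Oe p b δ K l n L e F) :
    (∃ i, i < K + 1 ∧ Gd p (cz L (src e)) L b δ (sl i F)) ∧
    (∃ i, i < K + 1 ∧ Gd p (cz L (tgt e)) L b δ (sl i F)) := by
  obtain ⟨⟨⟨i, hi, h1⟩, ⟨j, hj, h2⟩⟩, -, -⟩ := h
  refine ⟨⟨i, hi, ?_⟩, ⟨j, hj, ?_⟩⟩
  · rw [sl_inter, ← Gd_loc p b δ] at h1
    · exact h1
    · rw [← sl_BK (by omega : i ≤ K)]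
      exact sl_mono Finset.subset_union_left
  · rw [sl_inter, ← Gd_loc p b δ] at h2
    · exact h2
    · rw [← sl_BK (by omega : j ≤ K)]
      exact sl_mono Finset.subset_union_right

theorem hb_edge {p b δ : ℝ} {K l n L : ℕ} (hl : 1 ≤ l) (hL : L = 16 ^ n * l) {e : Edg}
    {F : Finset E3} (h : Oe p b δ K l n L e F) :
    R3 (↑F : Set E3) (hb p b δ K L F (src e)) (hb p b δ K L F (tgt e)) := by
  obtain ⟨g1, g2⟩ := good_of_Oe h
  obtain ⟨i1, i2⟩ := gl_spec g1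
  obtain ⟨j1, j2⟩ := gl_spec g2
  refine link_hub hl hL ?_ h (by omega) (by omega) i2 j2
  obtain ⟨x, y, _ | _⟩ := e
  · unfold nv cz
    simp only [Prod.fst_sub, Prod.snd_sub, src_mk, tgt_false]
    have : (L:ℤ) * (y + 1) - L * y = L := by ring
    rw [this, sub_self]
    omega
  · unfold nv cz
    simp only [Prod.fst_sub, Prod.snd_sub, src_mk, tgt_true]
    have : (L:ℤ) * (x + 1) - L * x = L := by ring
    rw [this, sub_self]
    omega

theorem hb_adj {p b δ : ℝ} {K l n L : ℕ} (hl : 1 ≤ l) (hL : L = 16 ^ n * l) {z z' : Vtx}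
    {F : Finset E3} (h : Adj {e | Oe p b δ K l n L e F} z z') :
    R3 (↑F : Set E3) (hb p b δ K L F z) (hb p b δ K L F z') ∧
    (∃ i, i < K + 1 ∧ Gd p (cz L z) L b δ (sl i F)) ∧
    (∃ i, i < K + 1 ∧ Gd p (cz L z') L b δ (sl i F)) := by
  obtain ⟨e, he, ⟨rfl, rfl⟩ | ⟨rfl, rfl⟩⟩ := h
  · rw [Set.mem_ofPred_eq] at he
    exact ⟨hb_edge hl hL he, (good_of_Oe he).1, (good_of_Oe he).2⟩
  · rw [Set.mem_ofPred_eq] at he
    exact ⟨(hb_edge hl hL he).symm, (good_of_Oe he).2, (good_of_Oe he).1⟩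

theorem hb_reach {p b δ : ℝ} {K l n L : ℕ} (hl : 1 ≤ l) (hL : L = 16 ^ n * l) {z z' : Vtx}
    {F : Finset E3} (h : Reach {e | Oe p b δ K l n L e F} z z') :
    R3 (↑F : Set E3) (hb p b δ K L F z) (hb p b δ K L F z') := by
  induction h with
  | refl => exact R3.refl _ _
  | tail _ hs ih => exact ih.trans (hb_adj hl hL hs).1

/-- connection to distance `M` -/
def Far (M : ℕ) (x : ℕ × Vtx) (F : Finset E3) : Prop :=
  ∃ u : ℕ × Vtx, M ≤ nv u.2 ∧ R3 (↑F : Set E3) x u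

theorem far_conn {p q κ a K0 : ℝ} {N : ℕ} (H : Hyp p q κ a K0 N) {K l n L : ℕ} (hl : 1 ≤ l)
    (hL : L = 16 ^ n * l) {b δ : ℝ} (hb0 : 0 < b) (hδ : 0 < δ) {z z' : Vtx} {F : Finset E3}
    (h : Reach {e | Oe p b δ K l n L e F} z z') (hne : z ≠ z') {M : ℕ} (hM : M + 1 ≤ nv z') :
    ∃ i, i < K + 1 ∧ δ ≤ phi p (cz L z) L b (sl i F) ∧
      ∀ v ∈ Bc (cz L z) L, Hv (cz L z) L v (sl i F) → Far M (i, v) F := by
  have hL1 : 1 ≤ L := by rw [hL]; exact Nat.mul_pos (by positivity) hl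
  have hz : ∃ i, i < K + 1 ∧ Gd p (cz L z) L b δ (sl i F) := by
    rcases Relation.ReflTransGen.cases_head h with h1 | ⟨c, h1, -⟩
    · exact absurd h1 hne
    · exact (hb_adj hl hL h1).2.1
  have hz' : ∃ i, i < K + 1 ∧ Gd p (cz L z') L b δ (sl i F) := by
    rcases Relation.ReflTransGen.cases_tail h with h1 | ⟨c, -, h1⟩
    · exact absurd h1.symm hne
    · exact (hb_adj hl hL h1).2.2
  obtain ⟨i1, i2⟩ := gl_spec hz
  obtain ⟨j1, j2⟩ := gl_spec hz'
  have hr := hb_reach hl hL h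
  refine ⟨_, i1, i2.2, ?_⟩
  intro v hv hH
  -- a vertex of the far block
  have hcnt := count H hL1 hb0 j2.2
  have hpos : 0 < ∑ v ∈ Bc (cz L z') L, ind (Hv (cz L z') L v (sl (gl p b δ K L F z') F)) := by
    by_contra hc
    rw [not_lt] at hc
    have h1 : 0 < K0 * (L : ℝ) ^ (-(5 / 48 : ℝ)) := by
      have := H.K1
      have : (0:ℝ) < L := by exact_mod_cast hL1
      positivity
    have h2 : 0 < δ * b := by positivity
    nlinarith
  obtain ⟨x, hx, hpx⟩ := Finset.exists_ne_zero_of_sum_ne_zero hpos.ne'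
  have hxH : Hv (cz L z') L x (sl (gl p b δ K L F z') F) := by
    by_contra hc
    rw [ind_not_of hc] at hpx
    exact hpx rfl
  refine ⟨(gl p b δ K L F z', x), ?_, ?_⟩
  · rw [mem_Bc] at hx
    have h1 : L * nv z' ≤ nv (cz L z') := by
      unfold nv cz
      simp only [Int.natAbs_mul, Int.natAbs_natCast]
      rcases max_choice z'.1.natAbs z'.2.natAbs with h2 | h2
      · rw [h2]
        exact le_max_left _ _
      · rw [h2]
        exact le_max_right _ _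
    have h2 : L * (M + 1) ≤ L * nv z' := Nat.mul_le_mul_left _ hM
    have h3 : L * (M + 1) = L * M + L := by ring
    have h4 : M ≤ L * M := Nat.le_mul_of_pos_left _ hL1
    have h5 : nv (cz L z') ≤ nv (x - cz L z') + nv x := by
      unfold nv
      simp only [Prod.fst_sub, Prod.snd_sub]
      omega
    simp only
    omega
  · have r1 : R3 (↑F : Set E3) (gl p b δ K L F z, v) (hb p b δ K L F z) :=
      R3_of_layer (Hv_hub hL1 i2.1 hv hH)
    have r2 : R3 (↑F : Set E3) (gl p b δ K L F z', x) (hb p b δ K L F z') :=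
      R3_of_layer (Hv_hub hL1 j2.1 hx hxH)
    exact r1.trans (hr.trans r2.symm)

/-- The lower bound for the number of vertices with a far connection. -/
theorem far_low {p q κ a K0 : ℝ} {N : ℕ} (H : Hyp p q κ a K0 N) {K l n L : ℕ} (hl : 1 ≤ l)
    (hL : L = 16 ^ n * l) (hLN : 16 * L ≤ N) (hqm : 1 ≤ q * (l : ℝ) ^ (43 / 24 : ℝ))
    (hη : 81 * (2 * 17 * bnd κ a K0 K n) ≤ 1 / 4) (M : ℕ) :
    ∃ S0 : Finset E3, ∀ S, S0 ⊆ S →
      dl a K0 * a ^ 2 / (2 * K0) * (L : ℝ) ^ (91 / 48 : ℝ) ≤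
        ∑ y ∈ range 18, ∑ i ∈ range (K + 1), ∑ v ∈ Bc (cz L (0, (y : ℤ))) L,
          Pr (wt p q) S (Far M (i, v)) := by
  have ok := H.ok
  have ha := H.apos
  have hK1 := H.K1
  have hL1 : 1 ≤ L := by rw [hL]; exact Nat.mul_pos (by positivity) hl
  have hL0 : (0:ℝ) < L := by exact_mod_cast hL1
  obtain ⟨b, hb⟩ : ∃ b : ℝ, b = a ^ 2 * (L : ℝ) ^ (43 / 24 : ℝ) := ⟨_, rfl⟩
  obtain ⟨δ, hδ⟩ : ∃ δ : ℝ, δ = dl a K0 := ⟨_, rfl⟩
  have hb0 : 0 < b := by rw [hb]; positivity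
  have hδ0 : 0 < δ := by rw [hδ]; exact dl_pos H.apos H.K1
  have hC := Cs_Oe H hl hL hLN hqm K
  rw [← hb, ← hδ] at hC
  have hη0 : 0 ≤ bnd κ a K0 K n :=
    (Pr_nonneg ok _ _).trans (hC.bound ((0:ℤ), (0:ℤ), true) _ subset_rfl)
  obtain ⟨S0, hS0⟩ := coarse ok hη0 hC (by norm_num) (by exact_mod_cast hη) (M + 18)
  refine ⟨S0, fun S hS => ?_⟩
  have h1 := hS0 S hS
  obtain ⟨D, hD⟩ : ∃ D : ℝ, D = δ * b / (K0 * (L : ℝ) ^ (-(5 / 48 : ℝ))) := ⟨_, rfl⟩
  have hD0 : 0 < D := by rw [hD]; positivity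
  have hDe : dl a K0 * a ^ 2 / (2 * K0) * (L : ℝ) ^ (91 / 48 : ℝ) = D * (1 / 2) := by
    rw [hD, hb, ← hδ]
    have e : (L : ℝ) ^ (91 / 48 : ℝ) * (L : ℝ) ^ (-(5 / 48 : ℝ)) = (L : ℝ) ^ (43 / 24 : ℝ) := by
      rw [← Real.rpow_add hL0]; norm_num
    rw [← e]
    have h2 : (L : ℝ) ^ (-(5 / 48 : ℝ)) ≠ 0 := by positivity
    field_simp
  rw [hDe]
  have h2 : Pr (wt p q) S (fun F => ∃ y : ℤ, 0 ≤ y ∧ y ≤ (17:ℕ) ∧
      ∃ z : Vtx, M + 18 ≤ nv z ∧ Reach {e | Oe p b δ K l n L e F} (0, y) z) ≤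
      Pr (wt p q) S (fun F => D ≤ ∑ y ∈ range 18, ∑ i ∈ range (K + 1),
        ∑ v ∈ Bc (cz L (0, (y : ℤ))) L, ind (Far M (i, v) F)) := by
    apply Pr_mono ok
    rintro F _ ⟨y, hy0, hy1, z, hz, hr⟩
    have hne : ((0:ℤ), y) ≠ z := by
      intro h
      rw [← h] at hz
      unfold nv at hz
      simp only at hz
      omega
    obtain ⟨i, hi, h3, h4⟩ := far_conn H hl hL hb0 hδ0 hr hne (M := M) (by omega)
    have h5 := count H hL1 hb0 h3
    have h6 : D ≤ ∑ v ∈ Bc (cz L (0, y)) L, ind (Hv (cz L (0, y)) L v (sl i F)) := by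
      rw [hD, div_le_iff₀ (by positivity)]
      exact h5
    refine h6.trans ?_
    obtain ⟨m, rfl⟩ : ∃ m : ℕ, y = m := ⟨y.toNat, by omega⟩
    have h7 : ∑ v ∈ Bc (cz L (0, (m:ℤ))) L, ind (Hv (cz L (0, (m:ℤ))) L v (sl i F)) ≤
        ∑ v ∈ Bc (cz L (0, (m:ℤ))) L, ind (Far M (i, v) F) := by
      apply Finset.sum_le_sum
      intro v hv
      exact ind_mono (h4 v hv)
    refine h7.trans ?_
    have h8 := Finset.single_le_sum (s := range (K + 1))
      (f := fun i => ∑ v ∈ Bc (cz L (0, (m:ℤ))) L, ind (Far M (i, v) F))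
      (fun i _ => Finset.sum_nonneg fun _ _ => ind_nonneg _) (Finset.mem_range.mpr hi)
    refine le_trans h8 ?_
    exact Finset.single_le_sum (s := range 18)
      (f := fun y : ℕ => ∑ i ∈ range (K + 1), ∑ v ∈ Bc (cz L (0, (y : ℤ))) L, ind (Far M (i, v) F))
      (fun y _ => Finset.sum_nonneg fun _ _ => Finset.sum_nonneg fun _ _ => ind_nonneg _)
      (Finset.mem_range.mpr (by omega))
  have h3 := h1.trans (h2.trans (markov ok S
    (X := fun F => ∑ y ∈ range 18, ∑ i ∈ range (K + 1),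
        ∑ v ∈ Bc (cz L (0, (y : ℤ))) L, ind (Far M (i, v) F))
    (fun F => Finset.sum_nonneg fun _ _ => Finset.sum_nonneg fun _ _ =>
      Finset.sum_nonneg fun _ _ => ind_nonneg _) hD0))
  rw [le_div_iff₀ hD0] at h3
  rw [mul_comm]
  refine h3.trans (le_of_eq ?_)
  rw [Ex_sum]
  apply Finset.sum_congr rfl
  intro y _
  rw [Ex_sum]
  apply Finset.sum_congr rfl
  intro i _
  rw [Ex_sum]
  rfl

end Pool.Agent.TH987.AN.Lay
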