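import Pool.Agent.TH987.AN.Good
import Pool.Agent.TH987.AN.Coarse

/-!
The open coarse edges, and their probability.
-/

set_option autoImplicit false

namespace Pool.Agent.TH987.AN.Lay

open Finset H974 Pool.Agent.H160R2.CV H362P
open Pool.Agent.H160R2.CV.Quad Pool.Agent.TH967.VT

/-- the parameters -/
structure Hyp (p q κ a K0 : ℝ) (N : ℕ) : Prop where
  win : H12S.Win p κ N
  hp : p ≤ 1 / 2
  q0 : 0 ≤ q
  q1 : q ≤ 1
  apos : 0 < a
  K1 : 1 ≤ K0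
  up : ∀ n, ArmUp (1 / 2) K0 n
  low : ∀ m : ℕ, 1 ≤ m → 16 * m ≤ N → a * (m : ℝ) ^ (-(5 / 48 : ℝ)) ≤ arm p (8 * m)

/-- the uncovered overlap is large -/
def Un (K l n L : ℕ) (b : ℝ) (c : Vtx) (i j : ℕ) (F : Finset E3) : Prop :=
  b ≤ ∑ v ∈ Bc c L, ind (Hv c L v (sl i F)) * ind (Hv c L v (sl j F)) * ind (¬ Cov K l n v F)

section gen
variable {E : Type*} [DecidableEq E]

theorem markov {w : E → ℝ} (ok : Ok w) (S : Finset E) {X : Finset E → ℝ}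
    (hX : ∀ F, 0 ≤ X F) {b : ℝ} (hb : 0 < b) :
    Pr w S (fun F => b ≤ X F) ≤ Ex w S X / b := by
  rw [le_div_iff₀ hb, mul_comm]
  unfold Pr
  rw [← Ex_mul_left]
  apply Ex_mono ok
  intro F _
  by_cases h : b ≤ X F
  · rw [ind_of h]; linarith
  · rw [ind_not_of h, mul_zero]; exact hX F

end gen

section
variable {p q κ a K0 : ℝ} {N : ℕ}

theorem Hyp.p0 (H : Hyp p q κ a K0 N) : 0 ≤ p := by linarith [H.win.lo]

theorem Hyp.ok (H : Hyp p q κ a K0 N) : Ok (wt p q) :=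
  ok3 H.p0 (by linarith [H.hp]) H.q0 H.q1

theorem pr_Un (H : Hyp p q κ a K0 N) {l : ℕ} (hl : 1 ≤ l) {n : ℕ}
    (hmN : 16 ^ n * l ≤ N) (hqm : 1 ≤ q * (l : ℝ) ^ (43 / 24 : ℝ)) {K L : ℕ} (hL : 1 ≤ L)
    {c : Vtx} {i j : ℕ} (hij : i ≠ j) {S : Finset E3}
    (hS : ∀ v ∈ Bc c L, ∀ k, k < n → An3 K (16 ^ k * l) v ⊆ S) :
    Pr (wt p q) S (Un K l n L (a ^ 2 * (L : ℝ) ^ (43 / 24 : ℝ)) c i j) ≤
      9 * K0 ^ 2 / a ^ 2 * (1 - dT κ a K0 ^ K) ^ n := by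
  have ok := H.ok
  have h0 := H.p0
  have ha := H.apos
  have hL0 : (0:ℝ) < L := by exact_mod_cast hL
  obtain ⟨g, hg⟩ : ∃ g : ℝ, g = (L : ℝ) ^ (43 / 24 : ℝ) := ⟨_, rfl⟩
  have hg0 : 0 < g := by rw [hg]; positivity
  rw [← hg]
  obtain ⟨ρ, hρ⟩ : ∃ ρ : ℝ, ρ = (1 - dT κ a K0 ^ K) ^ n := ⟨_, rfl⟩
  have hcov : ∀ v ∈ Bc c L, Pr (wt p q) S (fun F => ¬ Cov K l n v F) ≤ ρ := by
    intro v hv
    rw [hρ]
    exact pr_not_Cov H.win H.hp H.q0 H.q1 H.apos H.K1 hl H.up H.low hmN hqm (hS v hv)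
  rw [← hρ]
  have hmk := markov ok S (X := fun F => ∑ v ∈ Bc c L, ind (Hv c L v (sl i F)) *
    ind (Hv c L v (sl j F)) * ind (¬ Cov K l n v F))
    (fun F => Finset.sum_nonneg fun v _ => mul_nonneg (mul_nonneg (ind_nonneg _) (ind_nonneg _))
      (ind_nonneg _)) (b := a ^ 2 * g) (by positivity)
  refine hmk.trans ?_
  rw [div_le_iff₀ (by positivity), Ex_sum]
  have h1 : ∀ v ∈ Bc c L, Ex (wt p q) S (fun F => ind (Hv c L v (sl i F)) *
      ind (Hv c L v (sl j F)) * ind (¬ Cov K l n v F)) ≤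
      Pr (fun _ => p) (sl i S) (Hv c L v) * Pr (fun _ => p) (sl j S) (Hv c L v) * ρ := by
    intro v hv
    have h2 : Ex (wt p q) S (fun F => ind (Hv c L v (sl i F)) *
      ind (Hv c L v (sl j F)) * ind (¬ Cov K l n v F)) =
      Pr (wt p q) S (fun F => (Hv c L v (sl i F) ∧ Hv c L v (sl j F)) ∧ ¬ Cov K l n v F) := by
      apply Ex_congr
      intro F _
      rw [ind_and, ind_and]
    have h3 := Pr_harris_decr ok (S := S) (A := fun F => Hv c L v (sl i F) ∧ Hv c L v (sl j F))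
      (B := fun F => ¬ Cov K l n v F)
      (fun F G h _ hF => ⟨OE.mono (by exact_mod_cast sl_mono h) hF.1,
        OE.mono (by exact_mod_cast sl_mono h) hF.2⟩)
      (fun F G h hG hF => by
        simp only [not_not] at hF ⊢
        exact Cov_incr S K l n v F G h hG hF)
    have h4 : Pr (wt p q) S (fun F => Hv c L v (sl i F) ∧ Hv c L v (sl j F)) =
        Pr (fun _ => p) (sl i S) (Hv c L v) * Pr (fun _ => p) (sl j S) (Hv c L v) := by
      have := Ex_sl_mul p q S hij (fun G => ind (Hv c L v G)) (fun G => ind (Hv c L v G))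
      unfold Pr
      rw [← this]
      apply Ex_congr
      intro F _
      rw [ind_and]
    rw [h4] at h3
    rw [h2]
    refine h3.trans (mul_le_mul_of_nonneg_left (hcov v hv) ?_)
    have okp := okq h0 (by linarith [H.hp] : p ≤ 1)
    exact mul_nonneg (Pr_nonneg okp _ _) (Pr_nonneg okp _ _)
  refine (Finset.sum_le_sum h1).trans ?_
  rw [← Finset.sum_mul]
  have h5 := sum_upp (c := c) h0 H.hp H.K1 hL (H.up L) (sl i S) (sl j S)
  rw [← hg] at h5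
  have hρ0 : 0 ≤ ρ := by
    have hc : c ∈ Bc c L := by rw [mem_Bc, sub_self]; unfold nv; simp
    exact (Pr_nonneg ok _ _).trans (hcov c hc)
  refine (mul_le_mul_of_nonneg_right h5 hρ0).trans (le_of_eq ?_)
  field_simp

end

/-- the slab box -/
noncomputable def BK (K : ℕ) (c : Vtx) (R : ℕ) : Finset E3 :=
  ((range (K + 1)).biUnion fun j => lay j (bo c R)) ∪
    ((range (K + 1)) ×ˢ (Bc c R)).map ⟨Sum.inr, Sum.inr_injective⟩

theorem inl_mem_BK {K R : ℕ} {c : Vtx} {j : ℕ} {e : Edg} :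
    (Sum.inl (j, e) : E3) ∈ BK K c R ↔ j ≤ K ∧ e ∈ bo c R := by
  unfold BK
  rw [Finset.mem_union, Finset.mem_biUnion]
  constructor
  · rintro (⟨i, hi, h⟩ | h)
    · rw [inl_mem_lay] at h
      rw [Finset.mem_range] at hi
      exact ⟨by omega, h.2⟩
    · rw [Finset.mem_map] at h
      obtain ⟨x, -, hx⟩ := h
      cases hx
  · rintro ⟨h1, h2⟩
    left
    exact ⟨j, by rw [Finset.mem_range]; omega, inl_mem_lay.mpr ⟨rfl, h2⟩⟩

theorem inr_mem_BK {K R : ℕ} {c : Vtx} {j : ℕ} {v : Vtx} :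
    (Sum.inr (j, v) : E3) ∈ BK K c R ↔ j ≤ K ∧ v ∈ Bc c R := by
  unfold BK
  rw [Finset.mem_union, Finset.mem_biUnion]
  constructor
  · rintro (⟨i, hi, h⟩ | h)
    · exact absurd h inr_mem_lay
    · rw [Finset.mem_map] at h
      obtain ⟨⟨i, w⟩, hx, h2⟩ := h
      rw [Finset.mem_product, Finset.mem_range] at hx
      have h3 : (Sum.inr (i, w) : E3) = Sum.inr (j, v) := h2
      have h4 := Prod.mk.inj (Sum.inr.inj h3)
      refine ⟨by have := hx.1; simp only at this; omega, ?_⟩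
      rw [← h4.2]
      exact hx.2
  · rintro ⟨h1, h2⟩
    right
    rw [Finset.mem_map]
    refine ⟨(j, v), ?_, rfl⟩
    rw [Finset.mem_product, Finset.mem_range]
    exact ⟨by simp only; omega, h2⟩

theorem sl_BK {K R : ℕ} {c : Vtx} {j : ℕ} (hj : j ≤ K) : sl j (BK K c R) = bo c R := by
  ext e
  rw [mem_sl, inl_mem_BK]
  simp [hj]

theorem An3_sub_BK {K L m : ℕ} {c v : Vtx} (hv : v ∈ Bc c L) (hm : 16 * m ≤ L) :
    An3 K m v ⊆ BK K c (7 * L) := by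
  rw [mem_Bc] at hv
  rintro (⟨j, e⟩ | ⟨j, x⟩) h
  · rw [inl_mem_An3] at h
    rw [inl_mem_BK]
    refine ⟨h.1, ?_⟩
    exact bo_sub_bo (by omega) (Finset.sdiff_subset h.2)
  · rw [inr_mem_An3, mem_Bc] at h
    rw [inr_mem_BK, mem_Bc]
    refine ⟨h.1, ?_⟩
    obtain ⟨-, h⟩ := h
    unfold nv yc at *
    simp only [Prod.fst_sub, Prod.snd_sub] at *
    omega

/-- the event that a coarse edge is open, for its two end blocks -/
def O0 (p b δ : ℝ) (K l n L : ℕ) (c1 c2 : Vtx) (F : Finset E3) : Prop :=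
  ((∃ i, i < K + 1 ∧ Gd p c1 L b δ (sl i F)) ∧ (∃ i, i < K + 1 ∧ Gd p c2 L b δ (sl i F))) ∧
  (∀ i j, i < K + 1 → j < K + 1 → Gd p c1 L b δ (sl i F) → Gd p c2 L b δ (sl j F) →
    ∃ k, k ≤ K ∧ k ≠ i ∧ k ≠ j ∧ Lam c1 c2 L b (sl i F) (sl j F) (sl k F)) ∧
  (∀ i j, i < K + 1 → j < K + 1 → i ≠ j → ¬ Un K l n L b c1 i j F ∧ ¬ Un K l n L b c2 i j F)

section
variable {p q κ a K0 : ℝ} {N : ℕ}

/-- no layer is good -/
theorem pr_no_Gd (H : Hyp p q κ a K0 N) {L : ℕ} (hL : 1 ≤ L) (hLN : 16 * L ≤ N) {K : ℕ}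
    {c : Vtx} {S : Finset E3} (hS : ∀ j, j ≤ K → bo c (7 * L) ⊆ sl j S) :
    Pr (wt p q) S (fun F => ¬ ∃ i, i < K + 1 ∧
      Gd p c L (a ^ 2 * (L : ℝ) ^ (43 / 24 : ℝ)) (dl a K0) (sl i F)) ≤
      (1 - κ ^ 4 * dl a K0) ^ (K + 1) := by
  have ok := H.ok
  have h0 := H.p0
  have h1 : p ≤ 1 := by linarith [H.hp]
  obtain ⟨b, hb⟩ : ∃ b : ℝ, b = a ^ 2 * (L : ℝ) ^ (43 / 24 : ℝ) := ⟨_, rfl⟩
  rw [← hb]
  have e1 : Pr (wt p q) S (fun F => ¬ ∃ i, i < K + 1 ∧ Gd p c L b (dl a K0) (sl i F)) =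
      Ex (wt p q) S (fun F => ∏ i ∈ range (K + 1),
        ind (¬ Gd p c L b (dl a K0) (sl i F ∩ sl i S))) := by
    apply Ex_congr
    intro F hF
    by_cases h : ∃ i, i < K + 1 ∧ Gd p c L b (dl a K0) (sl i F)
    · rw [ind_not_of (not_not.mpr h)]
      obtain ⟨i, hi, h2⟩ := h
      symm
      apply Finset.prod_eq_zero (Finset.mem_range.mpr hi)
      rw [Finset.inter_eq_left.mpr (sl_mono hF)]
      exact ind_not_of (not_not.mpr h2)
    · rw [ind_of h]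
      symm
      apply Finset.prod_eq_one
      intro i hi
      apply ind_of
      rw [Finset.inter_eq_left.mpr (sl_mono hF)]
      intro h2
      exact h ⟨i, Finset.mem_range.mp hi, h2⟩
  rw [e1, Ex_prod_indep (range (K + 1)) (fun k => lay k (sl k S))]
  · have h3 : ∀ i ∈ range (K + 1), Ex (wt p q) S
        (fun F => ind (¬ Gd p c L b (dl a K0) (sl i F ∩ sl i S))) ≤ 1 - κ ^ 4 * dl a K0 := by
      intro i hi
      rw [Finset.mem_range] at hi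
      have e2 : Ex (wt p q) S
          (fun F => ind (¬ Gd p c L b (dl a K0) (sl i F ∩ sl i S))) =
          1 - Pr (fun _ => p) (sl i S) (Gd p c L b (dl a K0)) := by
        rw [← Pr_not, ← Pr_sl p q S i (fun G => ¬ Gd p c L b (dl a K0) G)]
        apply Ex_congr
        intro F hF
        rw [Finset.inter_eq_left.mpr (sl_mono hF)]
      rw [e2]
      have := pr_Gd H.win H.hp H.apos H.K1 hL (H.up _) (H.low L hL hLN) (by omega) c
        (hS i (by omega))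
      rw [← hb] at this
      linarith
    refine (Finset.prod_le_prod (fun k _ => Ex_nonneg ok (fun F _ => ind_nonneg _)) h3).trans ?_
    rw [Finset.prod_const, Finset.card_range]
  · intro k _
    exact lay_sl_sub k S
  · intro k _ k' _ hne
    exact lay_disj hne _ _
  · intro k _ F
    rw [sl_inter, sl_lay, Finset.inter_assoc, Finset.inter_self]

theorem dl_le_one (H : Hyp p q κ a K0 N) {L : ℕ} (hL : 1 ≤ L) (hLN : 16 * L ≤ N) :
    dl a K0 ≤ 1 := by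
  have h1 := pr_phi H.p0 H.hp H.apos H.K1 hL (H.up _) (H.low L hL hLN) (0, 0)
    (S := bo (0, 0) (7 * L)) subset_rfl
  exact h1.trans (Pr_le_one (okq H.p0 (by linarith [H.hp])) _ _)

/-- the probability that a coarse edge is closed -/
noncomputable def bnd (κ a K0 : ℝ) (K n : ℕ) : ℝ :=
  2 * (1 - κ ^ 4 * dl a K0) ^ (K + 1) +
  (K + 1) * ((K + 1) * (1 - κ ^ 4 * dl a K0 * dl a K0) ^ (K - 1)) +
  (K + 1) * ((K + 1) * (2 * (9 * K0 ^ 2 / a ^ 2 * (1 - dT κ a K0 ^ K) ^ n)))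

theorem pr_not_O0 (H : Hyp p q κ a K0 N) {l : ℕ} (hl : 1 ≤ l) {n : ℕ} {L : ℕ}
    (hL : L = 16 ^ n * l) (hLN : 16 * L ≤ N) (hqm : 1 ≤ q * (l : ℝ) ^ (43 / 24 : ℝ)) {K : ℕ}
    {c1 c2 : Vtx} {S : Finset E3} (hS1 : BK K c1 (7 * L) ⊆ S) (hS2 : BK K c2 (7 * L) ⊆ S) :
    Pr (wt p q) S (fun F => ¬ O0 p (a ^ 2 * (L : ℝ) ^ (43 / 24 : ℝ)) (dl a K0) K l n L c1 c2 F) ≤
      bnd κ a K0 K n := by
  have ok := H.ok
  have hL1 : 1 ≤ L := by rw [hL]; exact Nat.mul_pos (by positivity) hl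
  obtain ⟨b, hb⟩ : ∃ b : ℝ, b = a ^ 2 * (L : ℝ) ^ (43 / 24 : ℝ) := ⟨_, rfl⟩
  obtain ⟨δ, hδ⟩ : ∃ δ : ℝ, δ = dl a K0 := ⟨_, rfl⟩
  have hδ0 : 0 ≤ δ := by rw [hδ]; exact (dl_pos H.apos H.K1).le
  have hδ1 : δ ≤ 1 := by rw [hδ]; exact dl_le_one H hL1 hLN
  have hsl1 : ∀ j, j ≤ K → bo c1 (7 * L) ⊆ sl j S := fun j hj => by
    rw [← sl_BK hj]; exact sl_mono hS1
  have hsl2 : ∀ j, j ≤ K → bo c2 (7 * L) ⊆ sl j S := fun j hj => by
    rw [← sl_BK hj]; exact sl_mono hS2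
  have hAn : ∀ c : Vtx, BK K c (7 * L) ⊆ S → ∀ v ∈ Bc c L, ∀ k, k < n →
      An3 K (16 ^ k * l) v ⊆ S := by
    intro c hc v hv k hk
    refine (An3_sub_BK hv ?_).trans hc
    rw [hL]
    have : 16 ^ (k + 1) ≤ 16 ^ n := Nat.pow_le_pow_right (by norm_num) hk
    calc 16 * (16 ^ k * l) = 16 ^ (k + 1) * l := by ring
      _ ≤ _ := Nat.mul_le_mul_right _ this
  have g1 := pr_no_Gd H hL1 hLN hsl1
  have g2 := pr_no_Gd H hL1 hLN hsl2
  have g3 : ∀ i j, Pr (wt p q) S (fun F => (Gd p c1 L b δ (sl i F) ∧ Gd p c2 L b δ (sl j F)) ∧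
      ∀ k, k ≤ K → k ≠ i → k ≠ j → ¬ Lam c1 c2 L b (sl i F) (sl j F) (sl k F)) ≤
      (1 - κ ^ 4 * δ * δ) ^ (K - 1) := fun i j =>
    pr_no_third H.win H.q0 H.q1 hL1 (by omega) hδ0 hδ1 c1 c2 hsl1 hsl2 i j
  have g4 : ∀ c : Vtx, BK K c (7 * L) ⊆ S → ∀ i j, i ≠ j →
      Pr (wt p q) S (Un K l n L b c i j) ≤ 9 * K0 ^ 2 / a ^ 2 * (1 - dT κ a K0 ^ K) ^ n := by
    intro c hc i j hij
    rw [hb]
    exact pr_Un H hl (by omega) hqm hL1 hij (hAn c hc)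
  have hρ : 0 ≤ 9 * K0 ^ 2 / a ^ 2 * (1 - dT κ a K0 ^ K) ^ n :=
    (Pr_nonneg ok _ _).trans (g4 c1 hS1 0 1 (by norm_num))
  rw [← hb, ← hδ]
  rw [← hb, ← hδ] at g1 g2
  have main : Pr (wt p q) S (fun F => ¬ O0 p b δ K l n L c1 c2 F) ≤
      Pr (wt p q) S (fun F => ((¬ ∃ i, i < K + 1 ∧ Gd p c1 L b δ (sl i F)) ∨
        (¬ ∃ i, i < K + 1 ∧ Gd p c2 L b δ (sl i F))) ∨
        ((∃ i, i < K + 1 ∧ ∃ j, j < K + 1 ∧
          (Gd p c1 L b δ (sl i F) ∧ Gd p c2 L b δ (sl j F)) ∧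
          ∀ k, k ≤ K → k ≠ i → k ≠ j → ¬ Lam c1 c2 L b (sl i F) (sl j F) (sl k F)) ∨
        (∃ i, i < K + 1 ∧ ∃ j, j < K + 1 ∧ (i ≠ j ∧
          (Un K l n L b c1 i j F ∨ Un K l n L b c2 i j F))))) := by
    apply Pr_mono ok
    intro F _ hF
    by_contra hc
    apply hF
    push Not at hc
    obtain ⟨⟨h1, h2⟩, h3, h4⟩ := hc
    refine ⟨⟨h1, h2⟩, ?_, ?_⟩
    · intro i j hi hj hgi hgj
      exact h3 i hi j hj ⟨hgi, hgj⟩
    · intro i j hi hj hij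
      exact h4 i hi j hj hij
  refine main.trans ((Pr_or_le ok _ _ _).trans ?_)
  have m1 := Pr_or_le ok S (fun F => ¬ ∃ i, i < K + 1 ∧ Gd p c1 L b δ (sl i F))
    (fun F => ¬ ∃ i, i < K + 1 ∧ Gd p c2 L b δ (sl i F))
  have m2 := Pr_or_le ok S (fun F => ∃ i, i < K + 1 ∧ ∃ j, j < K + 1 ∧
          (Gd p c1 L b δ (sl i F) ∧ Gd p c2 L b δ (sl j F)) ∧
          ∀ k, k ≤ K → k ≠ i → k ≠ j → ¬ Lam c1 c2 L b (sl i F) (sl j F) (sl k F))
      (fun F => ∃ i, i < K + 1 ∧ ∃ j, j < K + 1 ∧ (i ≠ j ∧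
          (Un K l n L b c1 i j F ∨ Un K l n L b c2 i j F)))
  have m3 := Pr_ex_le' ok S (fun i F => ∃ j, j < K + 1 ∧
          (Gd p c1 L b δ (sl i F) ∧ Gd p c2 L b δ (sl j F)) ∧
          ∀ k, k ≤ K → k ≠ i → k ≠ j → ¬ Lam c1 c2 L b (sl i F) (sl j F) (sl k F)) (K + 1)
    (α := ((K + 1 : ℕ) : ℝ) * (1 - κ ^ 4 * δ * δ) ^ (K - 1)) (fun i _ =>
      Pr_ex_le' ok S _ (K + 1) (fun j _ => g3 i j))
  have m4 := Pr_ex_le' ok S (fun i F => ∃ j, j < K + 1 ∧ (i ≠ j ∧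
          (Un K l n L b c1 i j F ∨ Un K l n L b c2 i j F))) (K + 1)
    (α := ((K + 1 : ℕ) : ℝ) * (2 * (9 * K0 ^ 2 / a ^ 2 * (1 - dT κ a K0 ^ K) ^ n))) (fun i _ =>
      Pr_ex_le' ok S _ (K + 1) (fun j _ => by
        by_cases hij : i = j
        · have : Pr (wt p q) S (fun F => i ≠ j ∧
            (Un K l n L b c1 i j F ∨ Un K l n L b c2 i j F)) = 0 := by
            unfold Pr
            rw [Ex_congr (g := fun _ => (0:ℝ)), Ex_const]
            intro F _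
            exact ind_not_of (fun h => h.1 hij)
          rw [this]
          linarith
        · refine (Pr_mono ok (fun F _ h => h.2)).trans ((Pr_or_le ok S _ _).trans ?_)
          have k1 := g4 c1 hS1 i j hij
          have k2 := g4 c2 hS2 i j hij
          linarith))
  unfold bnd
  rw [← hδ]
  push_cast at m3 m4
  linarith

end

end Pool.Agent.TH987.AN.Lay
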