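import Mathlib

/-!
Product measures: independence of events depending on disjoint sets of coordinates;
measurability of connection events.
-/

set_option autoImplicit false

open MeasureTheory Set

namespace Pool.Agent.TH987.AN

section prod
variable {ι : Type} (P : ι → Measure Bool) [∀ i, IsProbabilityMeasure (P i)]

open scoped Classical in
/-- mix two configurations -/
noncomputable def gl (J : Set ι) (x : (ι → Bool) × (ι → Bool)) : ι → Bool :=
  fun i => if i ∈ J then x.1 i else x.2 i

omit [∀ i, IsProbabilityMeasure (P i)] in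
theorem gl_in {J : Set ι} {x : (ι → Bool) × (ι → Bool)} {i : ι} (h : i ∈ J) :
    gl J x i = x.1 i := by unfold gl; rw [if_pos h]

theorem gl_out {J : Set ι} {x : (ι → Bool) × (ι → Bool)} {i : ι} (h : i ∉ J) :
    gl J x i = x.2 i := by unfold gl; rw [if_neg h]

theorem measurable_gl (J : Set ι) : Measurable (gl J) := by
  rw [measurable_pi_iff]
  intro i
  by_cases h : i ∈ J
  · simp only [gl_in h]; fun_prop
  · simp only [gl_out h]; fun_prop

theorem map_gl (J : Set ι) :
    ((Measure.infinitePi P).prod (Measure.infinitePi P)).map (gl J) = Measure.infinitePi P := by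
  classical
  apply Measure.eq_infinitePi
  intro s t ht
  rw [Measure.map_apply (measurable_gl J) (MeasurableSet.pi s.countable_toSet fun i _ => ht i)]
  have h : gl J ⁻¹' (Set.pi (s : Set ι) t) =
      (Set.pi ((s.filter (· ∈ J) : Finset ι) : Set ι) t) ×ˢ
      (Set.pi ((s.filter (· ∉ J) : Finset ι) : Set ι) t) := by
    ext x
    simp only [mem_preimage, Set.mem_pi, Finset.mem_coe, mem_prod, Finset.mem_filter, and_imp]
    constructor
    · intro h
      refine ⟨fun i hi hJ => ?_, fun i hi hJ => ?_⟩
      · have := h i hi; rwa [gl_in hJ] at this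
      · have := h i hi; rwa [gl_out hJ] at this
    · rintro ⟨h1, h2⟩ i hi
      by_cases hJ : i ∈ J
      · rw [gl_in hJ]; exact h1 i hi hJ
      · rw [gl_out hJ]; exact h2 i hi hJ
  rw [h, Measure.prod_prod]
  rw [Measure.infinitePi_pi _ (fun i _ => ht i), Measure.infinitePi_pi _ (fun i _ => ht i)]
  rw [← Finset.prod_filter_mul_prod_filter_not s (· ∈ J)]

/-- The event `A` depends only on the coordinates in `S`. -/
def DepOn (A : Set (ι → Bool)) (S : Set ι) : Prop :=
  ∀ ω ω' : ι → Bool, (∀ c ∈ S, ω c = ω' c) → (ω ∈ A ↔ ω' ∈ A)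

theorem indep {S T : Set ι} {A B : Set (ι → Bool)} (hA : DepOn A S) (hB : DepOn B T)
    (hST : Disjoint S T) (hAm : MeasurableSet A) (hBm : MeasurableSet B) :
    Measure.infinitePi P (A ∩ B) = Measure.infinitePi P A * Measure.infinitePi P B := by
  conv_lhs => rw [← map_gl P S]
  rw [Measure.map_apply (measurable_gl S) (hAm.inter hBm)]
  have h : gl S ⁻¹' (A ∩ B) = A ×ˢ B := by
    ext x
    simp only [mem_preimage, mem_inter_iff, mem_prod]
    refine and_congr ?_ ?_
    · exact hA _ _ fun i hi => gl_in hi
    · exact hB _ _ fun i hi => gl_out fun h => Set.disjoint_left.1 hST h hi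
  rw [h, Measure.prod_prod]

end prod

section graph
variable {Ω W : Type} [MeasurableSpace Ω] [Countable W]

theorem reach_meas (G : Ω → SimpleGraph W) (h : ∀ u v, MeasurableSet {ω | (G ω).Adj u v})
    (x y : W) : MeasurableSet {ω | (G ω).Reachable x y} := by
  have key : ∀ n : ℕ, ∀ y, MeasurableSet {ω | ∃ w : (G ω).Walk x y, w.length = n} := by
    intro n
    induction n with
    | zero =>
      intro y
      by_cases hxy : x = y
      · subst hxy
        convert MeasurableSet.univ
        rw [Set.eq_univ_iff_forall]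
        intro ω
        exact ⟨SimpleGraph.Walk.nil, rfl⟩
      · convert MeasurableSet.empty
        rw [Set.eq_empty_iff_forall_notMem]
        rintro ω ⟨w, hw⟩
        exact hxy (SimpleGraph.Walk.eq_of_length_eq_zero hw)
    | succ n ih =>
      intro y
      have e : {ω | ∃ w : (G ω).Walk x y, w.length = n + 1} =
          ⋃ z, ({ω | ∃ w : (G ω).Walk x z, w.length = n} ∩ {ω | (G ω).Adj z y}) := by
        ext ω
        rw [Set.mem_iUnion]
        constructor
        · rintro ⟨w, hw⟩
          obtain ⟨z, h1, h2⟩ : ∃ z, (∃ w' : (G ω).Walk x z, w'.length = n) ∧ (G ω).Adj z y := by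
            have hr := w.reverse
            have hl : w.reverse.length = n + 1 := by rw [SimpleGraph.Walk.length_reverse, hw]
            cases hwr : w.reverse with
            | nil =>
              rw [hwr] at hl
              simp at hl
            | cons hadj p =>
              rename_i z
              rw [hwr] at hl
              rw [SimpleGraph.Walk.length_cons] at hl
              exact ⟨z, ⟨p.reverse, by rw [SimpleGraph.Walk.length_reverse]; omega⟩, hadj.symm⟩
          exact ⟨z, h1, h2⟩
        · rintro ⟨z, ⟨w, hw⟩, h2⟩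
          exact ⟨w.append (SimpleGraph.Walk.cons h2 SimpleGraph.Walk.nil), by
            rw [SimpleGraph.Walk.length_append, hw]; simp⟩
      rw [e]
      exact MeasurableSet.iUnion fun z => (ih z).inter (h z y)
  have e : {ω | (G ω).Reachable x y} = ⋃ n, {ω | ∃ w : (G ω).Walk x y, w.length = n} := by
    ext ω
    rw [Set.mem_iUnion]
    constructor
    · rintro ⟨w⟩
      exact ⟨w.length, w, rfl⟩
    · rintro ⟨n, w, -⟩
      exact ⟨w⟩
  rw [e]
  exact MeasurableSet.iUnion fun n => key n y

theorem inf_meas (P : Ω → W → Prop) (h : ∀ v, MeasurableSet {ω | P ω v}) :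
    MeasurableSet {ω | {v | P ω v}.Infinite} := by
  have e : {ω | {v | P ω v}.Infinite} = ⋂ F : Finset W, ⋃ v : {v // v ∉ F}, {ω | P ω v} := by
    ext ω
    simp only [Set.mem_iInter, Set.mem_iUnion, Set.mem_ofPred_eq]
    constructor
    · intro hi F
      obtain ⟨v, hv, hvF⟩ := hi.exists_notMem_finset F
      exact ⟨⟨v, hvF⟩, hv⟩
    · intro hi hf
      obtain ⟨v, hv⟩ := hi hf.toFinset
      exact v.2 (hf.mem_toFinset.mpr hv)
  rw [e]
  exact MeasurableSet.iInter fun F => MeasurableSet.iUnion fun v => h v

theorem eq_meas (P : Ω → W → Prop) (h : ∀ v, MeasurableSet {ω | P ω v}) (S : Set W) :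
    MeasurableSet {ω | {v | P ω v} = S} := by
  have e : {ω | {v | P ω v} = S} = ⋂ v, {ω | P ω v ↔ v ∈ S} := by
    ext ω
    simp only [Set.mem_iInter, Set.mem_ofPred_eq, Set.ext_iff]
  rw [e]
  refine MeasurableSet.iInter fun v => ?_
  by_cases hv : v ∈ S
  · have e2 : {ω | P ω v ↔ v ∈ S} = {ω | P ω v} := by ext ω; simp [hv]
    rw [e2]
    exact h v
  · have e2 : {ω | P ω v ↔ v ∈ S} = {ω | P ω v}ᶜ := by ext ω; simp [hv]
    rw [e2]
    exact (h v).compl

end graph

end Pool.Agent.TH987.AN
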