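import Pool.Agent.TH987.AN.Meas
import Pool.Agent.H974R2.Model

/-!
Anisotropic bond percolation on `ℤ^(s+2) = ℤ² × ℤ^s`.
-/

set_option autoImplicit false

open MeasureTheory Set

namespace Pool.Agent.TH987.AN

/-- the vertices of `ℤ^(s+2) = ℤ² × ℤ^s` -/
abbrev V (s : ℕ) : Type := (ℤ × ℤ) × (Fin s → ℤ)

/-- neighbours in a plane parallel to `ℤ²` -/
def Pl {s : ℕ} (u v : V s) : Prop := u.2 = v.2 ∧ |u.1.1 - v.1.1| + |u.1.2 - v.1.2| = 1

/-- neighbours in one of the other directions -/
def Pe {s : ℕ} (u v : V s) : Prop := u.1 = v.1 ∧ ∑ i, |u.2 i - v.2 i| = 1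

theorem Pl.symm {s : ℕ} {u v : V s} (h : Pl u v) : Pl v u :=
  ⟨h.1.symm, by rw [abs_sub_comm v.1.1, abs_sub_comm v.1.2]; exact h.2⟩

theorem Pe.symm {s : ℕ} {u v : V s} (h : Pe u v) : Pe v u :=
  ⟨h.1.symm, by
    rw [← h.2]
    exact Finset.sum_congr rfl fun i _ => abs_sub_comm _ _⟩

/-- the cubic lattice `ℤ^(s+2)` -/
def zd (s : ℕ) : SimpleGraph (V s) where
  Adj u v := Pl u v ∨ Pe u v
  symm := ⟨fun _ _ h => h.imp Pl.symm Pe.symm⟩
  loopless := ⟨fun u h => by
    rcases h with h | h
    · have := h.2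
      simp at this
    · have := h.2
      simp at this⟩

/-- the edge is parallel to `ℤ²` -/
def InPlane {s : ℕ} (e : Sym2 (V s)) : Prop := ∃ u v, e = s(u, v) ∧ Pl u v

open scoped Classical in
/-- the law of a configuration: the edges parallel to `ℤ²` are open with probability `p`, all
other edges with probability `q`, independently -/
noncomputable def law (s : ℕ) (p q : unitInterval) : Measure ((zd s).edgeSet → Bool) :=
  Measure.infinitePi (fun e =>
    ProbabilityTheory.bernoulliMeasure true false (if InPlane e.1 then p else q))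

/-- the graph formed by the open edges -/
def openGraph {s : ℕ} (ω : (zd s).edgeSet → Bool) : SimpleGraph (V s) :=
  SimpleGraph.fromEdgeSet {e | ∃ h : e ∈ (zd s).edgeSet, ω ⟨e, h⟩ = true}

/-- the open cluster of `x` -/
def cluster {s : ℕ} (ω : (zd s).edgeSet → Bool) (x : V s) : Set (V s) :=
  {y | (openGraph ω).Reachable x y}

/-- the probability that the open cluster of the origin is infinite -/
noncomputable def theta (s : ℕ) (p q : unitInterval) : ℝ :=
  (law s p q).real {ω | (cluster ω 0).Infinite}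

/-- the critical value of `p` -/
noncomputable def pc (s : ℕ) (q : unitInterval) : unitInterval := sSup {p | theta s p q = 0}

/-! ### Adjacency -/

/-- the edge `uv` is open -/
def op {s : ℕ} (ω : (zd s).edgeSet → Bool) (u v : V s) : Prop :=
  ∃ h : (zd s).Adj u v, ω ⟨s(u, v), h⟩ = true

theorem adj_iff {s : ℕ} (ω : (zd s).edgeSet → Bool) (u v : V s) :
    (openGraph ω).Adj u v ↔ op ω u v := by
  unfold openGraph op
  rw [SimpleGraph.fromEdgeSet_adj]
  constructor
  · rintro ⟨⟨h1, h2⟩, -⟩
    exact ⟨h1, h2⟩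
  · rintro ⟨h1, h2⟩
    exact ⟨⟨h1, h2⟩, h1.ne⟩

theorem op.symm {s : ℕ} {ω : (zd s).edgeSet → Bool} {u v : V s} (h : op ω u v) : op ω v u := by
  rw [← adj_iff] at h ⊢
  exact h.symm

/-- the open graph restricted to the vertices of `R` -/
def rg {s : ℕ} (ω : (zd s).edgeSet → Bool) (R : Set (V s)) : SimpleGraph (V s) where
  Adj u v := u ∈ R ∧ v ∈ R ∧ op ω u v
  symm := ⟨fun _ _ h => ⟨h.2.1, h.1, h.2.2.symm⟩⟩
  loopless := ⟨fun u h => by
    have := (adj_iff ω u u).mpr h.2.2
    exact this.ne rfl⟩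

theorem rg_univ {s : ℕ} (ω : (zd s).edgeSet → Bool) : rg ω univ = openGraph ω := by
  ext u v
  rw [adj_iff]
  simp [rg]

/-- the cluster inside `R` -/
def cl {s : ℕ} (ω : (zd s).edgeSet → Bool) (R : Set (V s)) (x : V s) : Set (V s) :=
  {y | (rg ω R).Reachable x y}

theorem cl_univ {s : ℕ} (ω : (zd s).edgeSet → Bool) (x : V s) : cl ω univ x = cluster ω x := by
  unfold cl cluster
  rw [rg_univ]

theorem cl_mono {s : ℕ} (ω : (zd s).edgeSet → Bool) {R R' : Set (V s)} (h : R ⊆ R') (x : V s) :
    cl ω R x ⊆ cl ω R' x := by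
  intro y hy
  have hle : rg ω R ≤ rg ω R' := by
    intro u v huv
    exact ⟨h huv.1, h huv.2.1, huv.2.2⟩
  exact SimpleGraph.Reachable.mono hle hy

theorem op_meas {s : ℕ} (u v : V s) : MeasurableSet {ω : (zd s).edgeSet → Bool | op ω u v} := by
  by_cases h : (zd s).Adj u v
  · have e : {ω : (zd s).edgeSet → Bool | op ω u v} =
        (fun ω : (zd s).edgeSet → Bool => ω ⟨s(u, v), h⟩) ⁻¹' {true} := by
      ext ω
      constructor
      · rintro ⟨_, h2⟩
        exact h2
      · intro h2
        exact ⟨h, h2⟩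
    rw [e]
    exact (measurable_pi_apply _) (measurableSet_singleton _)
  · have e : {ω : (zd s).edgeSet → Bool | op ω u v} = ∅ := by
      rw [Set.eq_empty_iff_forall_notMem]
      rintro ω ⟨h1, -⟩
      exact h h1
    rw [e]
    exact MeasurableSet.empty

theorem rg_meas {s : ℕ} (R : Set (V s)) (x y : V s) :
    MeasurableSet {ω : (zd s).edgeSet → Bool | (rg ω R).Reachable x y} := by
  apply reach_meas
  intro u v
  by_cases hu : u ∈ R
  · by_cases hv : v ∈ R
    · have e : {ω : (zd s).edgeSet → Bool | (rg ω R).Adj u v} = {ω | op ω u v} := by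
        ext ω
        exact ⟨fun h => h.2.2, fun h => ⟨hu, hv, h⟩⟩
      rw [e]
      exact op_meas u v
    · have e : {ω : (zd s).edgeSet → Bool | (rg ω R).Adj u v} = ∅ := by
        rw [Set.eq_empty_iff_forall_notMem]
        intro ω h
        exact hv h.2.1
      rw [e]
      exact MeasurableSet.empty
  · have e : {ω : (zd s).edgeSet → Bool | (rg ω R).Adj u v} = ∅ := by
      rw [Set.eq_empty_iff_forall_notMem]
      intro ω h
      exact hu h.1
    rw [e]
    exact MeasurableSet.empty

theorem cl_inf_meas {s : ℕ} (R : Set (V s)) (x : V s) :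
    MeasurableSet {ω : (zd s).edgeSet → Bool | (cl ω R x).Infinite} :=
  inf_meas (fun ω y => (rg ω R).Reachable x y) fun y => rg_meas R x y

theorem inf_clu_meas {s : ℕ} (x : V s) :
    MeasurableSet {ω : (zd s).edgeSet → Bool | (cluster ω x).Infinite} := by
  have := cl_inf_meas (s := s) univ x
  simpa only [cl_univ] using this

/-! ### Translations -/

theorem adj_add {s : ℕ} (z u v : V s) : (zd s).Adj (u + z) (v + z) ↔ (zd s).Adj u v := by
  show (Pl (u + z) (v + z) ∨ Pe (u + z) (v + z)) ↔ (Pl u v ∨ Pe u v)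
  refine or_congr (and_congr ?_ ?_) (and_congr ?_ ?_)
  · simp
  · simp
  · simp
  · simp

theorem pl_add {s : ℕ} (z u v : V s) : Pl (u + z) (v + z) ↔ Pl u v := by
  refine and_congr ?_ ?_
  · simp
  · simp

/-- translation of the edges -/
def sh {s : ℕ} (z : V s) (e : (zd s).edgeSet) : (zd s).edgeSet :=
  ⟨Sym2.map (· + z) e.1, by
    obtain ⟨e, he⟩ := e
    induction e using Sym2.ind with
    | _ u v =>
      rw [Sym2.map_mk, SimpleGraph.mem_edgeSet]
      exact (adj_add z u v).mpr he⟩

theorem sh_inj {s : ℕ} (z : V s) : Function.Injective (sh z) := by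
  intro e e' h
  have h1 : Sym2.map (· + z) e.1 = Sym2.map (· + z) e'.1 := congrArg Subtype.val h
  exact Subtype.ext (Sym2.map.injective (add_left_injective z) h1)

theorem inPlane_mk {s : ℕ} (u v : V s) : InPlane s(u, v) ↔ Pl u v := by
  constructor
  · rintro ⟨a, b, h1, h2⟩
    rcases Sym2.eq_iff.mp h1 with ⟨rfl, rfl⟩ | ⟨rfl, rfl⟩
    · exact h2
    · exact h2.symm
  · intro h
    exact ⟨u, v, rfl, h⟩

theorem inPlane_sh {s : ℕ} (z : V s) (e : (zd s).edgeSet) : InPlane (sh z e).1 ↔ InPlane e.1 := by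
  obtain ⟨e, he⟩ := e
  induction e using Sym2.ind with
  | _ u v =>
    show InPlane (Sym2.map (· + z) s(u, v)) ↔ InPlane s(u, v)
    rw [Sym2.map_mk, inPlane_mk, inPlane_mk]
    exact pl_add z u v

theorem law_sh {s : ℕ} (p q : unitInterval) (z : V s) :
    (law s p q).map (fun ω e => ω (sh z e)) = law s p q := by
  classical
  unfold law
  have h := Measure.map_infinitePi_infinitePi_of_inj (P := fun e : (zd s).edgeSet =>
    ProbabilityTheory.bernoulliMeasure true false (if InPlane e.1 then p else q)) (sh_inj z)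
  rw [h]
  congr 1
  funext e
  simp only [inPlane_sh]

theorem op_sh {s : ℕ} (ω : (zd s).edgeSet → Bool) (z u v : V s) :
    op (fun e => ω (sh z e)) u v ↔ op ω (u + z) (v + z) := by
  constructor
  · rintro ⟨h1, h2⟩
    exact ⟨(adj_add z u v).mpr h1, h2⟩
  · rintro ⟨h1, h2⟩
    exact ⟨(adj_add z u v).mp h1, h2⟩

theorem cluster_sh {s : ℕ} (ω : (zd s).edgeSet → Bool) (z x : V s) :
    (cluster (fun e => ω (sh z e)) x).Infinite ↔ (cluster ω (x + z)).Infinite := by
  let φ : openGraph (fun e => ω (sh z e)) ≃g openGraph ω :=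
    { toEquiv := Equiv.addRight z
      map_rel_iff' := by
        intro u v
        rw [adj_iff, adj_iff]
        exact (op_sh ω z u v).symm }
  have e : cluster ω (x + z) = (Equiv.addRight z) '' cluster (fun e => ω (sh z e)) x := by
    ext y
    constructor
    · intro hy
      refine ⟨y - z, ?_, by simp⟩
      have h1 : (openGraph ω).Reachable (φ x) (φ (y - z)) := by
        have e1 : φ x = x + z := rfl
        have e2 : φ (y - z) = y := by
          show y - z + z = y
          abel
        rw [e1, e2]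
        exact hy
      exact (SimpleGraph.Iso.reachable_iff (φ := φ)).mp h1
    · rintro ⟨w, hw, rfl⟩
      exact (SimpleGraph.Iso.reachable_iff (φ := φ)).mpr hw
  rw [e]
  exact (Set.infinite_image_iff ((Equiv.addRight z).injective.injOn)).symm

/-- translation invariance -/
theorem inf_eq {s : ℕ} (p q : unitInterval) (z : V s) :
    law s p q {ω | (cluster ω z).Infinite} = law s p q {ω | (cluster ω 0).Infinite} := by
  have hm : Measurable (fun (ω : (zd s).edgeSet → Bool) e => ω (sh z e)) := by fun_prop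
  conv_rhs => rw [← law_sh p q z]
  rw [Measure.map_apply hm (inf_clu_meas 0)]
  congr 1
  ext ω
  show (cluster ω z).Infinite ↔ (cluster (fun e => ω (sh z e)) 0).Infinite
  rw [cluster_sh, zero_add]

end Pool.Agent.TH987.AN
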