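import Pool.Agent.TH987.AN.E3

/-!
The overlap of the large clusters of two layers.
-/

set_option autoImplicit false

namespace Pool.Agent.TH987.AN.Lay

open Finset H974 Pool.Agent.H160R2.CV H362P
open Pool.Agent.H160R2.CV.Quad Pool.Agent.TH967.VT

/-- the vertex `v` is connected to distance `7 m` from `c` -/
def Hv (c : Vtx) (m : ℕ) (v : Vtx) (G : Finset Edg) : Prop :=
  OE (Ou c (7 * m)) {v} (↑G : Set Edg)

theorem Hv_incr (S : Finset Edg) (c : Vtx) (m : ℕ) (v : Vtx) : IncrE S (Hv c m v) :=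
  OE_incr _ _ _

theorem Hv_loc {c : Vtx} {m : ℕ} {v : Vtx} (hv : v ∈ Bc c m) (G : Finset Edg) :
    Hv c m v G ↔ Hv c m v (G ∩ bo c (7 * m)) := by
  unfold Hv
  rw [Finset.coe_inter]
  rw [mem_Bc] at hv
  exact OE_loc (by omega)

theorem a_low {p : ℝ} (h0 : 0 ≤ p) (h1 : p ≤ 1) {c : Vtx} {m : ℕ} {v : Vtx} (hv : v ∈ Bc c m)
    {S : Finset Edg} (hS : bo c (7 * m) ⊆ S) :
    arm p (8 * m) ≤ Pr (fun _ => p) S (Hv c m v) := by
  have hv' := mem_Bc.mp hv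
  have e1 : Pr (fun _ => p) S (Hv c m v) = Pr (fun _ => p) (bo c (7 * m)) (Hv c m v) :=
    Pr_local hS (fun F _ => Hv_loc hv F)
  have e2 : Pr (fun _ => p) (bo c (9 * m)) (Hv c m v) =
      Pr (fun _ => p) (bo c (7 * m)) (Hv c m v) :=
    Pr_local (bo_sub_bo (by rw [sub_self]; unfold nv; simp; omega)) (fun F _ => Hv_loc hv F)
  rw [e1, ← e2]
  apply arm_OE h0 h1
  · intro w hw
    unfold Ou
    have := nv_tri' w c v
    rw [nv_comm' c v] at this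
    omega
  · exact bo_sub_bo (by omega)

theorem a_up {p K0 : ℝ} (h0 : 0 ≤ p) (h1 : p ≤ 1 / 2) {c : Vtx} {m : ℕ} (hm : 1 ≤ m)
    (hK : ArmUp (1 / 2) K0 m) {v : Vtx} (hv : v ∈ Bc c m) (S : Finset Edg) :
    Pr (fun _ => p) S (Hv c m v) ≤ K0 * (m : ℝ) ^ (-(5 / 48 : ℝ)) := by
  refine le_trans ?_ ((arm_mono_param h0 h1 (by norm_num) m).trans (hK m hm le_rfl))
  refine le_trans (Pr_mono (okq h0 (by linarith)) ?_) (arm_bound h0 (by linarith) S v m)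
  intro F _ hF
  obtain ⟨w, hw, hr⟩ := hF v (Finset.mem_singleton_self v)
  refine ⟨w, ?_, hr⟩
  rw [mem_Bc] at hv
  unfold Ou at hw
  have h3 := nv_tri' w v c
  have h4 : m ≤ nv (w - v) := by omega
  unfold nv at h4
  simp only [Prod.fst_sub, Prod.snd_sub] at h4
  omega

/-- the bound for two vertices -/
noncomputable def BB (K0 : ℝ) (m : ℕ) (v w : Vtx) : ℝ :=
  2 ^ 188 * (K0 * (m : ℝ) ^ (-(5 / 48 : ℝ))) * (arm (1 / 2) (nv (v - w) / 3) + arm (1 / 2) (m / 3))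

theorem f_up {p K0 : ℝ} (h0 : 0 ≤ p) (h1 : p ≤ 1 / 2) {c : Vtx} {m : ℕ} (hm : 1 ≤ m)
    (hK : ArmUp (1 / 2) K0 m) {v w : Vtx} (hv : v ∈ Bc c m) (hw : w ∈ Bc c m)
    {S : Finset Edg} (hS : bo c (7 * m) ⊆ S) :
    Pr (fun _ => p) S (fun F => Hv c m v F ∧ Hv c m w F) ≤ BB K0 m v w := by
  have okh : Ok (fun _ : Edg => (1 / 2 : ℝ)) := okq (by norm_num) (by norm_num)
  have s1 : Pr (fun _ => p) S (fun F => Hv c m v F ∧ Hv c m w F) ≤
      Pr (fun _ => (1 / 2 : ℝ)) S (fun F => Hv c m v F ∧ Hv c m w F) :=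
    Pr_mono_param (okq h0 (by linarith)) okh (fun _ => h1)
      (fun F G hFG hG hF => ⟨Hv_incr S c m v F G hFG hG hF.1, Hv_incr S c m w F G hFG hG hF.2⟩)
  have hv' := mem_Bc.mp hv
  have hw' := mem_Bc.mp hw
  obtain ⟨a, ha⟩ : ∃ a : ℕ, a = min m (nv (w - v)) := ⟨_, rfl⟩
  have ham : a ≤ m := by rw [ha]; exact min_le_left _ _
  have haw : a ≤ nv (w - v) := by rw [ha]; exact min_le_right _ _
  have s2 := add_out (q := 1 / 2) le_rfl (by norm_num) (T := Ou c (7 * m)) (X := {w}) (x := v)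
    (a := a) (by
      intro t ht
      unfold Ou at ht
      have := nv_tri' t v c
      omega) (by
      intro u hu
      rw [Finset.mem_singleton] at hu
      rw [hu]
      exact haw) (S := S) ((bo_sub_bo (by omega)).trans hS)
  have s3 : Pr (fun _ => (1 / 2 : ℝ)) S (fun F => Hv c m v F ∧ Hv c m w F) =
      Pr (fun _ => (1 / 2 : ℝ)) S (fun F => OE (Ou c (7 * m)) (insert v {w}) (↑F : Set Edg)) := by
    apply Pr_congr
    intro F _
    rw [OE_insert]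
    exact and_comm
  have s4 : Pr (fun _ => (1 / 2 : ℝ)) S (fun F => OE (Ou c (7 * m)) {w} (↑F : Set Edg)) ≤
      K0 * (m : ℝ) ^ (-(5 / 48 : ℝ)) :=
    a_up (p := 1 / 2) (by norm_num) le_rfl hm hK hw S
  have n1 : 0 ≤ arm (1 / 2) (nv (v - w) / 3) := arm_nonneg (by norm_num) (by norm_num) _
  have n2 : 0 ≤ arm (1 / 2) (m / 3) := arm_nonneg (by norm_num) (by norm_num) _
  have n3 : 0 ≤ K0 * (m : ℝ) ^ (-(5 / 48 : ℝ)) := (Pr_nonneg okh _ _).trans s4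
  have s5 : arm (1 / 2) (a / 3) ≤ arm (1 / 2) (nv (v - w) / 3) + arm (1 / 2) (m / 3) := by
    rw [nv_comm' v w] at *
    rcases min_choice m (nv (w - v)) with h | h
    · rw [ha, h]
      linarith
    · rw [ha, h]
      linarith
  unfold BB
  refine s1.trans (s3.le.trans (s2.trans ?_))
  have s6 : arm (1 / 2) (a / 3) * Pr (fun _ => (1 / 2 : ℝ)) S
      (fun F => OE (Ou c (7 * m)) {w} (↑F : Set Edg)) ≤
      (arm (1 / 2) (nv (v - w) / 3) + arm (1 / 2) (m / 3)) *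
        (K0 * (m : ℝ) ^ (-(5 / 48 : ℝ))) :=
    mul_le_mul s5 s4 (Pr_nonneg okh _ _) (by linarith)
  calc 2 ^ 188 * (arm (1 / 2) (a / 3) * Pr (fun _ => (1 / 2 : ℝ)) S
      (fun F => OE (Ou c (7 * m)) {w} (↑F : Set Edg)))
      ≤ 2 ^ 188 * ((arm (1 / 2) (nv (v - w) / 3) + arm (1 / 2) (m / 3)) *
        (K0 * (m : ℝ) ^ (-(5 / 48 : ℝ)))) := mul_le_mul_of_nonneg_left s6 (by positivity)
    _ = _ := by ring

theorem BB_nonneg {K0 : ℝ} (hK : 1 ≤ K0) (m : ℕ) (v w : Vtx) : 0 ≤ BB K0 m v w := by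
  unfold BB
  have n1 : 0 ≤ arm (1 / 2) (nv (v - w) / 3) := arm_nonneg (by norm_num) (by norm_num) _
  have n2 : 0 ≤ arm (1 / 2) (m / 3) := arm_nonneg (by norm_num) (by norm_num) _
  positivity

theorem card_Bc9 {c : Vtx} {m : ℕ} (hm : 1 ≤ m) : ((Bc c m).card : ℝ) ≤ 9 * (m : ℝ) ^ 2 := by
  rw [card_Bc]
  have : (1:ℝ) ≤ m := by exact_mod_cast hm
  nlinarith

theorem card_Bc4 {c : Vtx} {m : ℕ} : 4 * (m : ℝ) ^ 2 ≤ ((Bc c m).card : ℝ) := by
  rw [card_Bc]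
  have : (0:ℝ) ≤ m := Nat.cast_nonneg m
  nlinarith

/-- the constant -/
noncomputable def CF (K0 : ℝ) : ℝ := 52488 * (2 ^ 188) ^ 2 * K0 ^ 4

theorem CF_pos {K0 : ℝ} (hK : 1 ≤ K0) : 0 < CF K0 := by unfold CF; positivity

theorem BB_sum {K0 : ℝ} (hK1 : 1 ≤ K0) {c : Vtx} {m : ℕ} (hm : 1 ≤ m)
    (hK : ArmUp (1 / 2) K0 (2 * m)) :
    ∑ v ∈ Bc c m, ∑ w ∈ Bc c m, BB K0 m v w ^ 2 ≤ CF K0 * ((m : ℝ) ^ (43 / 24 : ℝ)) ^ 2 := by
  have hm0 : (0:ℝ) < m := by exact_mod_cast hm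
  have hm1 : (1:ℝ) ≤ m := by exact_mod_cast hm
  obtain ⟨μ, hμ⟩ : ∃ μ : ℝ, μ = (m : ℝ) ^ (-(5 / 48 : ℝ)) := ⟨_, rfl⟩
  have hμ0 : 0 < μ := by rw [hμ]; positivity
  obtain ⟨g, hg⟩ : ∃ g : ℝ, g = (m : ℝ) ^ (43 / 24 : ℝ) := ⟨_, rfl⟩
  have hg0 : 0 < g := by rw [hg]; positivity
  have hgμ : g = (m : ℝ) ^ 2 * μ ^ 2 := by
    rw [hg, hμ, ← Real.rpow_natCast (m : ℝ) 2, ← Real.rpow_natCast ((m : ℝ) ^ (-(5 / 48 : ℝ))) 2,
      ← Real.rpow_mul hm0.le, ← Real.rpow_add hm0]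
    norm_num
  have hthird : arm (1 / 2) (m / 3) ≤ 6 * K0 * μ := by
    refine (hK.third hK1 (show m ≤ 2 * m by omega)).trans ?_
    apply mul_le_mul_of_nonneg_left _ (by positivity)
    rw [hμ]
    exact Real.rpow_le_rpow_of_nonpos hm0 (by linarith) (by norm_num)
  have n2 : 0 ≤ arm (1 / 2) (m / 3) := arm_nonneg (by norm_num) (by norm_num) _
  have hinner : ∀ v ∈ Bc c m, ∑ w ∈ Bc c m, BB K0 m v w ^ 2 ≤
      (2 ^ 188 * (K0 * μ)) ^ 2 * (5832 * K0 ^ 2 * g) := by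
    intro v hv
    have h1 : ∀ w ∈ Bc c m, BB K0 m v w ^ 2 ≤ (2 ^ 188 * (K0 * μ)) ^ 2 *
        (2 * arm (1 / 2) (nv (v - w) / 3) ^ 2 + 2 * arm (1 / 2) (m / 3) ^ 2) := by
      intro w _
      unfold BB
      rw [← hμ, mul_pow]
      apply mul_le_mul_of_nonneg_left _ (sq_nonneg _)
      nlinarith [sq_nonneg (arm (1 / 2) (nv (v - w) / 3) - arm (1 / 2) (m / 3))]
    refine (Finset.sum_le_sum h1).trans ?_
    rw [← Finset.mul_sum]
    apply mul_le_mul_of_nonneg_left _ (sq_nonneg _)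
    rw [Finset.sum_add_distrib, ← Finset.mul_sum, Finset.sum_const, nsmul_eq_mul]
    have h2 := sum_Bc hv (fun k => arm (1 / 2) (k / 3) ^ 2) (fun k => sq_nonneg _)
    have h3 := hK.sum_sq hK1 (by norm_num) (by norm_num)
    have h4 : (((2 * m : ℕ) : ℝ) + 1) ^ (86 / 48 : ℝ) ≤ 9 * g := by
      calc (((2 * m : ℕ) : ℝ) + 1) ^ (86 / 48 : ℝ) ≤ (3 * (m:ℝ)) ^ (86 / 48 : ℝ) :=
            Real.rpow_le_rpow (by positivity) (by push_cast; linarith) (by norm_num)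
        _ = (3:ℝ) ^ (86 / 48 : ℝ) * g := by
            rw [Real.mul_rpow (by norm_num) hm0.le, hg]
            norm_num
        _ ≤ 9 * g := by
            apply mul_le_mul_of_nonneg_right _ hg0.le
            calc (3:ℝ) ^ (86 / 48 : ℝ) ≤ (3:ℝ) ^ (2:ℝ) :=
                  Real.rpow_le_rpow_of_exponent_le (by norm_num) (by norm_num)
              _ = 9 := by norm_num
    have h5 : ∑ w ∈ Bc c m, arm (1 / 2) (nv (v - w) / 3) ^ 2 ≤ 2592 * K0 ^ 2 * g := by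
      refine h2.trans (h3.trans ?_)
      calc 288 * K0 ^ 2 * (((2 * m : ℕ) : ℝ) + 1) ^ (86 / 48 : ℝ) ≤ 288 * K0 ^ 2 * (9 * g) :=
            mul_le_mul_of_nonneg_left h4 (by positivity)
        _ = _ := by ring
    have h6 : ((Bc c m).card : ℝ) * (2 * arm (1 / 2) (m / 3) ^ 2) ≤ 648 * K0 ^ 2 * g := by
      calc ((Bc c m).card : ℝ) * (2 * arm (1 / 2) (m / 3) ^ 2)
          ≤ (9 * (m:ℝ) ^ 2) * (2 * (6 * K0 * μ) ^ 2) := by
            apply mul_le_mul (card_Bc9 hm) _ (by positivity) (by positivity)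
            apply mul_le_mul_of_nonneg_left _ (by norm_num)
            exact pow_le_pow_left₀ n2 hthird 2
        _ = 648 * K0 ^ 2 * g := by rw [hgμ]; ring
    linarith
  refine (Finset.sum_le_sum hinner).trans ?_
  rw [Finset.sum_const, nsmul_eq_mul]
  have hX : 0 ≤ (2 ^ 188 * (K0 * μ)) ^ 2 * (5832 * K0 ^ 2 * g) := by positivity
  refine (mul_le_mul_of_nonneg_right (card_Bc9 hm) hX).trans (le_of_eq ?_)
  unfold CF
  rw [← hg]
  generalize (2:ℝ) ^ 188 = t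
  have e : (9 * (m:ℝ) ^ 2) * ((t * (K0 * μ)) ^ 2 * (5832 * K0 ^ 2 * g)) =
      52488 * t ^ 2 * K0 ^ 4 * ((m:ℝ) ^ 2 * μ ^ 2) * g := by ring
  rw [e, ← hgμ]
  ring

/-- the overlap of two layers -/
noncomputable def Nn (c : Vtx) (m : ℕ) (G G' : Finset Edg) : ℝ :=
  ∑ v ∈ Bc c m, ind (Hv c m v G) * ind (Hv c m v G')

theorem Nn_nonneg (c : Vtx) (m : ℕ) (G G' : Finset Edg) : 0 ≤ Nn c m G G' :=
  Finset.sum_nonneg fun _ _ => mul_nonneg (ind_nonneg _) (ind_nonneg _)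

theorem Nn_mono (c : Vtx) (m : ℕ) {G G' H H' : Finset Edg} (h : G ⊆ H) (h' : G' ⊆ H') :
    Nn c m G G' ≤ Nn c m H H' := by
  apply Finset.sum_le_sum
  intro v _
  apply mul_le_mul (ind_mono _) (ind_mono _) (ind_nonneg _) (ind_nonneg _)
  · exact OE.mono (by exact_mod_cast h)
  · exact OE.mono (by exact_mod_cast h')

section two
variable {p q a K0 : ℝ} {m : ℕ} {c : Vtx} {i j : ℕ} {S : Finset E3}

/-- the sum of the squares of the one-point functions, from below -/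
theorem sum_low (h0 : 0 ≤ p) (h1 : p ≤ 1) (ha : 0 < a) (hm : 1 ≤ m)
    (hlow : a * (m : ℝ) ^ (-(5 / 48 : ℝ)) ≤ arm p (8 * m)) {S1 S2 : Finset Edg}
    (hS1 : bo c (7 * m) ⊆ S1) (hS2 : bo c (7 * m) ⊆ S2) :
    4 * a ^ 2 * (m : ℝ) ^ (43 / 24 : ℝ) ≤ ∑ v ∈ Bc c m,
      Pr (fun _ => p) S1 (Hv c m v) * Pr (fun _ => p) S2 (Hv c m v) := by
  have hm0 : (0:ℝ) < m := by exact_mod_cast hm
  obtain ⟨μ, hμ⟩ : ∃ μ : ℝ, μ = (m : ℝ) ^ (-(5 / 48 : ℝ)) := ⟨_, rfl⟩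
  have hμ0 : 0 < μ := by rw [hμ]; positivity
  have hgμ : (m : ℝ) ^ (43 / 24 : ℝ) = (m : ℝ) ^ 2 * μ ^ 2 := by
    rw [hμ, ← Real.rpow_natCast (m : ℝ) 2, ← Real.rpow_natCast ((m : ℝ) ^ (-(5 / 48 : ℝ))) 2,
      ← Real.rpow_mul hm0.le, ← Real.rpow_add hm0]
    norm_num
  rw [← hμ] at hlow
  have h2 : ∀ v ∈ Bc c m, (a * μ) ^ 2 ≤
      Pr (fun _ => p) S1 (Hv c m v) * Pr (fun _ => p) S2 (Hv c m v) := by
    intro v hv
    have k1 := hlow.trans (a_low h0 h1 hv hS1)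
    have k2 := hlow.trans (a_low h0 h1 hv hS2)
    rw [sq]
    exact mul_le_mul k1 k2 (by positivity) ((by positivity : 0 ≤ a * μ).trans k1)
  refine le_trans ?_ (Finset.sum_le_sum h2)
  rw [Finset.sum_const, nsmul_eq_mul, hgμ]
  calc 4 * a ^ 2 * ((m:ℝ) ^ 2 * μ ^ 2) = (4 * (m:ℝ) ^ 2) * (a * μ) ^ 2 := by ring
    _ ≤ _ := mul_le_mul_of_nonneg_right card_Bc4 (sq_nonneg _)

theorem sum_upp (h0 : 0 ≤ p) (h1 : p ≤ 1 / 2) (hK1 : 1 ≤ K0) (hm : 1 ≤ m)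
    (hK : ArmUp (1 / 2) K0 m) (S1 S2 : Finset Edg) :
    ∑ v ∈ Bc c m, Pr (fun _ => p) S1 (Hv c m v) * Pr (fun _ => p) S2 (Hv c m v) ≤
      9 * K0 ^ 2 * (m : ℝ) ^ (43 / 24 : ℝ) := by
  have hm0 : (0:ℝ) < m := by exact_mod_cast hm
  have ok := okq h0 (show p ≤ 1 by linarith)
  obtain ⟨μ, hμ⟩ : ∃ μ : ℝ, μ = (m : ℝ) ^ (-(5 / 48 : ℝ)) := ⟨_, rfl⟩
  have hμ0 : 0 < μ := by rw [hμ]; positivity
  have hgμ : (m : ℝ) ^ (43 / 24 : ℝ) = (m : ℝ) ^ 2 * μ ^ 2 := by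
    rw [hμ, ← Real.rpow_natCast (m : ℝ) 2, ← Real.rpow_natCast ((m : ℝ) ^ (-(5 / 48 : ℝ))) 2,
      ← Real.rpow_mul hm0.le, ← Real.rpow_add hm0]
    norm_num
  have h2 : ∀ v ∈ Bc c m, Pr (fun _ => p) S1 (Hv c m v) * Pr (fun _ => p) S2 (Hv c m v) ≤
      (K0 * μ) ^ 2 := by
    intro v hv
    have k1 := a_up h0 h1 hm hK hv S1
    have k2 := a_up h0 h1 hm hK hv S2
    rw [← hμ] at k1 k2
    rw [sq]
    exact mul_le_mul k1 k2 (Pr_nonneg ok _ _) (by positivity)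
  refine (Finset.sum_le_sum h2).trans ?_
  rw [Finset.sum_const, nsmul_eq_mul, hgμ]
  calc ((Bc c m).card : ℝ) * (K0 * μ) ^ 2 ≤ (9 * (m:ℝ) ^ 2) * (K0 * μ) ^ 2 :=
        mul_le_mul_of_nonneg_right (card_Bc9 hm) (sq_nonneg _)
    _ = _ := by ring

/-- The overlap of two layers is large with positive probability. -/
theorem overlap (h0 : 0 ≤ p) (h1 : p ≤ 1 / 2) (hq0 : 0 ≤ q) (hq1 : q ≤ 1) (ha : 0 < a)
    (hK1 : 1 ≤ K0) (hm : 1 ≤ m) (hK : ArmUp (1 / 2) K0 (2 * m))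
    (hlow : a * (m : ℝ) ^ (-(5 / 48 : ℝ)) ≤ arm p (8 * m)) (hij : i ≠ j)
    (hSi : bo c (7 * m) ⊆ sl i S) (hSj : bo c (7 * m) ⊆ sl j S) :
    2 * a ^ 4 / CF K0 ≤ Pr (wt p q) S (fun F =>
      a ^ 2 * (m : ℝ) ^ (43 / 24 : ℝ) ≤ Nn c m (sl i F) (sl j F)) := by
  have ok := ok3 h0 (by linarith : p ≤ 1) hq0 hq1
  have okp := okq h0 (by linarith : p ≤ 1)
  have hm0 : (0:ℝ) < m := by exact_mod_cast hm
  obtain ⟨g, hg⟩ : ∃ g : ℝ, g = (m : ℝ) ^ (43 / 24 : ℝ) := ⟨_, rfl⟩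
  have hg0 : 0 < g := by rw [hg]; positivity
  have hCF := CF_pos hK1
  have hE1 : 4 * a ^ 2 * g ≤ Ex (wt p q) S (fun F => Nn c m (sl i F) (sl j F)) := by
    unfold Nn
    rw [Ex_sum]
    have h2 : ∀ v ∈ Bc c m, Ex (wt p q) S
        (fun F => ind (Hv c m v (sl i F)) * ind (Hv c m v (sl j F))) =
        Pr (fun _ => p) (sl i S) (Hv c m v) * Pr (fun _ => p) (sl j S) (Hv c m v) := fun v _ =>
      Ex_sl_mul p q S hij (fun G => ind (Hv c m v G)) (fun G => ind (Hv c m v G))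
    rw [Finset.sum_congr rfl h2, hg]
    exact sum_low h0 (by linarith) ha hm hlow hSi hSj
  have hE2 : Ex (wt p q) S (fun F => Nn c m (sl i F) (sl j F) ^ 2) ≤ CF K0 * g ^ 2 := by
    have h2 : ∀ F, F ⊆ S → Nn c m (sl i F) (sl j F) ^ 2 = ∑ v ∈ Bc c m, ∑ w ∈ Bc c m,
        ind (Hv c m v (sl i F) ∧ Hv c m w (sl i F)) *
          ind (Hv c m v (sl j F) ∧ Hv c m w (sl j F)) := by
      intro F _
      unfold Nn
      rw [sq, Finset.sum_mul_sum]
      apply Finset.sum_congr rfl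
      intro v _
      apply Finset.sum_congr rfl
      intro w _
      rw [ind_and, ind_and]
      ring
    rw [Ex_congr h2, Ex_sum]
    refine le_trans ?_ (hg ▸ BB_sum hK1 hm hK (c := c))
    apply Finset.sum_le_sum
    intro v hv
    rw [Ex_sum]
    apply Finset.sum_le_sum
    intro w hw
    have h3 := Ex_sl_mul p q S hij (fun G => ind (Hv c m v G ∧ Hv c m w G))
      (fun G => ind (Hv c m v G ∧ Hv c m w G))
    rw [h3, sq]
    have k1 := f_up h0 h1 hm (hK.anti (by omega)) hv hw hSi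
    have k2 := f_up h0 h1 hm (hK.anti (by omega)) hv hw hSj
    exact mul_le_mul k1 k2 (Pr_nonneg okp _ _) (BB_nonneg hK1 m v w)
  have h5 := pzg ok S (Y := fun F => Nn c m (sl i F) (sl j F)) (fun F => Nn_nonneg _ _ _ _)
    (e := 4 * a ^ 2 * g) (W := CF K0 * g ^ 2) (by positivity) (by positivity) hE1 hE2
  have e5 : (4 * a ^ 2 * g) ^ 2 / (8 * (CF K0 * g ^ 2)) = 2 * a ^ 4 / CF K0 := by
    field_simp
    ring
  rw [e5] at h5
  refine h5.trans (Pr_mono ok ?_)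
  intro F _ h
  rw [← hg]
  have : 4 * a ^ 2 * g / 4 = a ^ 2 * g := by ring
  rw [this] at h
  exact h

/-- A link between two layers. -/
theorem link (h0 : 0 ≤ p) (h1 : p ≤ 1 / 2) (hq0 : 0 ≤ q) (hq1 : q ≤ 1) (ha : 0 < a)
    (hK1 : 1 ≤ K0) (hm : 1 ≤ m) (hK : ArmUp (1 / 2) K0 (2 * m))
    (hlow : a * (m : ℝ) ^ (-(5 / 48 : ℝ)) ≤ arm p (8 * m)) (hij : i ≠ j)
    (hSi : bo c (7 * m) ⊆ sl i S) (hSj : bo c (7 * m) ⊆ sl j S)
    (hV : ∀ v ∈ Bc c m, (Sum.inr (i, v) : E3) ∈ S)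
    (hqm : 1 ≤ q * (m : ℝ) ^ (43 / 24 : ℝ)) :
    2 * a ^ 4 / (CF K0 + 9 * K0 ^ 2) ≤ Pr (wt p q) S (fun F => ∃ v ∈ Bc c m,
      Hv c m v (sl i F) ∧ Hv c m v (sl j F) ∧ (Sum.inr (i, v) : E3) ∈ F) := by
  have ok := ok3 h0 (by linarith : p ≤ 1) hq0 hq1
  have okp := okq h0 (by linarith : p ≤ 1)
  have hm0 : (0:ℝ) < m := by exact_mod_cast hm
  obtain ⟨g, hg⟩ : ∃ g : ℝ, g = (m : ℝ) ^ (43 / 24 : ℝ) := ⟨_, rfl⟩
  have hg0 : 0 < g := by rw [hg]; positivity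
  rw [← hg] at hqm
  obtain ⟨x, hx⟩ : ∃ x : ℝ, x = q * g := ⟨_, rfl⟩
  rw [← hx] at hqm
  have hx0 : 0 < x := by linarith
  have hCF := CF_pos hK1
  have hEx : ∀ v ∈ Bc c m, Ex (wt p q) S (fun F => ind (Hv c m v (sl i F)) *
      ind (Hv c m v (sl j F)) * ind ((Sum.inr (i, v) : E3) ∈ F)) =
      Pr (fun _ => p) (sl i S) (Hv c m v) * Pr (fun _ => p) (sl j S) (Hv c m v) * q := by
    intro v hv
    rw [Ex_sl_mul3 p q S hij (fun G => ind (Hv c m v G)) (fun G => ind (Hv c m v G))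
      {(Sum.inr (i, v) : E3)} (Finset.singleton_subset_iff.mpr (hV v hv)) (by
        intro y hy
        rw [Finset.mem_singleton] at hy
        exact ⟨_, hy⟩) (fun F => ind ((Sum.inr (i, v) : E3) ∈ F)) (by
        intro F
        apply ind_congr
        rw [Finset.mem_inter, Finset.mem_singleton]
        simp), Ex_mem1 _ (hV v hv)]
    rfl
  obtain ⟨Y, hY⟩ : ∃ Y : Finset E3 → ℝ, Y = fun F => ∑ v ∈ Bc c m, ind (Hv c m v (sl i F)) *
      ind (Hv c m v (sl j F)) * ind ((Sum.inr (i, v) : E3) ∈ F) := ⟨_, rfl⟩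
  have hY0 : ∀ F, 0 ≤ Y F := by
    intro F
    rw [hY]
    exact Finset.sum_nonneg fun v _ => mul_nonneg (mul_nonneg (ind_nonneg _) (ind_nonneg _))
      (ind_nonneg _)
  have hE1 : 4 * a ^ 2 * x ≤ Ex (wt p q) S Y := by
    rw [hY, Ex_sum, Finset.sum_congr rfl hEx, ← Finset.sum_mul]
    have h2 := sum_low h0 (by linarith : p ≤ 1) ha hm hlow hSi hSj
    rw [← hg] at h2
    calc 4 * a ^ 2 * x = 4 * a ^ 2 * g * q := by rw [hx]; ring
      _ ≤ _ := mul_le_mul_of_nonneg_right h2 hq0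
  have hE1u : Ex (wt p q) S Y ≤ 9 * K0 ^ 2 * x := by
    rw [hY, Ex_sum, Finset.sum_congr rfl hEx, ← Finset.sum_mul]
    have h2 := sum_upp (c := c) h0 h1 hK1 hm (hK.anti (by omega)) (sl i S) (sl j S)
    rw [← hg] at h2
    calc _ ≤ 9 * K0 ^ 2 * g * q := mul_le_mul_of_nonneg_right h2 hq0
      _ = _ := by rw [hx]; ring
  have hE2 : Ex (wt p q) S (fun F => Y F ^ 2) ≤ (CF K0 + 9 * K0 ^ 2) * x ^ 2 := by
    have h2 : ∀ F, F ⊆ S → Y F ^ 2 = Y F + ∑ v ∈ Bc c m, ∑ w ∈ (Bc c m).erase v,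
        ind (Hv c m v (sl i F) ∧ Hv c m w (sl i F)) *
          ind (Hv c m v (sl j F) ∧ Hv c m w (sl j F)) *
          (ind ((Sum.inr (i, v) : E3) ∈ F) * ind ((Sum.inr (i, w) : E3) ∈ F)) := by
      intro F _
      rw [hY]
      simp only
      rw [sq, Finset.sum_mul_sum, ← Finset.sum_add_distrib]
      apply Finset.sum_congr rfl
      intro v hv
      rw [← Finset.add_sum_erase _ _ hv]
      congr 1
      · have k1 := ind_sq (Hv c m v (sl i F))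
        have k2 := ind_sq (Hv c m v (sl j F))
        have k3 := ind_sq ((Sum.inr (i, v) : E3) ∈ F)
        calc ind (Hv c m v (sl i F)) * ind (Hv c m v (sl j F)) *
              ind ((Sum.inr (i, v) : E3) ∈ F) * (ind (Hv c m v (sl i F)) *
              ind (Hv c m v (sl j F)) * ind ((Sum.inr (i, v) : E3) ∈ F)) =
              (ind (Hv c m v (sl i F)) * ind (Hv c m v (sl i F))) *
              (ind (Hv c m v (sl j F)) * ind (Hv c m v (sl j F))) *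
              (ind ((Sum.inr (i, v) : E3) ∈ F) * ind ((Sum.inr (i, v) : E3) ∈ F)) := by ring
          _ = _ := by rw [k1, k2, k3]
      · apply Finset.sum_congr rfl
        intro w _
        rw [ind_and, ind_and]
        ring
    rw [Ex_congr h2, Ex_add, Ex_sum]
    have h3 : ∑ v ∈ Bc c m, Ex (wt p q) S (fun F => ∑ w ∈ (Bc c m).erase v,
        ind (Hv c m v (sl i F) ∧ Hv c m w (sl i F)) *
          ind (Hv c m v (sl j F) ∧ Hv c m w (sl j F)) *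
          (ind ((Sum.inr (i, v) : E3) ∈ F) * ind ((Sum.inr (i, w) : E3) ∈ F))) ≤
        CF K0 * g ^ 2 * q ^ 2 := by
      refine le_trans ?_ (mul_le_mul_of_nonneg_right (hg ▸ BB_sum hK1 hm hK (c := c))
        (sq_nonneg q))
      rw [Finset.sum_mul]
      apply Finset.sum_le_sum
      intro v hv
      rw [Ex_sum, Finset.sum_mul]
      refine le_trans (Finset.sum_le_sum (g := fun w => BB K0 m v w ^ 2 * q ^ 2) ?_)
        (Finset.sum_le_sum_of_subset_of_nonneg (Finset.erase_subset v _)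
          fun w _ _ => by positivity)
      intro w hw
      rw [Finset.mem_erase] at hw
      have hne : (Sum.inr (i, v) : E3) ≠ Sum.inr (i, w) := by
        intro h
        exact hw.1 (Prod.mk.inj (Sum.inr.inj h)).2.symm
      rw [Ex_sl_mul3 p q S hij (fun G => ind (Hv c m v G ∧ Hv c m w G))
        (fun G => ind (Hv c m v G ∧ Hv c m w G))
        {(Sum.inr (i, v) : E3), Sum.inr (i, w)} (by
          intro y hy
          rw [Finset.mem_insert, Finset.mem_singleton] at hy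
          rcases hy with rfl | rfl
          · exact hV v hv
          · exact hV w hw.2) (by
          intro y hy
          rw [Finset.mem_insert, Finset.mem_singleton] at hy
          rcases hy with rfl | rfl
          · exact ⟨_, rfl⟩
          · exact ⟨_, rfl⟩) (fun F => ind ((Sum.inr (i, v) : E3) ∈ F) *
            ind ((Sum.inr (i, w) : E3) ∈ F)) (by
          intro F
          congr 1
          · apply ind_congr
            rw [Finset.mem_inter, Finset.mem_insert]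
            simp
          · apply ind_congr
            rw [Finset.mem_inter, Finset.mem_insert, Finset.mem_singleton]
            simp), Ex_mem2 _ (hV v hv) (hV w hw.2) hne]
      have k1 := f_up h0 h1 hm (hK.anti (by omega)) hv hw.2 hSi
      have k2 := f_up h0 h1 hm (hK.anti (by omega)) hv hw.2 hSj
      have k3 : Ex (fun _ => p) (sl i S) (fun G => ind (Hv c m v G ∧ Hv c m w G)) *
          Ex (fun _ => p) (sl j S) (fun G => ind (Hv c m v G ∧ Hv c m w G)) ≤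
          BB K0 m v w ^ 2 := by
        rw [sq]
        exact mul_le_mul k1 k2 (Pr_nonneg okp _ _) (BB_nonneg hK1 m v w)
      have e : wt p q (Sum.inr (i, v)) * wt p q (Sum.inr (i, w)) = q ^ 2 := by
        rw [sq]; rfl
      rw [e]
      exact mul_le_mul_of_nonneg_right k3 (sq_nonneg q)
    have h4 : CF K0 * g ^ 2 * q ^ 2 = CF K0 * x ^ 2 := by rw [hx]; ring
    rw [h4] at h3
    have h6 : 9 * K0 ^ 2 * x ≤ 9 * K0 ^ 2 * x ^ 2 := by
      apply mul_le_mul_of_nonneg_left _ (by positivity)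
      nlinarith
    linarith
  have h5 := pzg ok S hY0 (e := 4 * a ^ 2 * x) (W := (CF K0 + 9 * K0 ^ 2) * x ^ 2)
    (by positivity) (by positivity) hE1 hE2
  have e5 : (4 * a ^ 2 * x) ^ 2 / (8 * ((CF K0 + 9 * K0 ^ 2) * x ^ 2)) =
      2 * a ^ 4 / (CF K0 + 9 * K0 ^ 2) := by
    field_simp
    ring
  rw [e5] at h5
  refine h5.trans (Pr_mono ok ?_)
  intro F _ h
  have h7 : 0 < Y F := lt_of_lt_of_le (by positivity) h
  rw [hY] at h7
  obtain ⟨v, hv, hpos⟩ := Finset.exists_ne_zero_of_sum_ne_zero h7.ne'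
  refine ⟨v, hv, ?_, ?_, ?_⟩
  · by_contra hc
    rw [ind_not_of hc] at hpos
    simp at hpos
  · by_contra hc
    rw [ind_not_of hc] at hpos
    simp at hpos
  · by_contra hc
    rw [ind_not_of hc] at hpos
    simp at hpos

end two

end Pool.Agent.TH987.AN.Lay
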