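import Pool.Agent.TH987.AN.Over

/-!
Towers: circuits in all layers, linked by transversal edges.
-/

set_option autoImplicit false

namespace Pool.Agent.TH987.AN.Lay

open Finset H974 Pool.Agent.H160R2.CV H362P
open Pool.Agent.H160R2.CV.Quad Pool.Agent.TH967.VT

/-- a circuit around `c` in the annulus of radii `R1`, `R2` -/
def Ci (c : Vtx) (R1 R2 : ℕ) (G : Finset Edg) : Prop :=
  (LRc (c.1 - R2) (c.1 + R2) (c.2 + R1) (c.2 + R2) G ∧
    LRc (c.1 - R2) (c.1 + R2) (c.2 - R2) (c.2 - R1) G) ∧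
  (TBc (c.1 + R1) (c.1 + R2) (c.2 - R2) (c.2 + R2) G ∧
    TBc (c.1 - R2) (c.1 - R1) (c.2 - R2) (c.2 + R2) G)

theorem Ci.mono {c : Vtx} {R1 R2 : ℕ} {F G : Finset Edg} (h : F ⊆ G) (hF : Ci c R1 R2 F) :
    Ci c R1 R2 G :=
  ⟨⟨hF.1.1.mono h, hF.1.2.mono h⟩, ⟨hF.2.1.mono h, hF.2.2.mono h⟩⟩

theorem CA_of_Ci {c : Vtx} {R1 R2 : ℕ} {G : Finset Edg} (h : Ci c R1 R2 G) : CA c R1 R2 G := by
  obtain ⟨⟨h1, h2⟩, h3, h4⟩ := h
  refine ⟨⟨?_, ?_⟩, ?_, ?_⟩
  · have := LRc_trl (s := -c.1) (t := -c.2) h1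
    convert this using 1 <;> ring
  · have := LRc_trl (s := -c.1) (t := -c.2) h2
    convert this using 1 <;> ring
  · have := TBc_trl (s := -c.1) (t := -c.2) h3
    convert this using 1 <;> ring
  · have := TBc_trl (s := -c.1) (t := -c.2) h4
    convert this using 1 <;> ring

theorem pr_Ci {q : ℝ} (h0 : 0 ≤ q) (h1 : q ≤ 1) {c : Vtx} {R1 R2 r0 : ℕ} (hr : r0 < R1)
    (hR : R1 ≤ R2) {S : Finset Edg} (hS : bo c R2 \ bo c r0 ⊆ S) :
    (hh q (2 * (R2:ℤ)) ((R2:ℤ) - R1)) ^ 4 ≤ Pr (fun _ => q) S (Ci c R1 R2) := by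
  have s1 : LRE (c.1 - R2) (c.1 + R2) (c.2 + R1) (c.2 + R2) ⊆ S := by
    rintro ⟨x, y, _ | _⟩ h
    · apply hS
      simp only [mem_LRE_false] at h
      simp only [bo, Finset.mem_sdiff, mem_RE_false]
      omega
    · apply hS
      simp only [mem_LRE_true] at h
      simp only [bo, Finset.mem_sdiff, mem_RE_true]
      omega
  have s2 : LRE (c.1 - R2) (c.1 + R2) (c.2 - R2) (c.2 - R1) ⊆ S := by
    rintro ⟨x, y, _ | _⟩ h
    · apply hS
      simp only [mem_LRE_false] at h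
      simp only [bo, Finset.mem_sdiff, mem_RE_false]
      omega
    · apply hS
      simp only [mem_LRE_true] at h
      simp only [bo, Finset.mem_sdiff, mem_RE_true]
      omega
  have s3 : TBE (c.1 + R1) (c.1 + R2) (c.2 - R2) (c.2 + R2) ⊆ S := by
    rintro ⟨x, y, _ | _⟩ h
    · apply hS
      simp only [mem_TBE_false] at h
      simp only [bo, Finset.mem_sdiff, mem_RE_false]
      omega
    · apply hS
      simp only [mem_TBE_true] at h
      simp only [bo, Finset.mem_sdiff, mem_RE_true]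
      omega
  have s4 : TBE (c.1 - R2) (c.1 - R1) (c.2 - R2) (c.2 + R2) ⊆ S := by
    rintro ⟨x, y, _ | _⟩ h
    · apply hS
      simp only [mem_TBE_false] at h
      simp only [bo, Finset.mem_sdiff, mem_RE_false]
      omega
    · apply hS
      simp only [mem_TBE_true] at h
      simp only [bo, Finset.mem_sdiff, mem_RE_true]
      omega
  have e1 := pr_LRc q s1
  have e2 := pr_LRc q s2
  have e3 := pr_TBc q s3
  have e4 := pr_TBc q s4
  have d1 : c.1 + (R2:ℤ) - (c.1 - R2) = 2 * R2 := by ring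
  have d2 : c.2 + (R2:ℤ) - (c.2 + R1) = R2 - R1 := by ring
  have d3 : c.2 - (R1:ℤ) - (c.2 - R2) = R2 - R1 := by ring
  have d4 : c.2 + (R2:ℤ) - (c.2 - R2) = 2 * R2 := by ring
  have d5 : c.1 + (R2:ℤ) - (c.1 + R1) = R2 - R1 := by ring
  have d6 : c.1 - (R1:ℤ) - (c.1 - R2) = R2 - R1 := by ring
  rw [d1, d2] at e1
  rw [d1, d3] at e2
  rw [d4, d5] at e3
  rw [d4, d6] at e4
  have i1 := Pr_harris (okq h0 h1) (LRc_incr S (c.1 - R2) (c.1 + R2) (c.2 + R1) (c.2 + R2))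
    (LRc_incr S (c.1 - R2) (c.1 + R2) (c.2 - R2) (c.2 - R1))
  have i2 := Pr_harris (okq h0 h1) (TBc_incr S (c.1 + R1) (c.1 + R2) (c.2 - R2) (c.2 + R2))
    (TBc_incr S (c.1 - R2) (c.1 - R1) (c.2 - R2) (c.2 + R2))
  have c1 : IncrE S (fun F => LRc (c.1 - R2) (c.1 + R2) (c.2 + R1) (c.2 + R2) F ∧
      LRc (c.1 - R2) (c.1 + R2) (c.2 - R2) (c.2 - R1) F) :=
    fun F G hFG _ hF => ⟨hF.1.mono hFG, hF.2.mono hFG⟩
  have c2 : IncrE S (fun F => TBc (c.1 + R1) (c.1 + R2) (c.2 - R2) (c.2 + R2) F ∧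
      TBc (c.1 - R2) (c.1 - R1) (c.2 - R2) (c.2 + R2) F) :=
    fun F G hFG _ hF => ⟨hF.1.mono hFG, hF.2.mono hFG⟩
  have i3 := Pr_harris (okq h0 h1) c1 c2
  rw [e1, e2] at i1
  rw [e3, e4] at i2
  have hn : 0 ≤ hh q (2 * (R2:ℤ)) ((R2:ℤ) - R1) := hh_nonneg h0 h1 _ _
  have hn2 : 0 ≤ hh q (2 * (R2:ℤ)) ((R2:ℤ) - R1) * hh q (2 * (R2:ℤ)) ((R2:ℤ) - R1) :=
    mul_nonneg hn hn
  calc (hh q (2 * (R2:ℤ)) ((R2:ℤ) - R1)) ^ 4
      = (hh q (2 * (R2:ℤ)) ((R2:ℤ) - R1) * hh q (2 * (R2:ℤ)) ((R2:ℤ) - R1)) *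
        (hh q (2 * (R2:ℤ)) ((R2:ℤ) - R1) * hh q (2 * (R2:ℤ)) ((R2:ℤ) - R1)) := by ring
    _ ≤ _ := mul_le_mul i1 i2 hn2 (hn2.trans i1)
    _ ≤ _ := i3

/-- the circuit probability in the window -/
theorem pr_Ci_win {p κ : ℝ} {N : ℕ} (hW : H12S.Win p κ N) {n : ℕ} (hn : 1 ≤ n) (hnN : n ≤ N)
    {c : Vtx} {r0 : ℕ} (hr : r0 < n) {S : Finset Edg} (hS : bo c (2 * n) \ bo c r0 ⊆ S) :
    κ ^ 4 ≤ Pr (fun _ => p) S (Ci c n (2 * n)) := by
  have h0 : 0 ≤ p := by linarith [hW.lo]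
  have h1 : p ≤ 1 := by linarith [hW.hi]
  refine le_trans ?_ (pr_Ci h0 h1 hr (by omega) hS)
  apply pow_le_pow_left₀ hW.kpos.le
  refine (hW.pri n hn hnN).trans ?_
  apply hh_mono h0 h1
  · push_cast; omega
  · push_cast; omega
  · push_cast; omega

/-- the centre of the links -/
def yc (y : Vtx) (m : ℕ) : Vtx := (y.1 + 10 * m, y.2)

/-- the annulus -/
noncomputable def An (y : Vtx) (m : ℕ) : Finset Edg := bo y (32 * m) \ bo y (2 * m)

/-- the event for one layer -/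
def TL (y : Vtx) (m : ℕ) (G : Finset Edg) : Prop :=
  (Ci (yc y m) m (2 * m) G ∧ LRc (y.1 + 7 * m) (y.1 + 32 * m) (y.2 - m) (y.2 + m) G) ∧
  Ci y (16 * m) (2 * (16 * m)) G

theorem TL.mono {y : Vtx} {m : ℕ} {F G : Finset Edg} (h : F ⊆ G) (hF : TL y m F) : TL y m G :=
  ⟨⟨hF.1.1.mono h, hF.1.2.mono h⟩, hF.2.mono h⟩

theorem bo_yc_sub {y : Vtx} {m : ℕ} (hm : 1 ≤ m) : bo (yc y m) (7 * m) ⊆ An y m := by
  rintro ⟨x, z, _ | _⟩ h
  · simp only [bo, yc, mem_RE_false] at h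
    simp only [An, bo, Finset.mem_sdiff, mem_RE_false]
    push_cast at h ⊢
    omega
  · simp only [bo, yc, mem_RE_true] at h
    simp only [An, bo, Finset.mem_sdiff, mem_RE_true]
    push_cast at h ⊢
    omega

theorem pr_TL {p κ : ℝ} {N : ℕ} (hW : H12S.Win p κ N) {m : ℕ} (hm : 1 ≤ m) (hmN : 16 * m ≤ N)
    {y : Vtx} {S : Finset Edg} (hS : An y m ⊆ S) :
    κ ^ 9 ≤ Pr (fun _ => p) S (TL y m) := by
  have h0 : 0 ≤ p := by linarith [hW.lo]
  have h1 : p ≤ 1 := by linarith [hW.hi]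
  have hκ := hW.kpos
  have ok := okq h0 h1
  have e1 : κ ^ 4 ≤ Pr (fun _ => p) S (Ci (yc y m) m (2 * m)) := by
    apply pr_Ci_win hW hm (by omega) (r0 := 0) (by omega)
    refine (Finset.sdiff_subset.trans ?_).trans hS
    refine subset_trans ?_ (bo_yc_sub hm)
    exact bo_sub_bo (by rw [sub_self]; unfold nv; simp; omega)
  have e2 : κ ≤ Pr (fun _ => p) S
      (LRc (y.1 + 7 * m) (y.1 + 32 * m) (y.2 - m) (y.2 + m)) := by
    rw [pr_LRc]
    · refine (hW.pri (2 * m) (by omega) (by omega)).trans ?_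
      apply hh_mono h0 h1
      · omega
      · push_cast; omega
      · push_cast; omega
    · rintro ⟨x, z, _ | _⟩ h
      · apply hS
        simp only [mem_LRE_false] at h
        simp only [An, bo, Finset.mem_sdiff, mem_RE_false]
        push_cast
        omega
      · apply hS
        simp only [mem_LRE_true] at h
        simp only [An, bo, Finset.mem_sdiff, mem_RE_true]
        push_cast
        omega
  have e3 : κ ^ 4 ≤ Pr (fun _ => p) S (Ci y (16 * m) (2 * (16 * m))) := by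
    apply pr_Ci_win hW (by omega) hmN (r0 := 2 * m) (by omega)
    have : 2 * (16 * m) = 32 * m := by ring
    rw [this]
    exact hS
  have i1 := Pr_harris ok (S := S) (A := Ci (yc y m) m (2 * m))
    (B := LRc (y.1 + 7 * m) (y.1 + 32 * m) (y.2 - m) (y.2 + m))
    (fun F G h _ hF => hF.mono h) (LRc_incr _ _ _ _ _)
  have i2 := Pr_harris ok (S := S) (A := fun F => Ci (yc y m) m (2 * m) F ∧
    LRc (y.1 + 7 * m) (y.1 + 32 * m) (y.2 - m) (y.2 + m) F) (B := Ci y (16 * m) (2 * (16 * m)))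
    (fun F G h _ hF => ⟨hF.1.mono h, hF.2.mono h⟩) (fun F G h _ hF => hF.mono h)
  have j1 := (mul_le_mul e1 e2 hκ.le ((by positivity : 0 ≤ κ ^ 4).trans e1)).trans i1
  have j2 := (mul_le_mul j1 e3 (by positivity) ((by positivity : 0 ≤ κ ^ 4 * κ).trans j1)).trans i2
  calc κ ^ 9 = κ ^ 4 * κ * κ ^ 4 := by ring
    _ ≤ _ := j2

/-- the tower, not restricted to the annulus -/
def T0 (K m : ℕ) (y : Vtx) (F : Finset E3) : Prop :=
  ∀ j, j < K → (TL y m (sl j F) ∧ TL y m (sl (j + 1) F)) ∧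
    ∃ v ∈ Bc (yc y m) m, Hv (yc y m) m v (sl j F) ∧ Hv (yc y m) m v (sl (j + 1) F) ∧
      (Sum.inr (j, v) : E3) ∈ F

theorem T0.mono {K m : ℕ} {y : Vtx} {F G : Finset E3} (h : F ⊆ G) (hF : T0 K m y F) :
    T0 K m y G := by
  intro j hj
  obtain ⟨⟨h1, h2⟩, v, hv, h3, h4, h5⟩ := hF j hj
  exact ⟨⟨h1.mono (sl_mono h), h2.mono (sl_mono h)⟩, v, hv,
    OE.mono (by exact_mod_cast sl_mono h) h3, OE.mono (by exact_mod_cast sl_mono h) h4, h h5⟩

/-- the edges of the annulus in the layers `0, …, K` -/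
noncomputable def An3 (K m : ℕ) (y : Vtx) : Finset E3 :=
  ((range (K + 1)).biUnion fun j => lay j (An y m)) ∪
    ((range (K + 1)) ×ˢ (Bc (yc y m) m)).map ⟨Sum.inr, Sum.inr_injective⟩

theorem inl_mem_An3 {K m : ℕ} {y : Vtx} {j : ℕ} {e : Edg} :
    (Sum.inl (j, e) : E3) ∈ An3 K m y ↔ j ≤ K ∧ e ∈ An y m := by
  unfold An3
  rw [Finset.mem_union, Finset.mem_biUnion]
  constructor
  · rintro (⟨i, hi, h⟩ | h)
    · rw [inl_mem_lay] at h
      rw [Finset.mem_range] at hi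
      exact ⟨by omega, h.2⟩
    · rw [Finset.mem_map] at h
      obtain ⟨x, -, hx⟩ := h
      cases hx
  · rintro ⟨h1, h2⟩
    left
    exact ⟨j, by rw [Finset.mem_range]; omega, inl_mem_lay.mpr ⟨rfl, h2⟩⟩

theorem inr_mem_An3 {K m : ℕ} {y : Vtx} {j : ℕ} {v : Vtx} :
    (Sum.inr (j, v) : E3) ∈ An3 K m y ↔ j ≤ K ∧ v ∈ Bc (yc y m) m := by
  unfold An3
  rw [Finset.mem_union, Finset.mem_biUnion]
  constructor
  · rintro (⟨i, hi, h⟩ | h)
    · exact absurd h inr_mem_lay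
    · rw [Finset.mem_map] at h
      obtain ⟨⟨i, w⟩, hx, h2⟩ := h
      rw [Finset.mem_product, Finset.mem_range] at hx
      have h3 : (Sum.inr (i, w) : E3) = Sum.inr (j, v) := h2
      have h4 := Prod.mk.inj (Sum.inr.inj h3)
      refine ⟨by have := hx.1; simp only at this; omega, ?_⟩
      rw [← h4.2]
      exact hx.2
  · rintro ⟨h1, h2⟩
    right
    rw [Finset.mem_map]
    refine ⟨(j, v), ?_, rfl⟩
    rw [Finset.mem_product, Finset.mem_range]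
    exact ⟨by simp only; omega, h2⟩

theorem sl_An3 {K m : ℕ} {y : Vtx} {j : ℕ} (hj : j ≤ K) : sl j (An3 K m y) = An y m := by
  ext e
  rw [mem_sl, inl_mem_An3]
  simp [hj]

/-- the tower -/
def Tw (K m : ℕ) (y : Vtx) (F : Finset E3) : Prop := T0 K m y (F ∩ An3 K m y)

theorem Tw_incr (S : Finset E3) (K m : ℕ) (y : Vtx) : IncrE S (Tw K m y) :=
  fun _ _ h _ hF => hF.mono (Finset.inter_subset_inter_right h)

/-- the constant of the towers -/
noncomputable def dT (κ a K0 : ℝ) : ℝ := κ ^ 9 * κ ^ 9 * (2 * a ^ 4 / (CF K0 + 9 * K0 ^ 2))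

theorem dT_pos {κ a K0 : ℝ} (hκ : 0 < κ) (ha : 0 < a) (hK : 1 ≤ K0) : 0 < dT κ a K0 := by
  unfold dT
  have := CF_pos hK
  positivity

theorem pr_Tw {p q κ a K0 : ℝ} {N : ℕ} (hW : H12S.Win p κ N) (hp : p ≤ 1 / 2) (hq0 : 0 ≤ q)
    (hq1 : q ≤ 1) (ha : 0 < a) (hK1 : 1 ≤ K0) {m : ℕ} (hm : 1 ≤ m)
    (hK : ArmUp (1 / 2) K0 (2 * m)) (hlow : a * (m : ℝ) ^ (-(5 / 48 : ℝ)) ≤ arm p (8 * m))
    (hmN : 16 * m ≤ N) (hqm : 1 ≤ q * (m : ℝ) ^ (43 / 24 : ℝ)) {K : ℕ} {y : Vtx}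
    {S : Finset E3} (hS : An3 K m y ⊆ S) :
    dT κ a K0 ^ K ≤ Pr (wt p q) S (Tw K m y) := by
  have h0 : 0 ≤ p := by linarith [hW.lo]
  have h1 : p ≤ 1 := by linarith [hW.hi]
  have hκ := hW.kpos
  have ok := ok3 h0 h1 hq0 hq1
  have e0 : Pr (wt p q) S (Tw K m y) = Pr (wt p q) (An3 K m y) (T0 K m y) := by
    have e1 : Pr (wt p q) S (Tw K m y) = Pr (wt p q) (An3 K m y) (Tw K m y) := by
      apply Pr_local hS
      intro F _
      unfold Tw
      rw [Finset.inter_assoc, Finset.inter_self]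
    rw [e1]
    apply Pr_congr
    intro F hF
    unfold Tw
    rw [Finset.inter_eq_left.mpr hF]
  rw [e0]
  have hd0 : 0 ≤ dT κ a K0 := (dT_pos hκ ha hK1).le
  apply harris_powg ok (An3 K m y) (B := fun j F => (TL y m (sl j F) ∧ TL y m (sl (j + 1) F)) ∧
    ∃ v ∈ Bc (yc y m) m, Hv (yc y m) m v (sl j F) ∧ Hv (yc y m) m v (sl (j + 1) F) ∧
      (Sum.inr (j, v) : E3) ∈ F) _ hd0 K
  · intro j hj
    have s1 : κ ^ 9 ≤ Pr (wt p q) (An3 K m y) (fun F => TL y m (sl j F)) := by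
      rw [Pr_sl]
      exact pr_TL hW hm hmN (sl_An3 (by omega : j ≤ K)).symm.subset
    have s2 : κ ^ 9 ≤ Pr (wt p q) (An3 K m y) (fun F => TL y m (sl (j + 1) F)) := by
      rw [Pr_sl]
      exact pr_TL hW hm hmN (sl_An3 (by omega : j + 1 ≤ K)).symm.subset
    have s3 := link (p := p) (q := q) (a := a) (K0 := K0) (m := m) (c := yc y m) (i := j)
      (j := j + 1) (S := An3 K m y) h0 hp hq0 hq1 ha hK1 hm hK hlow (by omega)
      (by rw [sl_An3 (by omega : j ≤ K)]; exact bo_yc_sub hm)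
      (by rw [sl_An3 (by omega : j + 1 ≤ K)]; exact bo_yc_sub hm)
      (fun v hv => inr_mem_An3.mpr ⟨by omega, hv⟩) hqm
    have i1 := Pr_harris ok (S := An3 K m y) (A := fun F => TL y m (sl j F))
      (B := fun F => TL y m (sl (j + 1) F)) (fun F G h _ hF => hF.mono (sl_mono h))
      (fun F G h _ hF => hF.mono (sl_mono h))
    have i2 := Pr_harris ok (S := An3 K m y)
      (A := fun F => TL y m (sl j F) ∧ TL y m (sl (j + 1) F))
      (B := fun F => ∃ v ∈ Bc (yc y m) m, Hv (yc y m) m v (sl j F) ∧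
        Hv (yc y m) m v (sl (j + 1) F) ∧ (Sum.inr (j, v) : E3) ∈ F)
      (fun F G h _ hF => ⟨hF.1.mono (sl_mono h), hF.2.mono (sl_mono h)⟩)
      (fun F G h _ hF => by
        obtain ⟨v, hv, h3, h4, h5⟩ := hF
        exact ⟨v, hv, OE.mono (by exact_mod_cast sl_mono h) h3,
          OE.mono (by exact_mod_cast sl_mono h) h4, h h5⟩)
    have hk9 : 0 ≤ κ ^ 9 := by positivity
    have hl : 0 ≤ 2 * a ^ 4 / (CF K0 + 9 * K0 ^ 2) := by
      have := CF_pos hK1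
      positivity
    have j1 := (mul_le_mul s1 s2 hk9 (hk9.trans s1)).trans i1
    exact (mul_le_mul j1 s3 hl ((mul_nonneg hk9 hk9).trans j1)).trans i2
  · intro j F G h _ hF
    obtain ⟨⟨h1, h2⟩, v, hv, h3, h4, h5⟩ := hF
    exact ⟨⟨h1.mono (sl_mono h), h2.mono (sl_mono h)⟩, v, hv,
      OE.mono (by exact_mod_cast sl_mono h) h3, OE.mono (by exact_mod_cast sl_mono h) h4, h h5⟩

end Pool.Agent.TH987.AN.Lay
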